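import Mathlib

set_option autoImplicit false

namespace Pool.Agent.PCHam

open Equiv

variable {V C : Type}

/-- A properly coloured cycle factor of the complete graph on `V` with edge colouring `col`,
given by the permutation `σ` sending each vertex to its successor on its cycle (each cycle is
oriented in one of its two directions): no cycle has length `1` or `2`, and any two consecutive
edges have different colours. -/
def IsPCFactor (col : Sym2 V → C) (σ : Perm V) : Prop :=
  ∀ v, σ v ≠ v ∧ σ (σ v) ≠ v ∧ col s(v, σ v) ≠ col s(σ v, σ (σ v))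

/-- The complete graph on `V` has a properly coloured cycle factor. -/
def HasPCCycleFactor (col : Sym2 V → C) : Prop := ∃ σ : Perm V, IsPCFactor col σ

/-- The complete graph on `V` has a properly coloured Hamilton cycle: a properly coloured cycle
factor consisting of one cycle. -/
def HasPCHamiltonCycle (col : Sym2 V → C) : Prop :=
  ∃ σ : Perm V, IsPCFactor col σ ∧ ∀ u v, σ.SameCycle u v

/-- Local `2`-colouring: the edges at any vertex have at most two colours. -/
def IsLocalTwoColouring (col : Sym2 V → C) : Prop :=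
  ∀ v, ∃ a b : C, ∀ w, w ≠ v → col s(v, w) = a ∨ col s(v, w) = b

/-- At least three colours occur on edges. -/
def UsesThreeColours (col : Sym2 V → C) : Prop :=
  ∃ e₁ e₂ e₃ : Sym2 V, ¬ e₁.IsDiag ∧ ¬ e₂.IsDiag ∧ ¬ e₃.IsDiag ∧
    col e₁ ≠ col e₂ ∧ col e₁ ≠ col e₃ ∧ col e₂ ≠ col e₃

section merge

variable [Fintype V] [DecidableEq V]

omit [DecidableEq V] in
lemma sameCycle_of_step {σ τ : Perm V} (h : ∀ x, τ.SameCycle x (σ x)) {x y : V}
    (hxy : σ.SameCycle x y) : τ.SameCycle x y := by
  obtain ⟨n, hn⟩ := hxy.exists_nat_pow_eq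
  subst hn
  induction n with
  | zero => exact Perm.SameCycle.refl _ _
  | succ n ih =>
    rw [pow_succ', Perm.mul_apply]
    exact (ih ⟨n, by simp⟩).trans (h _)

lemma sameCycle_swap {σ : Perm V} {u v : V} (h : ¬ σ.SameCycle u v) :
    (σ * swap u v).SameCycle u v := by
  by_contra hc
  set τ := σ * swap u v with hτ
  have huv : u ≠ v := by rintro rfl; exact h (Perm.SameCycle.refl _ _)
  have key : ∀ n : ℕ, τ.SameCycle v ((σ ^ n) (σ u)) := by
    intro n
    induction n with
    | zero =>
      have : τ v = σ u := by simp [hτ]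
      rw [pow_zero, Perm.one_apply, ← this]
      exact ⟨1, by simp⟩
    | succ n ih =>
      have h1 : (σ ^ n) (σ u) ≠ u := by
        intro e; rw [e] at ih; exact hc ih.symm
      have h2 : (σ ^ n) (σ u) ≠ v := by
        intro e; apply h; refine ⟨(n + 1 : ℕ), ?_⟩
        rw [zpow_natCast, pow_succ, Perm.mul_apply, e]
      have : τ ((σ ^ n) (σ u)) = (σ ^ (n + 1)) (σ u) := by
        rw [hτ, Perm.mul_apply, swap_apply_of_ne_of_ne h1 h2, pow_succ', Perm.mul_apply]
      rw [← this]
      exact ih.trans ⟨1, by simp⟩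
  have : σ.SameCycle (σ u) u := ⟨-1, by simp⟩
  obtain ⟨n, hn⟩ := this.exists_nat_pow_eq
  have := key n
  rw [hn] at this
  exact hc this.symm

lemma sameCycle_swap_mono {σ : Perm V} {u v : V} (h : ¬ σ.SameCycle u v) {x y : V}
    (hxy : σ.SameCycle x y) : (σ * swap u v).SameCycle x y := by
  refine sameCycle_of_step (fun x => ?_) hxy
  have h0 := sameCycle_swap h
  by_cases hu : x = u
  · subst hu
    have : (σ * swap x v) v = σ x := by simp
    rw [← this]
    exact h0.trans ⟨1, by simp⟩
  by_cases hv : x = v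
  · subst hv
    have : (σ * swap u x) u = σ x := by simp
    rw [← this]
    exact h0.symm.trans ⟨1, by simp⟩
  have : (σ * swap u v) x = σ x := by
    rw [Perm.mul_apply, swap_apply_of_ne_of_ne hu hv]
  rw [← this]
  exact ⟨1, by simp⟩

open Classical in
/-- `σ` with the cycle through `z` reversed. -/
noncomputable def revAt (σ : Perm V) (z : V) : Perm V where
  toFun x := if σ.SameCycle z x then σ.symm x else σ x
  invFun x := if σ.SameCycle z x then σ x else σ.symm x
  left_inv x := by
    by_cases h : σ.SameCycle z x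
    · have : σ.SameCycle z (σ.symm x) := h.trans ⟨-1, by simp [Perm.inv_def]⟩
      simp [h, this]
    · have : ¬ σ.SameCycle z (σ x) := by simpa using h
      simp [h, this]
  right_inv x := by
    by_cases h : σ.SameCycle z x
    · have : σ.SameCycle z (σ x) := by simpa using h
      simp [h, this]
    · have : ¬ σ.SameCycle z (σ.symm x) := fun h' => h (h'.trans ⟨1, by simp⟩)
      simp [h, this]

lemma revAt_of_same {σ : Perm V} {z x : V} (h : σ.SameCycle z x) : revAt σ z x = σ.symm x := by
  simp [revAt, h]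

lemma revAt_of_not {σ : Perm V} {z x : V} (h : ¬ σ.SameCycle z x) : revAt σ z x = σ x := by
  simp [revAt, h]

lemma revAt_sameCycle {σ : Perm V} {z x y : V} :
    (revAt σ z).SameCycle x y ↔ σ.SameCycle x y := by
  constructor
  · refine sameCycle_of_step (fun x => ?_)
    by_cases h : σ.SameCycle z x
    · rw [revAt_of_same h]; exact ⟨-1, by simp [Perm.inv_def]⟩
    · rw [revAt_of_not h]; exact ⟨1, by simp⟩
  · refine sameCycle_of_step (fun x => ?_)
    by_cases h : σ.SameCycle z x
    · have h' : σ.SameCycle z (σ x) := by simpa using h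
      have : revAt σ z (σ x) = x := by rw [revAt_of_same h']; simp
      refine Perm.SameCycle.symm ⟨1, ?_⟩
      simpa using this
    · rw [← revAt_of_not h]; exact ⟨1, by simp⟩

lemma revAt_factor {col : Sym2 V → C} {σ : Perm V} (hσ : IsPCFactor col σ) (z : V) :
    IsPCFactor col (revAt σ z) := by
  intro v
  by_cases h : σ.SameCycle z v
  · have h' : σ.SameCycle z (σ.symm v) := h.trans ⟨-1, by simp [Perm.inv_def]⟩
    rw [revAt_of_same h, revAt_of_same h']
    obtain ⟨a, b, c⟩ := hσ (σ.symm (σ.symm v))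
    obtain ⟨a', -, -⟩ := hσ (σ.symm v)
    simp only [Equiv.apply_symm_apply] at a b c a'
    refine ⟨a'.symm, b.symm, ?_⟩
    rw [Sym2.eq_swap, Sym2.eq_swap (a := σ.symm v) (b := σ.symm (σ.symm v))]
    exact c.symm
  · have h' : ¬ σ.SameCycle z (σ v) := by simpa using h
    rw [revAt_of_not h, revAt_of_not h']
    exact hσ v

omit [Fintype V] in
lemma swap_factor {col : Sym2 V → C} {σ : Perm V} (hσ : IsPCFactor col σ) {u v : V}
    (h : ¬ σ.SameCycle u v) (h1 : col s(u, σ v) = col s(u, σ u))
    (h2 : col s(v, σ u) = col s(u, σ u)) (h3 : col s(v, σ v) = col s(u, σ u)) :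
    IsPCFactor col (σ * swap u v) := by
  set τ := σ * swap u v with hτ
  have hu : τ u = σ v := by simp [hτ]
  have hv : τ v = σ u := by simp [hτ]
  have ho : ∀ x, x ≠ u → x ≠ v → τ x = σ x := fun x a b => by
    rw [hτ, Perm.mul_apply, swap_apply_of_ne_of_ne a b]
  have he : ∀ x, col s(x, τ x) = col s(x, σ x) := by
    intro x
    by_cases a : x = u
    · subst a; rw [hu, h1]
    by_cases b : x = v
    · subst b; rw [hv, h2, h3]
    rw [ho x a b]
  have hc : ∀ x, col s(x, τ x) ≠ col s(τ x, τ (τ x)) := by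
    intro x
    rw [he x, he (τ x)]
    by_cases a : x = u
    · subst a; rw [hu, ← h3]; exact (hσ v).2.2
    by_cases b : x = v
    · subst b; rw [hv, h3]; exact (hσ u).2.2
    rw [ho x a b]; exact (hσ x).2.2
  intro x
  refine ⟨?_, ?_, hc x⟩
  · by_cases a : x = u
    · subst a; rw [hu]; intro e; apply h
      exact Perm.SameCycle.symm ⟨1, by simpa using e⟩
    by_cases b : x = v
    · subst b; rw [hv]; intro e; apply h
      exact ⟨1, by simpa using e⟩
    rw [ho x a b]; exact (hσ x).1
  · intro e
    apply hc x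
    rw [e, Sym2.eq_swap]

open Classical in
/-- The number of ordered pairs of vertices on a common cycle. -/
noncomputable def wt (σ : Perm V) : ℕ :=
  (Finset.univ.filter fun p : V × V => σ.SameCycle p.1 p.2).card

/-- A cycle factor with as many pairs on a common cycle as possible. -/
def IsMaxFactor (col : Sym2 V → C) (σ : Perm V) : Prop :=
  IsPCFactor col σ ∧ ∀ τ, IsPCFactor col τ → wt τ ≤ wt σ

lemma exists_max {col : Sym2 V → C} (h : HasPCCycleFactor col) : ∃ σ, IsMaxFactor col σ := by
  classical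
  obtain ⟨σ, hσ⟩ := h
  obtain ⟨τ, hτ, hmax⟩ := Finset.exists_max_image
    (Finset.univ.filter fun τ : Perm V => IsPCFactor col τ) wt ⟨σ, by simpa using hσ⟩
  exact ⟨τ, by simpa using hτ, fun ρ hρ => hmax ρ (by simpa using hρ)⟩

lemma IsMaxFactor.revAt {col : Sym2 V → C} {σ : Perm V} (h : IsMaxFactor col σ) (z : V) :
    IsMaxFactor col (revAt σ z) := by
  refine ⟨revAt_factor h.1 z, fun τ hτ => (h.2 τ hτ).trans (le_of_eq ?_)⟩
  unfold wt
  congr 1
  ext p
  simp [revAt_sameCycle]

lemma IsMaxFactor.no_swap {col : Sym2 V → C} {σ : Perm V} (hσ : IsMaxFactor col σ) {u v : V}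
    (h : ¬ σ.SameCycle u v) (h1 : col s(u, σ v) = col s(u, σ u))
    (h2 : col s(v, σ u) = col s(u, σ u)) (h3 : col s(v, σ v) = col s(u, σ u)) : False := by
  classical
  have := hσ.2 _ (swap_factor hσ.1 h h1 h2 h3)
  refine absurd this (not_le.mpr ?_)
  unfold wt
  apply Finset.card_lt_card
  rw [Finset.ssubset_iff_of_subset]
  · exact ⟨(u, v), by simpa using sameCycle_swap h, by simpa using h⟩
  · intro p hp
    simp only [Finset.mem_filter, Finset.mem_univ, true_and] at hp ⊢
    exact sameCycle_swap_mono h hp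

/-- No monochromatic `4`-cycle `u u' v' v` with `u u'` and `v v'` edges of different cycles of a
maximal factor. -/
lemma IsMaxFactor.no_square {col : Sym2 V → C} {σ : Perm V} (hσ : IsMaxFactor col σ)
    {u v u' v' : V} (h : ¬ σ.SameCycle u v) (hu : u' = σ u ∨ u' = σ.symm u)
    (hv : v' = σ v ∨ v' = σ.symm v) (h1 : col s(u, v) = col s(u, u'))
    (h2 : col s(u', v') = col s(u, u')) (h3 : col s(v, v') = col s(u, u')) : False := by
  -- first orient the cycle of `u`
  have step : ∀ τ : Perm V, IsMaxFactor col τ → ¬ τ.SameCycle u v → u' = τ u →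
      (v' = τ v ∨ v' = τ.symm v) → False := by
    intro τ hτ h hu hv
    have step2 : ∀ ρ : Perm V, IsMaxFactor col ρ → ¬ ρ.SameCycle u v → u' = ρ u →
        v' = ρ.symm v → False := by
      intro ρ hρ h hu hv
      have e : ρ v' = v := by rw [hv]; simp
      have h' : ¬ ρ.SameCycle u v' := fun k => h (k.trans ⟨1, by simpa using e⟩)
      refine hρ.no_swap h' ?_ ?_ ?_
      · rw [e, ← hu, h1]
      · rw [← hu, Sym2.eq_swap, h2]
      · rw [e, ← hu, Sym2.eq_swap, h3]
    rcases hv with hv | hv
    · refine step2 (PCHam.revAt τ v) (hτ.revAt v) (by rwa [revAt_sameCycle]) ?_ ?_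
      · rw [revAt_of_not (fun k => h k.symm), hu]
      · rw [Equiv.eq_symm_apply, hv, revAt_of_same ⟨1, by simp⟩]; simp
    · exact step2 τ hτ h hu hv
  rcases hu with hu | hu
  · exact step σ hσ h hu hv
  · refine step (PCHam.revAt σ u) (hσ.revAt u) (by rwa [revAt_sameCycle]) ?_ ?_
    · rw [revAt_of_same (Perm.SameCycle.refl _ _), hu]
    · rcases hv with hv | hv
      · left; rw [revAt_of_not h, hv]
      · right
        have : ¬ σ.SameCycle u (σ.symm v) := fun k => h (k.trans ⟨1, by simp⟩)
        rw [Equiv.eq_symm_apply, hv, revAt_of_not this]; simp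

end merge

section main

variable [Fintype V] [DecidableEq V] {col : Sym2 V → C} {σ : Perm V}

omit [Fintype V] [DecidableEq V] in
lemma AB_ne (hσ : IsPCFactor col σ) (x : V) : col s(x, σ x) ≠ col s(x, σ.symm x) := by
  have := (hσ (σ.symm x)).2.2
  simp only [Equiv.apply_symm_apply] at this
  rw [Sym2.eq_swap (a := x) (b := σ.symm x)]
  exact this.symm

omit [Fintype V] [DecidableEq V] in
lemma col_AB (hσ : IsPCFactor col σ) (hl : IsLocalTwoColouring col) {x w : V} (hw : w ≠ x) :
    col s(x, w) = col s(x, σ x) ∨ col s(x, w) = col s(x, σ.symm x) := by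
  obtain ⟨a, b, hab⟩ := hl x
  have h1 := hab w hw
  have h2 := hab (σ x) (hσ x).1
  have h3 := hab (σ.symm x) (by
    have := (hσ (σ.symm x)).1
    simp only [Equiv.apply_symm_apply] at this
    exact this.symm)
  have h4 := AB_ne hσ x
  grind

open Classical in
/-- The neighbour of `x` in the factor along the edge of colour `a`. -/
noncomputable def pt (col : Sym2 V → C) (σ : Perm V) (x : V) (a : C) : V :=
  if col s(x, σ x) = a then σ x else σ.symm x

open Classical in
/-- The neighbour of `x` in the factor along the edge whose colour is not `b`. -/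
noncomputable def qt (col : Sym2 V → C) (σ : Perm V) (x : V) (b : C) : V :=
  if col s(x, σ x) = b then σ.symm x else σ x

omit [Fintype V] [DecidableEq V] in
lemma pt_cases (x : V) (a : C) : pt col σ x a = σ x ∨ pt col σ x a = σ.symm x := by
  unfold pt; split_ifs <;> simp

omit [Fintype V] [DecidableEq V] in
lemma pt_same (x : V) (a : C) : σ.SameCycle x (pt col σ x a) := by
  rcases pt_cases (col := col) (σ := σ) x a with h | h <;> rw [h]
  · exact ⟨1, by simp⟩
  · exact ⟨-1, by simp [Perm.inv_def]⟩

omit [Fintype V] [DecidableEq V] in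
lemma pt_col (hσ : IsPCFactor col σ) (hl : IsLocalTwoColouring col) {x w : V} (hw : w ≠ x) :
    col s(x, pt col σ x (col s(x, w))) = col s(x, w) := by
  unfold pt
  split_ifs with h
  · exact h
  · rcases col_AB hσ hl hw with k | k
    · exact absurd k.symm h
    · exact k.symm

omit [Fintype V] [DecidableEq V] in
lemma qt_pt (hσ : IsPCFactor col σ) (hl : IsLocalTwoColouring col) {x w : V} {a : C}
    (ha : col s(x, pt col σ x a) = a) (hw : w ≠ pt col σ x a)
    (hb : col s(pt col σ x a, w) ≠ a) :
    qt col σ (pt col σ x a) (col s(pt col σ x a, w)) = x := by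
  have h0 := col_AB hσ hl hw
  rcases pt_cases (col := col) (σ := σ) x a with h | h
  · rw [h] at ha hb h0 ⊢
    simp only [Equiv.symm_apply_apply] at h0
    rw [Sym2.eq_swap (a := σ x) (b := x), ha] at h0
    have := h0.resolve_right hb
    unfold qt
    rw [if_pos this.symm]; simp
  · rw [h] at ha hb h0 ⊢
    unfold qt
    rw [if_neg]
    · simp
    · simp only [Equiv.apply_symm_apply]
      rw [Sym2.eq_swap, ha]; exact hb.symm

/-- Two vertices see the same pair of colours. -/
def SameS (col : Sym2 V → C) (σ : Perm V) (x y : V) : Prop :=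
  ∀ c, (c = col s(x, σ x) ∨ c = col s(x, σ.symm x)) ↔ (c = col s(y, σ y) ∨ c = col s(y, σ.symm y))

lemma sameS_of_cross (hσ : IsMaxFactor col σ) (hl : IsLocalTwoColouring col) {u v : V}
    (h : ¬ σ.SameCycle u v) : SameS col σ u v := by
  classical
  have hne : ∀ {x y : V}, ¬ σ.SameCycle x y → y ≠ x := by
    rintro x y k rfl; exact k (Perm.SameCycle.refl _ _)
  let P := {p : V × V // ¬ σ.SameCycle p.1 p.2}
  have cross : ∀ p : P, ¬ σ.SameCycle (pt col σ p.1.1 (col s(p.1.1, p.1.2)))
      (pt col σ p.1.2 (col s(p.1.1, p.1.2))) := fun p k =>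
    p.2 (((pt_same _ _).trans k).trans (pt_same _ _).symm)
  let φ : P → P := fun p => ⟨(_, _), cross p⟩
  have c1 : ∀ p : P, col s(p.1.1, (φ p).1.1) = col s(p.1.1, p.1.2) := fun p =>
    pt_col hσ.1 hl (hne p.2)
  have c2 : ∀ p : P, col s(p.1.2, (φ p).1.2) = col s(p.1.1, p.1.2) := fun p => by
    have := pt_col hσ.1 hl (hne p.2).symm
    rw [Sym2.eq_swap (a := p.1.2) (b := p.1.1)] at this
    exact this
  have c3 : ∀ p : P, col s((φ p).1.1, (φ p).1.2) ≠ col s(p.1.1, p.1.2) := fun p k =>
    hσ.no_square p.2 (pt_cases _ _) (pt_cases _ _) (c1 p).symm (k.trans (c1 p).symm)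
      ((c2 p).trans (c1 p).symm)
  have b1 : ∀ p : P, qt col σ (φ p).1.1 (col s((φ p).1.1, (φ p).1.2)) = p.1.1 := fun p =>
    qt_pt hσ.1 hl (c1 p) (hne (φ p).2) (c3 p)
  have b2 : ∀ p : P, qt col σ (φ p).1.2 (col s((φ p).1.1, (φ p).1.2)) = p.1.2 := fun p => by
    have k := c3 p
    rw [Sym2.eq_swap] at k
    have := qt_pt hσ.1 hl (c2 p) (hne (φ p).2).symm k
    rw [Sym2.eq_swap (a := (φ p).1.1)]
    exact this
  have inj : Function.Injective φ := by
    intro p q e
    apply Subtype.ext
    apply Prod.ext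
    · rw [← b1 p, ← b1 q, e]
    · rw [← b2 p, ← b2 q, e]
  obtain ⟨p, hp⟩ := (Finite.injective_iff_surjective.mp inj) ⟨(u, v), h⟩
  have e1 := c1 p
  have e2 := c2 p
  have e3 := c3 p
  have n1 : p.1.1 ≠ (φ p).1.1 := by
    rcases pt_cases (col := col) (σ := σ) p.1.1 (col s(p.1.1, p.1.2)) with k | k
    · intro e; exact (hσ.1 p.1.1).1 (k.symm.trans e.symm)
    · intro e
      have := (hσ.1 (σ.symm p.1.1)).1
      simp only [Equiv.apply_symm_apply] at this
      exact this (e.trans k)
  have n2 : p.1.2 ≠ (φ p).1.2 := by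
    rcases pt_cases (col := col) (σ := σ) p.1.2 (col s(p.1.1, p.1.2)) with k | k
    · intro e; exact (hσ.1 p.1.2).1 (k.symm.trans e.symm)
    · intro e
      have := (hσ.1 (σ.symm p.1.2)).1
      simp only [Equiv.apply_symm_apply] at this
      exact this (e.trans k)
  rw [hp] at e1 e2 e3 n1 n2
  simp only at e1 e2 e3 n1 n2
  have a1 := col_AB hσ.1 hl n1
  have a2 := col_AB hσ.1 hl n2
  have a3 := col_AB hσ.1 hl (hne h)
  have a4 := col_AB hσ.1 hl (hne h).symm
  rw [Sym2.eq_swap, e1] at a1
  rw [Sym2.eq_swap, e2] at a2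
  rw [Sym2.eq_swap] at a4
  intro c
  grind

theorem hamilton_of_factor (hl : IsLocalTwoColouring col) (h3 : UsesThreeColours col)
    (hf : HasPCCycleFactor col) : HasPCHamiltonCycle col := by
  obtain ⟨σ, hσ⟩ := exists_max hf
  refine ⟨σ, hσ.1, ?_⟩
  by_contra hc
  push Not at hc
  obtain ⟨u, v, huv⟩ := hc
  have hall : ∀ x, SameS col σ x u := by
    intro x
    by_cases k : σ.SameCycle x u
    · have k' : ¬ σ.SameCycle x v := fun j => huv (k.symm.trans j)
      intro c
      exact (sameS_of_cross hσ hl k' c).trans (sameS_of_cross hσ hl huv c).symm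
    · exact sameS_of_cross hσ hl k
  have he : ∀ e : Sym2 V, ¬ e.IsDiag → col e = col s(u, σ u) ∨ col e = col s(u, σ.symm u) := by
    intro e
    induction e using Sym2.ind with
    | h x w =>
      intro hd
      have : w ≠ x := fun k => hd (by simp [k])
      exact (hall x _).mp (col_AB hσ.1 hl this)
  obtain ⟨e₁, e₂, e₃, d1, d2, d3, n1, n2, n3⟩ := h3
  have := he e₁ d1
  have := he e₂ d2
  have := he e₃ d3
  grind

end main

end Pool.Agent.PCHam
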