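import Mathlib

/-!
Eulerian factors with a colour changing pairing at every vertex, and switching along a cycle.
-/

namespace Pool.Agent.Lib.MP_dd4ef3_lc.H61

open Relation

variable {V K : Type}

/-- A properly coloured spanning closed trail of the complete graph on `V`: a cyclic sequence
through all vertices, without repeated edges, consecutive edges having different colours. -/
def HasPCSpanningCircuit (col : Sym2 V → K) : Prop :=
  ∃ (m : ℕ) (p : ZMod (m + 1) → V), Function.Surjective p ∧ (∀ i, p i ≠ p (i + 1)) ∧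
    Function.Injective (fun i => s(p i, p (i + 1))) ∧
    ∀ i, col s(p i, p (i + 1)) ≠ col s(p (i + 1), p (i + 2))

/-- A spanning subgraph whose edges at each vertex are paired with different colours. -/
structure Fac (c : V → V → K) where
  N : V → V → Prop
  t : V → V → V
  symm : ∀ {u v}, N u v → N v u
  irr : ∀ v, ¬N v v
  ex : ∀ v, ∃ u, N v u
  mem : ∀ {v u}, N v u → N v (t v u)
  inv : ∀ {v u}, N v u → t v (t v u) = u
  ne : ∀ {v u}, N v u → c v u ≠ c v (t v u)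

/-- A degenerate set: each edge meeting `S` has the colour `f v` of an end `v` in `S`. -/
def Deg (c : V → V → K) (S : Set V) (f : V → K) : Prop :=
  ∀ v ∈ S, ∀ w, w ≠ v → c v w = f v ∨ (w ∈ S ∧ c v w = f w)

variable {c : V → V → K}

/-- The set `S` of neighbours of `v` can be paired. -/
def Pair (c : V → V → K) (v : V) (S : V → Prop) : Prop :=
  ∃ t : V → V, ∀ u, S u → S (t u) ∧ t (t u) = u ∧ c v u ≠ c v (t u)

theorem exists_fac (N : V → V → Prop) (h1 : ∀ u v, N u v → N v u) (h2 : ∀ v, ¬N v v)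
    (h3 : ∀ v, ∃ u, N v u) (h4 : ∀ v, Pair c v (N v)) : ∃ F : Fac c, F.N = N := by
  choose t ht using h4
  exact ⟨⟨N, t, h1 _ _, h2, h3, fun h => (ht _ _ h).1, fun h => (ht _ _ h).2.1,
    fun h => (ht _ _ h).2.2⟩, rfl⟩

namespace Fac

variable (F : Fac c)

/-- Connected in the factor. -/
def R (u v : V) : Prop := ReflTransGen F.N u v

/-- The local condition for switching the two edges `yp`, `yq`. -/
def Loc (y p q : V) : Prop :=
  (¬F.N y p ∧ ¬F.N y q ∧ c y p ≠ c y q) ∨ (F.N y p ∧ ¬F.N y q ∧ c y q ≠ c y (F.t y p)) ∨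
    (F.N y q ∧ ¬F.N y p ∧ c y p ≠ c y (F.t y q))

/-- No factor connects strictly more pairs. -/
def Max : Prop :=
  ∀ F' : Fac c, (∀ u v, F.N u v → F'.R u v) → ∀ u v, F'.R u v → F.R u v

variable {F} {x y z w p q u v : V}

theorem R.refl (v : V) : F.R v v := ReflTransGen.refl
theorem R.of (h : F.N u v) : F.R u v := ReflTransGen.single h
theorem R.trans (h : F.R u v) (h' : F.R v w) : F.R u w := ReflTransGen.trans h h'
theorem R.symm (h : F.R u v) : F.R v u := by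
  induction h with
  | refl => exact R.refl _
  | tail _ e ih => exact (R.of (F.symm e)).trans ih

theorem t_ne (h : F.N v u) : F.t v u ≠ u := fun e => F.ne h (by rw [e])

theorem pair_rep (h1 : F.N y p) (h2 : ¬F.N y q) (h3 : c y q ≠ c y (F.t y p)) :
    Pair c y fun u => Xor (F.N y u) (u = p ∨ u = q) := by
  classical
  have a1 := F.mem h1
  have a2 := F.inv h1
  have a3 := t_ne h1
  refine ⟨fun u => if u = q then F.t y p else if u = F.t y p then q else F.t y u, fun u hu => ?_⟩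
  have b1 := @F.mem y u
  have b2 := @F.inv y u
  have b3 := @F.ne y u
  unfold Xor at *
  grind

theorem Loc.pair (h : F.Loc y p q) : Pair c y (fun u => Xor (F.N y u) (u = p ∨ u = q)) ∧
    ∃ u, Xor (F.N y u) (u = p ∨ u = q) := by
  classical
  rcases h with ⟨h1, h2, h3⟩ | ⟨h1, h2, h3⟩ | ⟨h1, h2, h3⟩
  · refine ⟨⟨fun u => if u = p then q else if u = q then p else F.t y u, fun u hu => ?_⟩,
      p, Or.inr ⟨Or.inl rfl, h1⟩⟩
    have b1 := @F.mem y u
    have b2 := @F.inv y u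
    have b3 := @F.ne y u
    unfold Xor at *
    grind
  · exact ⟨pair_rep h1 h2 h3, q, Or.inr ⟨Or.inr rfl, h2⟩⟩
  · refine ⟨?_, p, Or.inr ⟨Or.inl rfl, h2⟩⟩
    simpa only [or_comm] using pair_rep h1 h2 h3

theorem toggle (E : V → V → Prop) (h1 : ∀ u v, E u v → E v u) (h2 : ∀ v, ¬E v v)
    (h3 : ∀ y, (∀ u, ¬E y u) ∨ ∃ p q, (∀ u, E y u ↔ u = p ∨ u = q) ∧ F.Loc y p q) :
    ∃ F' : Fac c, ∀ u v, F'.N u v ↔ Xor (F.N u v) (E u v) := by
  have key : ∀ y, Pair c y (fun u => Xor (F.N y u) (E y u)) ∧ ∃ u, Xor (F.N y u) (E y u) := by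
    intro y
    rcases h3 y with h | ⟨p, q, h, hl⟩
    · obtain ⟨u, hu⟩ := F.ex y
      refine ⟨⟨F.t y, fun u hu => ?_⟩, u, Or.inl ⟨hu, h u⟩⟩
      rcases hu with hu | hu
      · exact ⟨Or.inl ⟨F.mem hu.1, h _⟩, F.inv hu.1, F.ne hu.1⟩
      · exact absurd hu.1 (h u)
    · simpa only [h] using hl.pair
  obtain ⟨F', e⟩ := exists_fac (c := c) (fun u v => Xor (F.N u v) (E u v))
    (fun u v h => h.imp (fun a => ⟨F.symm a.1, fun b => a.2 (h1 _ _ b)⟩)
      fun a => ⟨h1 _ _ a.1, fun b => a.2 (F.symm b)⟩)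
    (fun v h => h.elim (fun a => F.irr v a.1) fun a => h2 v a.1)
    (fun v => (key v).2) fun v => (key v).1
  exact ⟨F', fun u v => by rw [e]⟩

/-- `uv` is the edge `ab`. -/
def ed (a b u v : V) : Prop := (u = a ∧ v = b) ∨ (u = b ∧ v = a)

theorem toggle3 (n1 : x ≠ y) (n2 : y ≠ z) (n3 : z ≠ x) (l1 : F.Loc x y z) (l2 : F.Loc y z x)
    (l3 : F.Loc z x y) : ∃ F' : Fac c, ∀ u v, F'.N u v ↔
      Xor (F.N u v) (ed x y u v ∨ ed y z u v ∨ ed z x u v) := by
  refine toggle _ (by unfold ed; grind) (by unfold ed; grind) fun a => ?_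
  by_cases e1 : a = x
  · exact Or.inr ⟨y, z, by unfold ed; grind, e1 ▸ l1⟩
  by_cases e2 : a = y
  · exact Or.inr ⟨z, x, by unfold ed; grind, e2 ▸ l2⟩
  by_cases e3 : a = z
  · exact Or.inr ⟨x, y, by unfold ed; grind, e3 ▸ l3⟩
  exact Or.inl (by unfold ed; grind)

theorem toggle4 (n1 : x ≠ y) (n2 : y ≠ z) (n3 : z ≠ w) (n4 : w ≠ x) (n5 : x ≠ z) (n6 : y ≠ w)
    (l1 : F.Loc x y w) (l2 : F.Loc y z x) (l3 : F.Loc z w y) (l4 : F.Loc w x z) :
    ∃ F' : Fac c, ∀ u v, F'.N u v ↔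
      Xor (F.N u v) (ed x y u v ∨ ed y z u v ∨ ed z w u v ∨ ed w x u v) := by
  refine toggle _ (by unfold ed; grind) (by unfold ed; grind) fun a => ?_
  by_cases e1 : a = x
  · exact Or.inr ⟨y, w, by unfold ed; grind, e1 ▸ l1⟩
  by_cases e2 : a = y
  · exact Or.inr ⟨z, x, by unfold ed; grind, e2 ▸ l2⟩
  by_cases e3 : a = z
  · exact Or.inr ⟨w, y, by unfold ed; grind, e3 ▸ l3⟩
  by_cases e4 : a = w
  · exact Or.inr ⟨x, z, by unfold ed; grind, e4 ▸ l4⟩
  exact Or.inl (by unfold ed; grind)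

end Fac

/-- Two involutions cannot differ in the number of fixed points by one. -/
theorem parity {α : Type} [Finite α] (A : Set α) (r m : α → α) {a : α} (ha : a ∈ A)
    (hr : ∀ d ∈ A, r d ∈ A ∧ r (r d) = d ∧ r d ≠ d)
    (hm : ∀ d ∈ A, d ≠ a → m d ∈ A ∧ m d ≠ a ∧ m (m d) = d ∧ m d ≠ d) : False := by
  classical
  have hf := Set.toFinite A
  have h1 : ∑ _d ∈ hf.toFinset, (1 : ZMod 2) = 0 :=
    Finset.sum_involution (fun d _ => r d) (fun _ _ => rfl)
      (fun d hd _ => (hr d (hf.mem_toFinset.1 hd)).2.2)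
      (fun d hd => hf.mem_toFinset.2 (hr d (hf.mem_toFinset.1 hd)).1)
      fun d hd => (hr d (hf.mem_toFinset.1 hd)).2.1
  have key : ∀ d ∈ hf.toFinset.erase a, m d ∈ A ∧ m d ≠ a ∧ m (m d) = d ∧ m d ≠ d := fun d hd =>
    hm d (hf.mem_toFinset.1 (Finset.mem_of_mem_erase hd)) (Finset.ne_of_mem_erase hd)
  have h2 : ∑ _d ∈ hf.toFinset.erase a, (1 : ZMod 2) = 0 :=
    Finset.sum_involution (fun d _ => m d) (fun _ _ => rfl) (fun d hd _ => (key d hd).2.2.2)
      (fun d hd => Finset.mem_erase.2 ⟨(key d hd).2.1, hf.mem_toFinset.2 (key d hd).1⟩)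
      fun d hd => (key d hd).2.2.1
  rw [← Finset.add_sum_erase _ _ (hf.mem_toFinset.2 ha), h2] at h1
  simp at h1

namespace Fac

variable {F : Fac c} {x y z w p q u v : V}

theorem exists_max [Finite V] (F0 : Fac c) : ∃ F : Fac c, F.Max := by
  obtain ⟨F, -, hF⟩ := Set.Finite.exists_maximalFor'
    (f := fun F : Fac c => {d : V × V | F.R d.1 d.2}) (s := Set.univ) (Set.toFinite _) ⟨F0, trivial⟩
  refine ⟨F, fun F' h u v huv => @hF F' trivial (fun d hd => ?_) (u, v) huv⟩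
  have : ∀ a b, F.R a b → F'.R a b := fun a b e => by
    induction e with
    | refl => exact R.refl _
    | tail _ e ih => exact ih.trans (h _ _ e)
  exact this _ _ hd

theorem not_N (h : ¬F.R u v) : ¬F.N u v := fun e => h (R.of e)

theorem ne_of_not_R (h : ¬F.R u v) : u ≠ v := fun e => h (e ▸ R.refl u)

theorem ne_of_N (h : F.N u v) : u ≠ v := fun e => F.irr v (e ▸ h)

/-- Inserting a vertex of another component. -/
theorem Max.ins (hc : ∀ u v, c u v = c v u) (hM : F.Max) (h : F.N x w) (hy : ¬F.R x y)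
    (c1 : c x y ≠ c x (F.t x w)) (c2 : c w y ≠ c w (F.t w x)) (c3 : c x y ≠ c w y) : False := by
  have hw : ¬F.R w y := fun e => hy ((R.of h).trans e)
  have a1 := not_N hy
  have a2 := not_N hw
  have a3 : ¬F.N y x := fun e => a1 (F.symm e)
  have a4 : ¬F.N y w := fun e => a2 (F.symm e)
  have n1 := ne_of_N h
  have n2 := ne_of_not_R hw
  have n3 := (ne_of_not_R hy).symm
  obtain ⟨F', e⟩ := toggle3 n1 n2 n3 (Or.inr (Or.inl ⟨h, a1, c1⟩))
    (Or.inr (Or.inr ⟨F.symm h, a2, c2⟩)) (Or.inl ⟨a3, a4, by rwa [hc y x, hc y w]⟩)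
  have b1 : F'.N x y := by rw [e]; unfold ed Xor; grind
  have b2 : F'.N y w := by rw [e]; unfold ed Xor; grind
  have b3 := (R.of b1).trans (R.of b2)
  refine hy (hM F' (fun u v huv => ?_) _ _ (R.of b1))
  by_cases k : ed x w u v
  · rcases k with ⟨rfl, rfl⟩ | ⟨rfl, rfl⟩
    exacts [b3, b3.symm]
  · exact R.of (by rw [e]; unfold ed Xor at *; grind)

/-- Adding a triangle of unused edges. -/
theorem Max.tri (hc : ∀ u v, c u v = c v u) (hM : F.Max) (hy : ¬F.R x y) (h2 : ¬F.N y z)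
    (h3 : ¬F.N z x) (n2 : y ≠ z) (n3 : z ≠ x) (c1 : c x y ≠ c y z) (c2 : c y z ≠ c z x)
    (c3 : c z x ≠ c x y) : False := by
  have a1 := not_N hy
  have a3 : ¬F.N y x := fun e => a1 (F.symm e)
  have a4 : ¬F.N z y := fun e => h2 (F.symm e)
  have a5 : ¬F.N x z := fun e => h3 (F.symm e)
  have n1 := ne_of_not_R hy
  obtain ⟨F', e⟩ := toggle3 n1 n2 n3 (Or.inl ⟨a1, a5, by rw [hc x z]; exact c3.symm⟩)
    (Or.inl ⟨h2, a3, by rw [hc y x]; exact c1.symm⟩)
    (Or.inl ⟨h3, a4, by rw [hc z y]; exact c2.symm⟩)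
  have b1 : F'.N x y := by rw [e]; unfold ed Xor; grind
  exact hy (hM F' (fun u v huv => R.of (by rw [e]; unfold ed Xor at *; grind)) _ _ (R.of b1))

/-- Adding a four-cycle of edges between components. -/
theorem Max.quad (hc : ∀ u v, c u v = c v u) (hM : F.Max) (h1 : ¬F.R x y) (h2 : ¬F.R y z)
    (h3 : ¬F.R z w) (h4 : ¬F.R w x) (n5 : x ≠ z) (n6 : y ≠ w) (c1 : c x y ≠ c y z)
    (c2 : c y z ≠ c z w) (c3 : c z w ≠ c w x) (c4 : c w x ≠ c x y) : False := by
  have a1 := not_N h1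
  have a2 := not_N h2
  have a3 := not_N h3
  have a4 := not_N h4
  have b1 : ¬F.N y x := fun e => a1 (F.symm e)
  have b2 : ¬F.N z y := fun e => a2 (F.symm e)
  have b3 : ¬F.N w z := fun e => a3 (F.symm e)
  have b4 : ¬F.N x w := fun e => a4 (F.symm e)
  obtain ⟨F', e⟩ := toggle4 (ne_of_not_R h1) (ne_of_not_R h2) (ne_of_not_R h3) (ne_of_not_R h4)
    n5 n6 (Or.inl ⟨a1, b4, by rw [hc x w]; exact c4.symm⟩)
    (Or.inl ⟨a2, b1, by rw [hc y x]; exact c1.symm⟩)
    (Or.inl ⟨a3, b2, by rw [hc z y]; exact c2.symm⟩)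
    (Or.inl ⟨a4, b3, by rw [hc w z]; exact c3.symm⟩)
  have d1 : F'.N x y := by rw [e]; unfold ed Xor; grind
  exact h1 (hM F' (fun u v huv => R.of (by rw [e]; unfold ed Xor at *; grind)) _ _ (R.of d1))

/-- Replacing the edge `yz` by the path `y u v z`. -/
theorem Max.detour (hM : F.Max) (h : F.N y z) (h1 : ¬F.R y u)
    (h2 : ¬F.R y v) (h3 : ¬F.N u v) (n : u ≠ v) (c1 : c y u ≠ c y (F.t y z))
    (c2 : c u y ≠ c u v) (c3 : c v u ≠ c v z) (c4 : c z v ≠ c z (F.t z y)) : False := by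
  have h4 : ¬F.R z v := fun e => h2 ((R.of h).trans e)
  have h5 : ¬F.R z u := fun e => h1 ((R.of h).trans e)
  have a1 := not_N h1
  have a4 := not_N h4
  have b1 : ¬F.N u y := fun e => a1 (F.symm e)
  have b2 : ¬F.N v u := fun e => h3 (F.symm e)
  have b3 : ¬F.N v z := fun e => a4 (F.symm e)
  have n1 := ne_of_not_R h1
  have n2 := ne_of_not_R h2
  have n3 := ne_of_not_R h4
  have n4 := ne_of_not_R h5
  have n5 := ne_of_N h
  obtain ⟨F', e⟩ := toggle4 n1 n n3.symm n5.symm n2 n4.symm (Or.inr (Or.inr ⟨h, a1, c1⟩))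
    (Or.inl ⟨h3, b1, c2.symm⟩) (Or.inl ⟨b3, b2, c3.symm⟩) (Or.inr (Or.inl ⟨F.symm h, a4, c4⟩))
  have d1 : F'.N y u := by rw [e]; unfold ed Xor; grind
  have d2 : F'.N u v := by rw [e]; unfold ed Xor; grind
  have d3 : F'.N v z := by rw [e]; unfold ed Xor; grind
  have d4 := ((R.of d1).trans (R.of d2)).trans (R.of d3)
  refine h1 (hM F' (fun a b hab => ?_) _ _ (R.of d1))
  by_cases k : ed z y a b
  · rcases k with ⟨rfl, rfl⟩ | ⟨rfl, rfl⟩
    exacts [d4.symm, d4]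
  · exact R.of (by rw [e]; unfold ed Xor at *; grind)

/-- Exchanging an edge of one component with an edge of another. -/
theorem Max.opt [Finite V] (hM : F.Max) (h : F.N x w) (h' : F.N y z) (hy : ¬F.R x y)
    (c1 : c x z ≠ c x (F.t x w)) (c2 : c z x ≠ c z (F.t z y)) (c3 : c y w ≠ c y (F.t y z))
    (c4 : c w y ≠ c w (F.t w x)) : False := by
  have h1 : ¬F.R x z := fun e => hy (e.trans (R.of h').symm)
  have h2 : ¬F.R w y := fun e => hy ((R.of h).trans e)
  have h3 : ¬F.R w z := fun e => h1 ((R.of h).trans e)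
  have a1 := not_N h1
  have a2 := not_N h2
  have b1 : ¬F.N z x := fun e => a1 (F.symm e)
  have b2 : ¬F.N y w := fun e => a2 (F.symm e)
  have n1 := ne_of_not_R h1
  have n2 := ne_of_not_R h2
  have n3 := ne_of_not_R h3
  have n4 := ne_of_not_R hy
  have n5 := ne_of_N h
  have n6 := ne_of_N h'
  obtain ⟨F', e⟩ := toggle4 n1 n6.symm n2.symm n5.symm n4 n3.symm (Or.inr (Or.inr ⟨h, a1, c1⟩))
    (Or.inr (Or.inl ⟨F.symm h', b1, c2⟩)) (Or.inr (Or.inr ⟨h', b2, c3⟩))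
    (Or.inr (Or.inl ⟨F.symm h, a2, c4⟩))
  have d1 : F'.N x z := by rw [e]; unfold ed Xor; grind
  have d2 : F'.N y w := by rw [e]; unfold ed Xor; grind
  have d3 : F'.R w x := by
    by_contra k
    refine parity {d : V × V | F.N d.1 d.2 ∧ F'.R w d.1 ∧ F.R x d.1}
      (fun d => (d.1, F.t d.1 d.2)) Prod.swap (a := (w, x)) ⟨F.symm h, R.refl _, R.of h⟩
      (fun d hd => ⟨⟨F.mem hd.1, hd.2⟩, Prod.ext rfl (F.inv hd.1),
        fun k => t_ne hd.1 (congrArg Prod.snd k)⟩) ?_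
    rintro ⟨a, b⟩ ⟨k1, k2, k3⟩ k4
    have k5 : a ≠ x := fun k' => k (k' ▸ k2)
    have k6 : a ≠ y := fun k' => hy (k' ▸ k3)
    have k7 : a ≠ z := fun k' => h1 (k' ▸ k3)
    have k8 : F'.N a b := by rw [e]; unfold ed Xor; grind
    exact ⟨⟨F.symm k1, k2.trans (R.of k8), k3.trans (R.of k1)⟩,
      fun k' => k5 (congrArg Prod.snd k'), rfl, fun k' => ne_of_N k1 (congrArg Prod.snd k')⟩
  have d4 : F'.R y z := ((R.of d2).trans d3).trans (R.of d1)
  refine h1 (hM F' (fun a b hab => ?_) _ _ (R.of d1))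
  by_cases k : ed w x a b
  · rcases k with ⟨rfl, rfl⟩ | ⟨rfl, rfl⟩
    exacts [d3, d3.symm]
  by_cases k' : ed z y a b
  · rcases k' with ⟨rfl, rfl⟩ | ⟨rfl, rfl⟩
    exacts [d4.symm, d4]
  · exact R.of (by rw [e]; unfold ed Xor at *; grind)

/-- There is no properly coloured cycle of edges between components. -/
theorem Max.cyc [Finite V] (hc : ∀ u v, c u v = c v u) (hM : F.Max) (Y : Set V) (g : V → V)
    (hY : Y.Nonempty)
    (hg : ∀ z ∈ Y, g z ∈ Y ∧ ¬F.R z (g z) ∧ g (g z) ≠ z ∧ c z (g z) ≠ c (g z) (g (g z))) :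
    False := by
  have it : ∀ k, ∀ z ∈ Y, g^[k] z ∈ Y := fun k => by
    induction k with
    | zero => exact fun z hz => hz
    | succ k ih => exact fun z hz => ih _ (hg z hz).1
  let Z := Y ∩ Function.periodicPts g
  have z1 : ∀ z ∈ Z, g z ∈ Z := fun z hz => ⟨(hg z hz.1).1, (Function.bijOn_periodicPts g).1 hz.2⟩
  have z2 : ∀ z ∈ Z, ∃ a ∈ Z, g a = z ∧ ∀ b ∈ Z, g b = z → b = a := fun z hz => by
    obtain ⟨a, ha, e⟩ := (Function.bijOn_periodicPts g).2.2 hz.2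
    refine ⟨a, ⟨?_, ha⟩, e, fun b hb e' => (Function.bijOn_periodicPts g).2.1 hb.2 ha (e'.trans e.symm)⟩
    obtain ⟨_ | k, hk, hp⟩ := ha
    · simp at hk
    · have : g^[k] z = a := by rw [← e]; exact hp
      exact this ▸ it k z hz.1
  obtain ⟨z0, hz0⟩ : Z.Nonempty := by
    obtain ⟨y, hy⟩ := hY
    obtain ⟨a, b, hab, e⟩ := Finite.exists_ne_map_eq_of_infinite fun k : ℕ => g^[k] y
    wlog hlt : a < b generalizing a b
    · exact this b a hab.symm e.symm (by omega)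
    refine ⟨g^[a] y, it a y hy, b - a, by omega, ?_⟩
    show g^[b - a] (g^[a] y) = g^[a] y
    rw [← Function.iterate_add_apply, Nat.sub_add_cancel hlt.le]
    exact e.symm
  obtain ⟨F', e⟩ := toggle (F := F) (fun u v => (u ∈ Z ∧ v = g u) ∨ (v ∈ Z ∧ u = g v))
    (fun u v h => h.symm)
    (fun v h => by
      rcases h with h | h <;> exact ne_of_not_R (hg v h.1.1).2.1 h.2) fun y => by
    by_cases hy : y ∈ Z
    · obtain ⟨a, ha, e1, e2⟩ := z2 y hy
      refine Or.inr ⟨g y, a, fun u => ⟨?_, ?_⟩, Or.inl ⟨not_N (hg y hy.1).2.1, fun k => ?_, ?_⟩⟩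
      · rintro (k | k)
        exacts [Or.inl k.2, Or.inr (e2 u k.1 k.2.symm)]
      · rintro (rfl | rfl)
        exacts [Or.inl ⟨hy, rfl⟩, Or.inr ⟨ha, e1.symm⟩]
      · exact (hg a ha.1).2.1 (e1 ▸ R.of (F.symm k))
      · have := (hg a ha.1).2.2.2
        rw [e1, hc] at this
        exact this.symm
    · refine Or.inl fun u k => hy ?_
      rcases k with k | k
      exacts [k.1, k.2 ▸ z1 u k.1]
  have d1 : F'.N z0 (g z0) := (e _ _).2 (Or.inr ⟨Or.inl ⟨hz0, rfl⟩, not_N (hg z0 hz0.1).2.1⟩)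
  refine (hg z0 hz0.1).2.1 (hM F' (fun u v huv => R.of ((e _ _).2 (Or.inl ⟨huv, ?_⟩))) _ _
    (R.of d1))
  rintro (⟨k, rfl⟩ | ⟨k, rfl⟩)
  exacts [not_N (hg u k.1).2.1 huv, not_N (hg v k.1).2.1 (F.symm huv)]

end Fac

end Pool.Agent.Lib.MP_dd4ef3_lc.H61
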