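import Pool.Agent.Lib.MP_dd4ef3_lc.H61Sing

/-!
Splicing a connected factor into one closed trail, and the characterisation.
-/

namespace Pool.Agent.Lib.MP_dd4ef3_lc.H61

open Relation

variable {V K : Type} {c : V → V → K}

namespace Fac

/-- One step along a trail of the factor. -/
def Q (F : Fac c) (d e : V × V) : Prop :=
  F.N d.1 d.2 ∧ (e = d.swap ∨ e = (d.1, F.t d.1 d.2))

variable {F : Fac c}

theorem Q.symm {d e : V × V} (h : F.Q d e) : F.Q e d := by
  obtain ⟨h, rfl | rfl⟩ := h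
  exacts [⟨F.symm h, Or.inl rfl⟩, ⟨F.mem h, Or.inr (Prod.ext rfl (F.inv h).symm)⟩]

theorem Q.symm' {d e : V × V} (h : ReflTransGen F.Q d e) : ReflTransGen F.Q e d := by
  induction h with
  | refl => exact .refl
  | tail _ e ih => exact .head e.symm ih

theorem grow [Finite V] (d0 : V × V) {v a b : V} (ha : F.N v a) (hb : F.N v b)
    (h1 : ReflTransGen F.Q d0 (v, a)) (h2 : ¬ReflTransGen F.Q d0 (v, b)) (c1 : c v a ≠ c v b)
    (c2 : c v (F.t v a) ≠ c v (F.t v b)) : ∃ F' : Fac c, F'.N = F.N ∧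
      (∀ e, ReflTransGen F.Q d0 e → ReflTransGen F'.Q d0 e) ∧ ReflTransGen F'.Q d0 (v, b) := by
  classical
  have h1' : ReflTransGen F.Q d0 (v, F.t v a) := h1.tail ⟨ha, Or.inr rfl⟩
  have h2' : ¬ReflTransGen F.Q d0 (v, F.t v b) := fun e =>
    h2 (e.tail (Q.symm (d := (v, b)) ⟨hb, Or.inr rfl⟩))
  have n1 : a ≠ b := fun e => h2 (e ▸ h1)
  have n2 : a ≠ F.t v b := fun e => h2' (e ▸ h1)
  have n3 : F.t v a ≠ b := fun e => h2 (e ▸ h1')
  have n4 : F.t v a ≠ F.t v b := fun e => h2' (e ▸ h1')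
  have n5 := t_ne ha
  have n6 := t_ne hb
  have i1 := F.inv ha
  have i2 := F.inv hb
  have m1 := F.mem ha
  have m2 := F.mem hb
  let t : V → V → V := fun x u => if x = v then if u = a then b else if u = b then a else
    if u = F.t v a then F.t v b else if u = F.t v b then F.t v a else F.t x u else F.t x u
  have key : ∀ x u, F.N x u → F.N x (t x u) ∧ t x (t x u) = u ∧ c x u ≠ c x (t x u) := by
    intro x u h
    have b1 := F.mem h
    have b2 := F.inv h
    have b3 := F.ne h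
    simp only [t]
    grind
  let F' : Fac c := ⟨F.N, t, F.symm, F.irr, F.ex, fun h => (key _ _ h).1,
    fun h => (key _ _ h).2.1, fun h => (key _ _ h).2.2⟩
  have q1 : F'.Q (v, a) (v, b) := ⟨ha, Or.inr (by simp [F', t])⟩
  have q2 : F'.Q (v, F.t v b) (v, F.t v a) := ⟨m2, Or.inr (by simp [F', t, n2.symm, n6, n4.symm])⟩
  have same : ∀ x u, F.N x u → (x, u) ≠ (v, a) → (x, u) ≠ (v, b) → (x, u) ≠ (v, F.t v a) →
      (x, u) ≠ (v, F.t v b) → F'.Q (x, u) (x, F.t x u) := fun x u h e1 e2 e3 e4 =>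
    ⟨h, Or.inr (by simp only [F', t]; grind)⟩
  have q3 : ReflTransGen F'.Q (v, b) (v, F.t v b) := by
    by_contra k
    refine parity {d : V × V | F.N d.1 d.2 ∧ ReflTransGen F'.Q (v, b) d ∧ ¬ReflTransGen F.Q d0 d}
      Prod.swap (fun d => (d.1, F.t d.1 d.2)) (a := (v, b)) ⟨hb, .refl, h2⟩ ?_ ?_
    · rintro ⟨x, u⟩ ⟨k1, k2, k3⟩
      exact ⟨⟨F.symm k1, k2.tail ⟨k1, Or.inl rfl⟩, fun e => k3 (e.tail ⟨F.symm k1, Or.inl rfl⟩)⟩,
        rfl, fun e => ne_of_N k1 (congrArg Prod.snd e)⟩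
    · rintro ⟨x, u⟩ ⟨k1, k2, k3⟩ k4
      have k5 : (x, u) ≠ (v, F.t v b) := fun e => k (e ▸ k2)
      refine ⟨⟨F.mem k1, k2.tail (same x u k1 (fun e => k3 (e ▸ h1)) k4 (fun e => k3 (e ▸ h1')) k5),
        fun e => k3 (e.tail (Q.symm (d := (x, u)) ⟨k1, Or.inr rfl⟩))⟩, fun e => k5 ?_,
        Prod.ext rfl (F.inv k1), fun e => t_ne k1 (congrArg Prod.snd e)⟩
      obtain ⟨rfl, rfl⟩ := Prod.mk.inj e
      exact Prod.ext rfl (F.inv k1).symm
  have q4 : ReflTransGen F'.Q (v, a) (v, F.t v a) := (ReflTransGen.head q1 q3).tail q2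
  have all : ∀ e, ReflTransGen F.Q d0 e → ReflTransGen F'.Q d0 e := fun e h => by
    induction h with
    | refl => exact .refl
    | @tail d e h k ih =>
      obtain ⟨x, u⟩ := d
      obtain ⟨k, rfl | rfl⟩ := k
      · exact ih.tail ⟨k, Or.inl rfl⟩
      by_cases e1 : (x, u) = (v, a)
      · obtain ⟨rfl, rfl⟩ := Prod.mk.inj e1
        exact ih.trans q4
      by_cases e2 : (x, u) = (v, F.t v a)
      · obtain ⟨rfl, rfl⟩ := Prod.mk.inj e2
        have := ih.trans (Q.symm' q4)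
        rwa [← i1] at this
      · exact ih.tail (same x u k e1 (fun e => h2 (e ▸ h)) e2 fun e => h2' (e ▸ h))
  exact ⟨F', rfl, all, (all _ h1).tail q1⟩

theorem splice [Finite V] (F0 : Fac c) (h0 : ∀ u v, F0.R u v) (d0 : V × V)
    (hd : F0.N d0.1 d0.2) : ∃ F : Fac c, F.N = F0.N ∧
      ∀ u v, F.N u v → ReflTransGen F.Q d0 (u, v) := by
  obtain ⟨F, hN, hF⟩ := Set.Finite.exists_maximalFor'
    (f := fun F : Fac c => {d : V × V | ReflTransGen F.Q d0 d}) (s := {F | F.N = F0.N})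
    (Set.toFinite _) ⟨F0, rfl⟩
  have hN : F.N = F0.N := hN
  have h1 : ∀ v a b, F.N v a → F.N v b → ReflTransGen F.Q d0 (v, a) →
      ReflTransGen F.Q d0 (v, b) := fun v a b ha hb h1 => by
    by_contra h2
    have key : ∀ b, F.N v b → ¬ReflTransGen F.Q d0 (v, b) → c v a ≠ c v b →
        c v (F.t v a) ≠ c v (F.t v b) → False := fun b hb h2 c1 c2 => by
      obtain ⟨F', e1, e2, e3⟩ := grow d0 ha hb h1 h2 c1 c2
      exact h2 (@hF F' (e1.trans hN) e2 (v, b) e3)
    have a1 := F.ne ha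
    have a2 := F.ne hb
    by_cases k : c v a ≠ c v b ∧ c v (F.t v a) ≠ c v (F.t v b)
    · exact key b hb h2 k.1 k.2
    · refine key _ (F.mem hb) (fun e => h2 (e.tail (Q.symm (d := (v, b)) ⟨hb, Or.inr rfl⟩)))
        (by grind) ?_
      rw [F.inv hb]
      grind
  refine ⟨F, hN, fun u => ?_⟩
  have := h0 d0.1 u
  unfold R at this
  rw [← hN] at this hd
  induction this with
  | refl => exact fun v hv => h1 _ _ _ hd hv .refl
  | tail _ e ih => exact fun v hv => h1 _ _ _ (F.symm e) hv ((ih _ e).tail ⟨e, Or.inl rfl⟩)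

end Fac

theorem circuit_of_fac [Finite V] [Nonempty V] {col : Sym2 V → K}
    (F0 : Fac fun u v => col s(u, v)) (h0 : ∀ u v, F0.R u v) : HasPCSpanningCircuit col := by
  obtain ⟨x⟩ := ‹Nonempty V›
  obtain ⟨y, hd⟩ := F0.ex x
  obtain ⟨F, hN, hF⟩ := F0.splice h0 (x, y) hd
  rw [← hN] at hd
  let s : V × V → V × V := fun d => (d.2, F.t d.2 d.1)
  have s1 : ∀ d : V × V, F.N d.1 d.2 → F.N (s d).1 (s d).2 := fun d h => F.mem (F.symm h)
  have s2 : ∀ k, ∀ d : V × V, F.N d.1 d.2 → F.N (s^[k] d).1 (s^[k] d).2 := fun k => by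
    induction k with
    | zero => exact fun d h => h
    | succ k ih => exact fun d h => ih _ (s1 d h)
  have s3 : ∀ d e : V × V, F.N d.1 d.2 → F.N e.1 e.2 → s d = s e → d = e := by
    rintro ⟨a, b⟩ ⟨a', b'⟩ k k' e
    obtain ⟨rfl, e⟩ := Prod.mk.inj e
    exact Prod.ext ((F.inv (F.symm k)).symm.trans
      ((congrArg (F.t b) e).trans (F.inv (F.symm k')))) rfl
  have s4 : ∀ d : V × V, F.N d.1 d.2 → s (s d).swap = d.swap := fun d h =>
    Prod.ext rfl (F.inv (F.symm h))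
  have s5 : ∀ k, ∀ d : V × V, F.N d.1 d.2 → s^[k] d ≠ d.swap := fun k => by
    induction k using Nat.twoStepInduction with
    | zero => exact fun d h e => Fac.ne_of_N h (congrArg Prod.fst e)
    | one => exact fun d h e => Fac.t_ne (F.symm h) (congrArg Prod.snd e)
    | more k ih _ =>
      intro d h e
      rw [Function.iterate_succ_apply, Function.iterate_succ_apply', ← s4 d h] at e
      exact ih _ (s1 d h) (s3 _ _ (s2 k _ (s1 d h)) (F.symm (s1 d h)) e)
  have per : (x, y) ∈ Function.periodicPts s := by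
    obtain ⟨a, b, hab, e⟩ := Finite.exists_ne_map_eq_of_infinite fun k : ℕ => s^[k] (x, y)
    wlog hlt : a < b generalizing a b
    · exact this b a hab.symm e.symm (by omega)
    obtain ⟨k, rfl⟩ := Nat.exists_eq_add_of_lt hlt
    refine ⟨k + 1, by omega, ?_⟩
    clear hab hlt
    induction a with
    | zero => rw [zero_add] at e; exact e.symm
    | succ a ih =>
      rw [show a + 1 + k + 1 = a + k + 1 + 1 by omega, Function.iterate_succ_apply',
        Function.iterate_succ_apply' s (a + k + 1)] at e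
      exact ih (s3 _ _ (s2 _ _ hd) (s2 _ _ hd) e)
  obtain ⟨m, hm⟩ : ∃ m, Function.minimalPeriod s (x, y) = m + 1 :=
    ⟨_, (Nat.succ_pred_eq_of_pos (Function.minimalPeriod_pos_of_mem_periodicPts per)).symm⟩
  let D : ZMod (m + 1) → V × V := fun i => s^[i.val] (x, y)
  have d0 : ∀ k : ℕ, D k = s^[k] (x, y) := fun k => by
    simp only [D, ZMod.val_natCast]
    rw [← hm, Function.iterate_mod_minimalPeriod_eq]
  have d1 : ∀ (i : ZMod (m + 1)) (k : ℕ), D (i + k) = s^[k] (D i) := fun i k => by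
    rw [← ZMod.natCast_zmod_val i, ← Nat.cast_add, d0, d0, add_comm, Function.iterate_add_apply]
  have d2 : ∀ i, D (i + 1) = s (D i) := fun i => by simpa using d1 i 1
  have d3 : ∀ i, F.N (D i).1 (D i).2 := fun i => s2 _ _ hd
  have d4 : Function.Injective D := fun i j e => ZMod.val_injective _
    (Function.iterate_injOn_Iio_minimalPeriod (f := s) (x := (x, y)) (by rw [hm]; exact i.val_lt)
      (by rw [hm]; exact j.val_lt) e)
  have d5 : ∀ i, (D (i + 1)).1 = (D i).2 := fun i => by rw [d2]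
  have d6 : ∀ e, ReflTransGen F.Q (x, y) e → ∃ i, e = D i ∨ e = (D i).swap := fun e h => by
    induction h with
    | refl => exact ⟨0, Or.inl (by simp [D])⟩
    | tail _ k ih =>
      obtain ⟨i, rfl | rfl⟩ := ih
      · rcases k.2 with rfl | rfl
        · exact ⟨i, Or.inr rfl⟩
        · refine ⟨i - 1, Or.inr ?_⟩
          rw [← s4 _ (d3 _), ← d2, sub_add_cancel]
          rfl
      · rcases k.2 with rfl | rfl
        exacts [⟨i, Or.inl rfl⟩, ⟨i + 1, Or.inl (d2 i).symm⟩]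
  refine ⟨m, fun i => (D i).1, fun v => ?_, fun i => ?_, fun i j e => ?_, fun i => ?_⟩
  · obtain ⟨u, hu⟩ := F.ex v
    obtain ⟨i, e | e⟩ := d6 _ (hF v u hu)
    exacts [⟨i, (congrArg Prod.fst e).symm⟩, ⟨i + 1, (d5 i).trans (congrArg Prod.fst e).symm⟩]
  · simpa only [d5] using Fac.ne_of_N (d3 i)
  · simp only [d5] at e
    rcases Sym2.eq_iff.1 e with e | e
    · exact d4 (Prod.ext e.1 e.2)
    · refine absurd (Prod.ext e.1 e.2 : D i = (D j).swap) ?_
      have := s5 (i - j).val _ (d3 j)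
      rwa [← d1, ZMod.natCast_zmod_val, add_sub_cancel] at this
  · have : i + 2 = i + 1 + 1 := by ring
    simp only [this, d5]
    rw [d2, Sym2.eq_swap]
    exact F.ne (F.symm (d3 i))

theorem pair_of_rel {v : V} {S : V → Prop} (P : V → V → Prop) (h1 : ∀ u w, P u w → P w u)
    (h2 : ∀ u w w', P u w → P u w' → w = w') (h3 : ∀ u, S u → ∃ w, P u w)
    (h4 : ∀ u w, P u w → S w ∧ c v u ≠ c v w) : Pair c v S := by
  have : ∀ u, ∃ w, S u → P u w := fun u => by
    by_cases h : S u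
    exacts [(h3 u h).imp fun _ k _ => k, ⟨u, fun k => absurd k h⟩]
  choose t ht using this
  exact ⟨t, fun u h => ⟨(h4 _ _ (ht u h)).1,
    h2 _ _ _ (ht _ (h4 _ _ (ht u h)).1) (h1 _ _ (ht u h)), (h4 _ _ (ht u h)).2⟩⟩

theorem fac_of_circuit {col : Sym2 V → K} (h : HasPCSpanningCircuit col) :
    Nonempty (Fac fun u v => col s(u, v)) := by
  obtain ⟨m, p, h1, h2, h3, h4⟩ := h
  have e2 : ∀ i : ZMod (m + 1), i + 1 + 1 = i + 2 := fun i => by ring
  refine (exists_fac (c := fun u v => col s(u, v))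
    (fun u v => ∃ i, s(p i, p (i + 1)) = s(u, v)) (fun u v h => by rwa [Sym2.eq_swap (a := v)])
    (fun v ⟨i, e⟩ => h2 i (by rcases Sym2.eq_iff.1 e with e | e <;> rw [e.1, e.2]))
    (fun v => (h1 v).elim fun i e => ⟨_, i, by rw [e]⟩) fun v => pair_of_rel
    (fun u w => ∃ i, p (i + 1) = v ∧ (p i = u ∧ p (i + 2) = w ∨ p i = w ∧ p (i + 2) = u))
    (fun u w ⟨i, a, b⟩ => ⟨i, a, b.symm⟩) ?_ ?_ ?_).nonempty
  · rintro u w w' ⟨i, a, ⟨b, rfl⟩ | ⟨rfl, b⟩⟩ ⟨j, a', ⟨b', rfl⟩ | ⟨rfl, b'⟩⟩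
    · rw [h3 (a₁ := i) (a₂ := j) (by simp only [a, a', b, b'])]
    · obtain rfl : i = j + 1 := h3 (by simp only [a, a', b, b', e2, Sym2.eq_swap])
      exact absurd (a'.trans a.symm) (h2 _)
    · obtain rfl : j = i + 1 := h3 (by simp only [a, a', b, b', e2, Sym2.eq_swap])
      exact absurd (a.trans a'.symm) (h2 _)
    · rw [add_right_cancel (h3 (a₁ := i + 1) (a₂ := j + 1) (by simp only [a, a', b, b', e2]))]
  · rintro u ⟨i, e⟩
    rcases Sym2.eq_iff.1 e with e | e
    · refine ⟨_, i - 1, by rw [sub_add_cancel, e.1], Or.inr ⟨rfl, ?_⟩⟩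
      rw [← e2, sub_add_cancel, e.2]
    · exact ⟨_, i, e.2, Or.inl ⟨e.1, rfl⟩⟩
  · rintro u w ⟨i, rfl, ⟨rfl, rfl⟩ | ⟨rfl, rfl⟩⟩
    · exact ⟨⟨i + 1, by rw [e2]⟩, by simpa only [Sym2.eq_swap (b := p i)] using h4 i⟩
    · exact ⟨⟨i, Sym2.eq_swap⟩, by simpa only [Sym2.eq_swap (b := p i)] using (h4 i).symm⟩

theorem not_deg {col : Sym2 V → K} (h : HasPCSpanningCircuit col) (S : Set V) (f : V → K)
    (hS : S.Nonempty) (hD : Deg (fun u v => col s(u, v)) S f) : S = Set.univ := by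
  obtain ⟨m, p, h1, h2, -, h4⟩ := h
  refine Set.eq_univ_of_forall fun v => ?_
  obtain ⟨j, rfl⟩ := h1 v
  by_cases e : ∃ i, p i ∈ S ∧ col s(p i, p (i + 1)) = f (p i)
  · obtain ⟨i, e⟩ := e
    have : ∀ (k : ℕ) (j : ZMod (m + 1)), j + k = i → p j ∈ S ∧ col s(p j, p (j + 1)) = f (p j) := by
      intro k
      induction k with
      | zero => intro j e'; rwa [← e', Nat.cast_zero, add_zero] at e
      | succ k ih =>
        intro j e'
        obtain ⟨a, b⟩ := ih (j + 1) (by rw [← e']; push_cast; ring)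
        have := (hD _ a _ (h2 j)).resolve_left fun k => h4 j (by
          rw [Sym2.eq_swap, ← one_add_one_eq_two, ← add_assoc, b]; exact k)
        rw [Sym2.eq_swap]
        exact this
    exact (this (i - j).val j (by rw [ZMod.natCast_zmod_val, add_sub_cancel])).1
  · obtain ⟨u, hu⟩ := hS
    obtain ⟨i, rfl⟩ := h1 u
    have : ∀ k : ℕ, p (i + k) ∈ S := fun k => by
      induction k with
      | zero => simpa using hu
      | succ k ih =>
        rw [Nat.cast_succ, ← add_assoc]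
        exact ((hD _ ih _ (h2 _).symm).resolve_left fun k => e ⟨_, ih, k⟩).1
    simpa using this (j - i).val

/-- A properly coloured spanning closed trail exists iff there is a factor and no proper
degenerate set. -/
theorem circuit_iff [Finite V] [Nonempty V] (col : Sym2 V → K) : HasPCSpanningCircuit col ↔
    Nonempty (Fac fun u v => col s(u, v)) ∧
      ∀ S f, S.Nonempty → Deg (fun u v => col s(u, v)) S f → S = Set.univ := by
  refine ⟨fun h => ⟨fac_of_circuit h, not_deg h⟩, fun ⟨⟨F0⟩, h⟩ => ?_⟩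
  obtain ⟨F, hF⟩ := Fac.connected (fun u v => by rw [Sym2.eq_swap]) F0 h
  exact circuit_of_fac F hF

end Pool.Agent.Lib.MP_dd4ef3_lc.H61
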