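import Pool.Agent.Lib.MP_dd4ef3_lc.H90Gadget
import Pool.Agent.Lib.MP_dd4ef3_lc.H61Kot

/-!
The polynomial time test for properly coloured spanning closed trails.
-/

namespace Pool.Agent.Lib.MP_dd4ef3_lc.H61

open Pool.Agent.Shared.Matching Relation
open N68a2faeb Pool.Agent.Shared.PolyTime N487b59b3

/-- Nodes of the gadget: ports (tag 2), inner (tag 0) and outer (tag 1) colour nodes, and
darts (tag 3). -/
def vert (A : List (List ℕ)) : List (ℕ × ℕ × ℕ) :=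
  (List.range A.length).flatMap fun x =>
    [(x, 0, 2), (x, 1, 2)] ++ (A.flatten.flatMap fun c => [(x, c, 0), (x, c, 1)]) ++
      ((List.range A.length).filter fun u => u ≠ x).map fun u => (x, u, 3)

/-- Adjacency in the gadget. -/
def Adj (A : List (List ℕ)) (p q : ℕ × ℕ × ℕ) : Prop :=
  p.1 = q.1 ∧ (p.2.2 = 2 ∧ q.2.2 = 0 ∨ p.2.2 = 0 ∧ q.2.2 = 2 ∨
      p.2.1 = q.2.1 ∧ (p.2.2 = 0 ∧ q.2.2 = 1 ∨ p.2.2 = 1 ∧ q.2.2 = 0) ∨
      p.2.2 = 1 ∧ q.2.2 = 3 ∧ p.2.1 = ent A q.1 q.2.1 ∨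
      p.2.2 = 3 ∧ q.2.2 = 1 ∧ q.2.1 = ent A p.1 p.2.1 ∨
      p.2.2 = 3 ∧ q.2.2 = 3 ∧ ent A p.1 p.2.1 ≠ ent A q.1 q.2.1) ∨
    p.2.2 = 3 ∧ q.2.2 = 3 ∧ p.1 = q.2.1 ∧ q.1 = p.2.1 ∧ p.1 ≠ q.1

open Classical in
/-- The test for a factor. -/
noncomputable def hasFac (A : List (List ℕ)) : Bool :=
  test (vert A) (((vert A).product (vert A)).filter fun e => Adj A e.1 e.2)

open Classical in
/-- The decision procedure. -/
noncomputable def dec (A : List (List ℕ)) : Bool :=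
  decide (A.length ≠ 0) && hasFac A &&
  (List.range A.length).all fun u => (List.range A.length).all fun y =>
    decide (u = y) || (List.range A.length).any fun v =>
      decide (ReflTransGen (fun a b => b ∈ List.range A.length ∧
        (a ≠ b ∧ ent A a b ≠ ent A a y)) u v) &&
      decide (∃ w ∈ List.range A.length, w ≠ v ∧ ent A v w ≠ ent A v y ∧ ent A v w ≠ ent A w y)

section time

variable {α : Type} [N487b59b3 α] {A : α → List (List ℕ)}

@[fun_prop] theorem vert_pt (hA : IsPolyTime A) : IsPolyTime fun x => vert (A x) := by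
  unfold vert; fun_prop

@[fun_prop] theorem hasFac_pt (hA : IsPolyTime A) : IsPolyTime fun x => hasFac (A x) := by
  unfold hasFac Adj; fun_prop

theorem dec_pt : IsPolyTime dec := by
  classical
  have := IsPolyTime.decide_reflTransGen (α := ((List (List ℕ) × ℕ) × ℕ) × ℕ)
    (V := fun y => List.range y.1.1.1.length)
    (R := fun y a b => a ≠ b ∧ ent y.1.1.1 a b ≠ ent y.1.1.1 a y.1.2)
    (u := fun y => y.1.1.2) (v := fun y => y.2) (inst := fun _ => inferInstance)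
    (by fun_prop) (by fun_prop) (by fun_prop) (by fun_prop)
  unfold dec
  fun_prop

end time

variable {A : List (List ℕ)}

theorem mem_vert {p : ℕ × ℕ × ℕ} : p ∈ vert A ↔ p.1 < A.length ∧
    (p.2.2 = 2 ∧ p.2.1 < 2 ∨ p.2.2 < 2 ∧ p.2.1 ∈ A.flatten ∨
      p.2.2 = 3 ∧ p.2.1 < A.length ∧ p.2.1 ≠ p.1) := by
  obtain ⟨x, c, t⟩ := p
  simp only [vert, List.mem_flatMap, List.mem_range, List.mem_append, List.mem_cons,
    Prod.mk.injEq, List.not_mem_nil, or_false, List.mem_map, List.mem_filter, decide_eq_true_eq]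
  constructor
  · rintro ⟨y, h, ((e | e) | ⟨c', h', e | e⟩) | ⟨c', h', e⟩⟩ <;> obtain ⟨rfl, rfl, rfl⟩ := e <;>
      simp_all
  · rintro ⟨h, ⟨rfl, e⟩ | ⟨e, e'⟩ | ⟨rfl, e⟩⟩
    · exact ⟨x, h, Or.inl (Or.inl (by omega))⟩
    · exact ⟨x, h, Or.inl (Or.inr ⟨c, e', by omega⟩)⟩
    · exact ⟨x, h, Or.inr ⟨c, e, rfl, rfl, rfl⟩⟩

/-- The gadget as a graph. -/
def gr (A : List (List ℕ)) : Gr (ℕ × ℕ × ℕ) where
  S := (vert A).toFinset
  adj p q := p ∈ vert A ∧ q ∈ vert A ∧ Adj A p q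
  symm := fun ⟨h1, h2, h3⟩ => ⟨h2, h1, by
    unfold Adj at *
    rcases h3 with ⟨h, e | e | e | e | e | e⟩ | e <;> grind⟩
  ne := by unfold Adj; grind
  mem h := List.mem_toFinset.2 h.1

theorem hasFac_iff_pm :
    hasFac A = true ↔ ∃ M, (gr A).IsM M ∧ ∀ p ∈ vert A, M p ≠ p := by
  rw [hasFac, Rep.test_iff (G := gr A) ⟨by simp [gr], by simp [gr, and_assoc]⟩]
  simp [gr]

/-- A factor written on natural numbers. -/
def NFac (A : List (List ℕ)) : Prop :=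
  ∃ (N : ℕ → ℕ → Prop) (t : ℕ → ℕ → ℕ), (∀ x u, N x u → u < A.length ∧ u ≠ x ∧ N u x ∧
    N x (t x u) ∧ t x (t x u) = u ∧ ent A x u ≠ ent A x (t x u)) ∧ ∀ x < A.length, ∃ u, N x u

theorem nfac_of_pm {μ : ℕ × ℕ × ℕ → ℕ × ℕ × ℕ} (h : (gr A).IsM μ) (hp : ∀ p ∈ vert A, μ p ≠ p) :
    NFac A := by
  classical
  have h1 : Function.Involutive μ := h.1
  have h2 : ∀ p ∈ vert A, μ p ∈ vert A ∧ Adj A p (μ p) := fun p e => (h.2 p (hp p e)).2
  have key : ∀ x b, ∃ w, x < A.length → b < 2 → w < A.length ∧ w ≠ x ∧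
      μ (x, b, 2) = (x, ent A x w, 0) ∧ μ (x, w, 3) = (x, ent A x w, 1) := fun x b => by
    by_cases hx : x < A.length ∧ b < 2
    swap
    · exact ⟨0, fun a a' => absurd ⟨a, a'⟩ hx⟩
    obtain ⟨a1, a2⟩ := h2 (x, b, 2) (mem_vert.2 ⟨hx.1, Or.inl ⟨rfl, hx.2⟩⟩)
    obtain ⟨c, hc⟩ : ∃ c, μ (x, b, 2) = (x, c, 0) := by
      rcases hq : μ (x, b, 2) with ⟨y, d, t⟩
      simp only [Adj, hq] at a2
      exact ⟨d, by grind⟩
    rw [hc, mem_vert] at a1
    obtain ⟨b1, b2⟩ := h2 (x, c, 1) (mem_vert.2 (by simpa using a1))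
    obtain ⟨w, hw, e⟩ : ∃ w, μ (x, c, 1) = (x, w, 3) ∧ c = ent A x w := by
      rcases hq : μ (x, c, 1) with ⟨y, d, t⟩
      have := h1 (x, c, 1)
      have := h1 (x, b, 2)
      simp only [Adj, hq, hc] at b2 this
      exact ⟨d, by grind⟩
    rw [hw, mem_vert] at b1
    subst e
    exact ⟨w, fun _ _ => ⟨by grind, by grind, hc, by rw [← hw, h1]⟩⟩
  choose w hw using key
  refine ⟨fun x u => x < A.length ∧ u < A.length ∧ u ≠ x ∧ μ (x, u, 3) ≠ (u, x, 3),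
    fun x u => if u = w x 0 then w x 1 else if u = w x 1 then w x 0 else (μ (x, u, 3)).2.1,
    fun x u ⟨k1, k2, k3, k4⟩ => ?_, fun x hx => ?_⟩
  · obtain ⟨a1, a2, a3, a4⟩ := hw x 0 k1 (by omega)
    obtain ⟨b1, b2, b3, b4⟩ := hw x 1 k1 (by omega)
    have n1 : ent A x (w x 0) ≠ ent A x (w x 1) := fun e => by
      have := h1 (x, 0, 2)
      rw [a3, e, ← b3, h1] at this
      simp at this
    have n2 : w x 0 ≠ w x 1 := fun e => n1 (by rw [e])
    refine ⟨k2, k3, ⟨k2, k1, k3.symm, fun e => k4 (by rw [← e, h1])⟩, ?_⟩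
    by_cases e0 : u = w x 0
    · subst e0
      simp [*, n2.symm]
    by_cases e1 : u = w x 1
    · subst e1
      simp [*, n1.symm]
    obtain ⟨d1, d2⟩ := h2 (x, u, 3) (mem_vert.2 ⟨k1, Or.inr (Or.inr ⟨rfl, k2, k3⟩)⟩)
    obtain ⟨u', hu', e⟩ : ∃ u', μ (x, u, 3) = (x, u', 3) ∧ ent A x u ≠ ent A x u' := by
      by_cases j : μ (x, u, 3) = (x, ent A x u, 1)
      · rw [j, mem_vert] at d1
        obtain ⟨f1, f2⟩ := h2 (x, ent A x u, 0) (mem_vert.2 (by simpa using d1))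
        rw [mem_vert] at f1
        have g1 : μ (x, ent A x u, 1) = (x, u, 3) := by rw [← j, h1]
        have g2 : ∀ b v, μ (x, ent A x u, 0) = (x, b, 2) → μ (x, b, 2) = (x, ent A x v, 0) →
            μ (x, v, 3) = (x, ent A x v, 1) → u = v := fun b v e e' e'' => by
          rw [← e, h1] at e'
          rw [← (Prod.mk.inj (Prod.mk.inj e').2).1, ← j] at e''
          exact (Prod.mk.inj (Prod.mk.inj (h1.injective e'')).2).1.symm
        have g3 : μ (x, ent A x u, 0) ≠ (x, ent A x u, 1) := fun e => by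
          rw [← e, h1] at g1
          simp at g1
        have g4 := fun e => e0 (g2 0 _ e a3 a4)
        have g5 := fun e => e1 (g2 1 _ e b3 b4)
        rcases hq : μ (x, ent A x u, 0) with ⟨y, d, t⟩
        simp only [Adj, hq] at f1 f2 g3 g4 g5
        clear * - f1 f2 g3 g4 g5
        grind
      · rcases hq : μ (x, u, 3) with ⟨y, d, t⟩
        simp only [Adj, hq] at d2 j k4
        exact ⟨d, by grind⟩
    have hu'' : μ (x, u', 3) = (x, u, 3) := by rw [← hu', h1]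
    rw [hu', mem_vert] at d1
    simp only [if_neg e0, if_neg e1, hu']
    grind
  · obtain ⟨a1, a2, -, a4⟩ := hw x 0 hx (by omega)
    exact ⟨w x 0, hx, a1, a2, by simp [a4]⟩

theorem pm_of_nfac (hK : ∀ x < A.length, ∀ y < A.length, ent A x y ∈ A.flatten) (h : NFac A) :
    ∃ μ, (gr A).IsM μ ∧ ∀ p ∈ vert A, μ p ≠ p := by
  classical
  obtain ⟨N, t, h1, h2⟩ := h
  choose! a ha using h2
  let M : ℕ × ℕ × ℕ → ℕ × ℕ × ℕ := fun p =>
    if p.2.2 = 2 then (p.1, ent A p.1 (if p.2.1 = 0 then a p.1 else t p.1 (a p.1)), 0)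
    else if p.2.2 = 0 then if p.2.1 = ent A p.1 (a p.1) then (p.1, 0, 2)
      else if p.2.1 = ent A p.1 (t p.1 (a p.1)) then (p.1, 1, 2) else (p.1, p.2.1, 1)
    else if p.2.2 = 1 then if p.2.1 = ent A p.1 (a p.1) then (p.1, a p.1, 3)
      else if p.2.1 = ent A p.1 (t p.1 (a p.1)) then (p.1, t p.1 (a p.1), 3) else (p.1, p.2.1, 0)
    else if p.2.1 = a p.1 ∨ p.2.1 = t p.1 (a p.1) then (p.1, ent A p.1 p.2.1, 1)
    else if N p.1 p.2.1 then (p.1, t p.1 p.2.1, 3) else (p.2.1, p.1, 3)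
  have key : ∀ p ∈ vert A, M p ∈ vert A ∧ M (M p) = p ∧ Adj A p (M p) := by
    rintro ⟨x, k, s⟩ hp
    rw [mem_vert] at hp
    obtain ⟨hx, hp⟩ := hp
    dsimp only at hx hp
    have a0 := ha x hx
    have a1 := h1 _ _ a0
    have a2 := h1 _ _ a1.2.2.2.1
    have a3 := hK x hx _ a1.1
    have a4 := hK x hx _ a2.1
    rcases hp with ⟨rfl, hp⟩ | ⟨hs, hp⟩ | ⟨rfl, hp⟩
    · obtain rfl | rfl : k = 0 ∨ k = 1 := by omega
      all_goals simp only [M, mem_vert, Adj]; grind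
    · obtain rfl | rfl : s = 0 ∨ s = 1 := by omega
      all_goals simp only [M, mem_vert, Adj]; grind
    · have b1 := h1 x k
      have b2 := h1 x (t x k)
      have b3 := h1 k x
      have b4 := ha k hp.1
      have b5 := h1 _ _ b4
      simp only [M, mem_vert, Adj]
      grind
  obtain ⟨μ, k1, k2⟩ := pm_of_rel (gr A) (fun p q => p ∈ vert A ∧ q = M p)
    (by rintro p _ ⟨hp, rfl⟩; exact ⟨(key p hp).1, (key p hp).2.1.symm⟩)
    (by rintro p _ ⟨hp, rfl⟩; exact ⟨hp, (key p hp).1, (key p hp).2.2⟩)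
    (fun p q q' e e' => e.2.trans e'.2.symm) fun p hp => ⟨_, List.mem_toFinset.1 hp, rfl⟩
  exact ⟨μ, k1, fun p hp => k2 p (List.mem_toFinset.2 hp)⟩

variable {n : ℕ} {c : Fin n → Fin n → ℕ}

theorem nfac_iff (hn : A.length = n) (hA : ∀ x y : Fin n, ent A x y = c x y) :
    NFac A ↔ Nonempty (Fac c) := by
  subst hn
  refine ⟨fun ⟨N, t, h1, h2⟩ => ?_, fun ⟨F⟩ => ?_⟩
  · refine (exists_fac (c := c) (fun x u => N x.1 u.1) (fun x u h => (h1 _ _ h).2.2.1)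
      (fun x h => (h1 _ _ h).2.1 rfl)
      (fun x => (h2 x x.2).elim fun u h => ⟨⟨u, (h1 _ _ h).1⟩, h⟩) fun x => pair_of_rel
      (fun u w => N x.1 u.1 ∧ t x.1 u.1 = w.1) (fun u w h => ?_)
      (fun u w w' h h' => Fin.ext (h.2.symm.trans h'.2))
      (fun u h => ⟨⟨_, (h1 _ _ (h1 _ _ h).2.2.2.1).1⟩, h, rfl⟩) fun u w h => ?_).nonempty
    · rw [← h.2]
      exact ⟨(h1 _ _ h.1).2.2.2.1, (h1 _ _ h.1).2.2.2.2.1⟩
    · rw [← hA, ← hA, ← h.2]
      exact ⟨(h1 _ _ h.1).2.2.2.1, (h1 _ _ h.1).2.2.2.2.2⟩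
  · refine ⟨fun x u => ∃ x' u', x = x'.1 ∧ u = u'.1 ∧ F.N x' u',
      fun x u => if h : x < A.length ∧ u < A.length then (F.t ⟨x, h.1⟩ ⟨u, h.2⟩).1 else 0, ?_,
      fun x hx => (F.ex ⟨x, hx⟩).elim fun u h => ⟨u, _, _, rfl, rfl, h⟩⟩
    rintro _ _ ⟨x, u, rfl, rfl, h⟩
    simp only [Fin.is_lt, and_self, dite_true, Fin.eta, hA, F.inv h, true_and]
    exact ⟨Fin.val_ne_of_ne (Fac.ne_of_N h).symm, ⟨_, _, rfl, rfl, F.symm h⟩,
      ⟨_, _, rfl, rfl, F.mem h⟩, F.ne h⟩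

theorem dec_iff (n : ℕ) (col : Sym2 (Fin n) → ℕ) :
    dec (List.ofFn fun i => List.ofFn fun j => col s(i, j)) = true ↔
      HasPCSpanningCircuit col := by
  set A := List.ofFn fun i => List.ofFn fun j => col s(i, j) with hA0
  have hn : A.length = n := by simp [hA0]
  have hA : ∀ x y : Fin n, ent A x y = col s(x, y) := fun x y => by simp [hA0, ent]
  have hK : ∀ x < A.length, ∀ y < A.length, ent A x y ∈ A.flatten := fun x hx y hy => by
    rw [hA ⟨x, hn ▸ hx⟩ ⟨y, hn ▸ hy⟩]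
    simp only [hA0, List.mem_flatten, List.mem_ofFn]
    exact ⟨_, ⟨_, rfl⟩, List.mem_ofFn.2 ⟨_, rfl⟩⟩
  have hF : hasFac A = true ↔ Nonempty (Fac fun u v => col s(u, v)) := by
    rw [hasFac_iff_pm, ← nfac_iff hn hA]
    exact ⟨fun ⟨_, h1, h2⟩ => nfac_of_pm h1 h2, pm_of_nfac hK⟩
  simp only [dec, Bool.and_eq_true, Bool.or_eq_true, decide_eq_true_eq, List.all_eq_true,
    List.any_eq_true, hn, List.mem_range, hF]
  rcases n with _ | n
  · exact ⟨fun h => absurd rfl h.1.1, fun ⟨_, p, _⟩ => (p 0).elim0⟩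
  rw [circuit_iff, and_iff_right n.succ_ne_zero]
  refine and_congr_right fun _ => ⟨fun H S f ⟨u, hu⟩ hD => ?_, fun H u hu y hy => ?_⟩
  · refine Set.eq_univ_of_forall fun y => by_contra fun hy => ?_
    have e : ∀ v ∈ S, col s(v, y) = f v := fun v hv =>
      (hD v hv y fun k => hy (k ▸ hv)).resolve_right fun k => hy k.1
    obtain ⟨v, -, r, w, hw, n1, n2, n3⟩ :=
      (H u u.2 y y.2).resolve_left fun k => hy (Fin.ext k ▸ hu)
    have : ∃ v' ∈ S, (v' : ℕ) = v := by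
      clear n1 n2 n3
      induction r with
      | refl => exact ⟨u, hu, rfl⟩
      | @tail a b _ k ih =>
        obtain ⟨a, ha, rfl⟩ := ih
        obtain ⟨b, rfl⟩ : ∃ y : Fin (n + 1), y = b := ⟨⟨b, k.1⟩, rfl⟩
        rw [hA, hA, e a ha] at k
        exact ⟨b, ((hD a ha b fun j => k.2.1 (by rw [j])).resolve_left k.2.2).1, rfl⟩
    obtain ⟨v, hv, rfl⟩ := this
    obtain ⟨w, rfl⟩ : ∃ y : Fin (n + 1), y = w := ⟨⟨w, hw⟩, rfl⟩
    rw [hA, hA] at n2 n3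
    rcases hD v hv w fun j => n1 (by rw [j]) with k | k
    exacts [n2 (k.trans (e v hv).symm), n3 (k.2.trans (e w k.1).symm)]
  · obtain ⟨u, rfl⟩ : ∃ y : Fin (n + 1), y = u := ⟨⟨u, hu⟩, rfl⟩
    obtain ⟨y, rfl⟩ : ∃ z : Fin (n + 1), z = y := ⟨⟨y, hy⟩, rfl⟩
    by_contra hc
    rw [not_or] at hc
    have := H {v | ReflTransGen (fun a b => b < n + 1 ∧ a ≠ b ∧ ent A a b ≠ ent A a y) u v}
      (fun v => col s(v, y)) ⟨u, .refl⟩ fun v hv w hw => by
        by_contra k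
        rw [not_or, not_and] at k
        have n1 := Fin.val_ne_of_ne hw
        have n2 : ent A v w ≠ ent A v y := by rw [hA, hA]; exact k.1
        exact hc.2 ⟨v, v.2, hv, w, w.2, n1, n2, by
          rw [hA, hA]; exact k.2 (ReflTransGen.tail hv ⟨w.2, n1.symm, n2⟩)⟩
    rcases ReflTransGen.cases_tail (Set.eq_univ_iff_forall.1 this y) with k | ⟨_, -, k⟩
    exacts [hc.1 k.symm, k.2.2 rfl]

end Pool.Agent.Lib.MP_dd4ef3_lc.H61
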