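import Pool.Agent.Lib.MP_dd4ef3_lc.H61Fac

/-!
A factor of maximal connectivity is connected unless one of its components is degenerate.
-/

namespace Pool.Agent.Lib.MP_dd4ef3_lc.H61

variable {V K : Type} {c : V → V → K}

namespace Fac

variable {F : Fac c} {x y z w u v : V}

/-- Some vertex of `X` is monochromatic to the other components inside `X`. -/
theorem Max.mono [Finite V] (hc : ∀ u v, c u v = c v u) (hM : F.Max) (X : Finset V)
    (hX : X.Nonempty) : ∃ z ∈ X, ∃ k, ∀ y ∈ X, ¬F.R z y → c z y = k := by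
  classical
  induction X using Finset.strongInduction with
  | H X ih =>
  by_contra hno
  have hno' : ∀ z ∈ X, ∀ k, ∃ y ∈ X, ¬F.R z y ∧ c z y ≠ k := fun z hz k => by
    by_contra h
    exact hno ⟨z, hz, k, fun y hy e => by_contra fun e' => h ⟨y, hy, e, e'⟩⟩
  have hg : ∀ u, ∃ g, ∃ k, u ∈ X → g ∈ X ∧ ¬F.R g u ∧ c g u ≠ k ∧
      ∀ y ∈ X, y ≠ u → ¬F.R g y → c g y = k := fun u => by
    by_cases hu : u ∈ X
    · obtain ⟨y0, hy0, e0, -⟩ := hno' u hu (c u u)
      obtain ⟨g, h1, k, h2⟩ := ih (X.erase u) (Finset.erase_ssubset hu)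
        ⟨y0, Finset.mem_erase.2 ⟨(ne_of_not_R e0).symm, hy0⟩⟩
      have h3 : ∀ y ∈ X, y ≠ u → ¬F.R g y → c g y = k := fun y hy e =>
        h2 y (Finset.mem_erase.2 ⟨e, hy⟩)
      obtain ⟨y, hy, e1, e2⟩ := hno' g (Finset.mem_of_mem_erase h1) k
      obtain rfl : y = u := by_contra fun e => e2 (h3 y hy e e1)
      exact ⟨g, k, fun _ => ⟨Finset.mem_of_mem_erase h1, e1, e2, h3⟩⟩
    · exact ⟨u, c u u, fun h => absurd h hu⟩
  choose g k hg using hg
  by_cases h2 : ∀ u ∈ X, g (g u) ≠ u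
  · refine hM.cyc hc X g hX fun z hz => ?_
    obtain ⟨a1, a2, a3, a4⟩ := hg z hz
    obtain ⟨b1, b2, -, -⟩ := hg _ a1
    refine ⟨a1, fun e => a2 e.symm, h2 z hz, ?_⟩
    rw [a4 _ b1 (h2 z hz) fun e => b2 e.symm, hc]
    exact a3
  push Not at h2
  obtain ⟨u, hu, e⟩ := h2
  obtain ⟨hw, a2, a3, a4⟩ := hg u hu
  obtain ⟨-, -, b3, b4⟩ := hg _ hw
  rw [e] at b3 b4
  generalize g u = w at *
  generalize k u = β at *
  generalize k w = α at *
  have a2' : ¬F.R u w := fun e => a2 e.symm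
  have q : ∀ z ∈ X, ∀ y ∈ X, z ≠ u → y ≠ w → ¬F.R z y → ¬F.R w z → ¬F.R y u →
      c z y = β ∨ c z y = α := fun z hz y hy n1 n2 r1 r2 r3 => by
    by_contra hh
    push Not at hh
    have e1 := a4 z hz n1 r2
    have e2 := b4 y hy n2 fun e => r3 e.symm
    refine hM.quad hc a2' r2 r1 r3 n1.symm n2.symm ?_ ?_ ?_ ?_
    · rw [e1, hc]; exact a3
    · rw [e1]; exact hh.1.symm
    · rw [hc y u, e2]; exact hh.2
    · rw [hc y u, e2]; exact b3.symm
  obtain ⟨z0, hz0, r0, c0⟩ := hno' u hu (c u w)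
  have n0 : z0 ≠ w := fun e => c0 (by rw [e])
  have n0' := (ne_of_not_R r0).symm
  by_cases hab : α = β
  · subst hab
    obtain ⟨y, hy, r1, c1⟩ := hno' z0 hz0 α
    have n1 : y ≠ u := fun e => c1 (by rw [e, hc]; exact b4 _ hz0 n0 r0)
    have n2 : y ≠ w := fun e => c1 (by
      rw [e, hc]; exact a4 _ hz0 n0' fun k => r1 (e ▸ k.symm))
    by_cases r2 : F.R w z0 ∨ F.R y u
    · have r3 : ¬F.R w y := fun k => r2.elim (fun j => r1 (j.symm.trans k))
        fun j => a2 (k.trans j)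
      have := q y hy z0 hz0 n1 n0 (fun k => r1 k.symm) r3 fun k => r0 k.symm
      rw [hc, or_self] at this
      exact c1 this
    · push Not at r2
      have := q z0 hz0 y hy n0' n2 r1 r2.1 r2.2
      rw [or_self] at this
      exact c1 this
  have bip : ∀ z ∈ X, F.R u z ∨ F.R w z := fun z hz => by
    by_contra hh
    push Not at hh
    have n1 := ne_of_not_R hh.1
    have n2 := ne_of_not_R hh.2
    have e1 := a4 z hz n1.symm hh.2
    have e2 := b4 z hz n2.symm hh.1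
    refine hM.tri hc a2' (not_N hh.2) (not_N fun k => hh.1 k.symm) n2 n1.symm ?_ ?_ ?_
    · rw [e1, hc]; exact a3
    · rw [e1, hc z u, e2]; exact fun k => hab k.symm
    · rw [hc z u, e2]; exact b3.symm
  have hh : ∀ z, ∃ y, z ∈ X → y ∈ X ∧ ¬F.R z y ∧ c z y ≠ if F.R u z then β else α := fun z => by
    by_cases hz : z ∈ X
    · obtain ⟨y, h⟩ := hno' z hz (if F.R u z then β else α)
      exact ⟨y, fun _ => h⟩
    · exact ⟨z, fun h => absurd h hz⟩
  choose h hh using hh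
  have key : ∀ z ∈ X, z ≠ u → z ≠ w → h z ≠ u ∧ h z ≠ w ∧
      c z (h z) = if F.R u (h z) then β else α := fun z hz n1 n2 => by
    obtain ⟨d1, d2, d3⟩ := hh z hz
    by_cases r : F.R u z
    · rw [if_pos r] at d3
      have r1 : ¬F.R w z := fun k => a2' (r.trans k.symm)
      have r2 : ¬F.R u (h z) := fun k => d2 (r.symm.trans k)
      have n3 : h z ≠ w := fun k => d3 (by rw [k, hc]; exact a4 z hz n1 r1)
      refine ⟨(ne_of_not_R r2).symm, n3, ?_⟩
      rw [if_neg r2]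
      exact (q z hz _ d1 n1 n3 d2 r1 fun k => r2 k.symm).resolve_left d3
    · rw [if_neg r] at d3
      have r1 := (bip z hz).resolve_left r
      have r2 : ¬F.R w (h z) := fun k => d2 (r1.symm.trans k)
      have r3 := (bip _ d1).resolve_right r2
      have n3 : h z ≠ u := fun k => d3 (by rw [k, hc]; exact b4 z hz n2 r)
      refine ⟨n3, (ne_of_not_R r2).symm, ?_⟩
      rw [if_pos r3, hc]
      refine (q _ d1 z hz n3 n2 (fun k => d2 k.symm) r2 fun k => r k.symm).resolve_right ?_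
      rwa [hc]
  refine hM.cyc hc {z | z ∈ X ∧ z ≠ u ∧ z ≠ w} h ⟨z0, hz0, n0', n0⟩ fun z hz => ?_
  obtain ⟨d1, d2, -⟩ := hh z hz.1
  obtain ⟨d4, d5, d6⟩ := key z hz.1 hz.2.1 hz.2.2
  have d7 : c z (h z) ≠ c (h z) (h (h z)) := by
    rw [d6]; exact (hh _ d1).2.2.symm
  exact ⟨⟨d1, d4, d5⟩, d2, fun k => d7 (by rw [k, hc]), d7⟩

/-- `x` is joined in colour `k` to all other components. -/
def Sing (F : Fac c) (x : V) (k : K) : Prop := ∀ y, ¬F.R x y → c x y = k

theorem Max.step [Finite V] (hc : ∀ u v, c u v = c v u) (hM : F.Max) {α : K} (hx : F.Sing x α)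
    (h : F.N x w) (c1 : c x (F.t x w) ≠ α) : F.Sing w (c w (F.t w x)) := by
  have r : ∀ {y}, ¬F.R w y → ¬F.R x y := fun k e => k ((R.of h).symm.trans e)
  have a : ∀ y, ¬F.R w y → c w y ≠ c w (F.t w x) → c w y = α := fun y hy e => by
    by_contra k
    refine hM.ins hc h (r hy) ?_ e ?_ <;> rw [hx y (r hy)]
    exacts [c1.symm, Ne.symm k]
  intro y hy
  by_contra e
  have e1 := a y hy e
  have hab : α ≠ c w (F.t w x) := e1 ▸ e
  obtain ⟨y1, n1, c2⟩ : ∃ y1, F.N y y1 ∧ c y (F.t y y1) ≠ α := by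
    obtain ⟨p, hp⟩ := F.ex y
    by_cases k : c y (F.t y p) = α
    · exact ⟨_, F.mem hp, by rw [F.inv hp, ← k]; exact F.ne hp⟩
    · exact ⟨p, hp, k⟩
  have hy1 : ¬F.R w y1 := fun k => hy (k.trans (R.of n1).symm)
  have n2 := F.mem (F.symm n1)
  have e2 : c y1 (F.t y1 y) = α := by
    by_contra k
    refine hM.opt h n1 (r hy) ?_ ?_ ?_ e
    · rw [hx _ (r hy1)]; exact c1.symm
    · rw [hc y1 x, hx _ (r hy1)]; exact Ne.symm k
    · rw [hc y w, e1]; exact c2.symm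
  by_cases k : c w y1 = c w (F.t w x)
  · refine hM.ins hc n1 (fun j => hy j.symm) ?_ ?_ ?_
    · rw [hc y w, e1]; exact c2.symm
    · rw [hc y1 w, k, e2]; exact hab.symm
    · rw [hc y w, e1, hc y1 w, k]; exact hab
  · have e3 := a y1 hy1 k
    have hz : ¬F.R x (F.t y1 y) := fun j => r hy1 (j.trans (R.of n2).symm)
    refine hM.opt h n2 (r hy1) ?_ ?_ ?_ k
    · rw [hx _ hz]; exact c1.symm
    · rw [hc _ x, hx _ hz, ← e2, hc y1]; exact F.ne (F.symm n2)
    · rw [hc y1 w, e3, ← e2]; exact F.ne n2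

theorem Max.next [Finite V] (hc : ∀ u v, c u v = c v u) (hM : F.Max) {α : K} (hx : F.Sing x α)
    (h : F.N x w) : (F.Sing x (c x w) ∧ ∃ β, F.Sing w β) ∨ F.Sing w (c w x) := by
  let D : Set (V × V) := {d | F.N d.1 d.2 ∧ ∃ α, F.Sing d.1 α ∧ c d.1 (F.t d.1 d.2) ≠ α}
  let s : V × V → V × V := fun d => (d.2, F.t d.2 d.1)
  have h1 : Set.MapsTo s D D := by
    rintro ⟨a, b⟩ ⟨k1, k, k2, k3⟩
    refine ⟨F.mem (F.symm k1), _, hM.step hc k2 k1 k3, ?_⟩
    show c b (F.t b (F.t b a)) ≠ _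
    rw [F.inv (F.symm k1)]
    exact F.ne (F.symm k1)
  have h2 : Set.InjOn s D := by
    rintro ⟨a, b⟩ k ⟨a', b'⟩ k' e
    obtain ⟨rfl, e⟩ := Prod.mk.inj e
    exact Prod.ext ((F.inv (F.symm k.1)).symm.trans
      ((congrArg (F.t b) e).trans (F.inv (F.symm k'.1)))) rfl
  have h3 := (((Set.toFinite D).injOn_iff_bijOn_of_mapsTo h1).1 h2).2.2
  have h4 : ∀ a b, (a, b) ∈ D → (F.t a b, a) ∈ D ∧ F.Sing a (c a b) := fun a b k => by
    obtain ⟨⟨a', b'⟩, k', e⟩ := h3 k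
    obtain ⟨rfl, rfl⟩ := Prod.mk.inj e
    obtain ⟨k1, _, k2, k3⟩ := id k'
    exact ⟨by rw [F.inv (F.symm k1)]; exact k', hM.step hc k2 k1 k3⟩
  by_cases k : c x (F.t x w) = α
  · have k1 : (x, F.t x w) ∈ D := ⟨F.mem h, α, hx, by
      show c x (F.t x (F.t x w)) ≠ α
      rw [F.inv h, ← k]; exact F.ne h⟩
    have k2 := (h4 _ _ k1).1
    rw [F.inv h] at k2
    exact Or.inr (h4 _ _ k2).2
  · exact Or.inl ⟨(h4 x w ⟨h, α, hx, k⟩).2, _, hM.step hc hx h k⟩

theorem connected [Finite V] (hc : ∀ u v, c u v = c v u) (F0 : Fac c)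
    (hD : ∀ S f, S.Nonempty → Deg c S f → S = Set.univ) : ∃ F : Fac c, ∀ u v, F.R u v := by
  classical
  obtain ⟨F, hM⟩ := exists_max F0
  refine ⟨F, fun u0 v0 => ?_⟩
  have := Fintype.ofFinite V
  obtain ⟨z, -, k, hz⟩ := hM.mono hc Finset.univ ⟨u0, Finset.mem_univ _⟩
  have hz' : F.Sing z k := fun y => hz y (Finset.mem_univ _)
  have h1 : ∀ v, ∃ k, F.R z v → F.Sing v k := fun v => by
    by_cases e : F.R z v
    · have : ∃ k, F.Sing v k := by
        induction e with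
        | refl => exact ⟨k, hz'⟩
        | tail _ e ih =>
          obtain ⟨k, ih⟩ := ih
          exact (hM.next hc ih e).elim (fun j => j.2) fun j => ⟨_, j⟩
      exact this.imp fun _ j _ => j
    · exact ⟨k, fun j => absurd j e⟩
  choose f hf using h1
  suffices h : ∀ y, F.R z y from (h u0).symm.trans (h v0)
  intro y0
  by_contra hy0
  refine hy0 ((Set.eq_univ_iff_forall.1 (hD {v | F.R z v} f ⟨z, R.refl z⟩ fun v hv w n => ?_)) y0)
  have out : ∀ {a y}, F.R z a → ¬F.R z y → ¬F.R a y := fun j j' e => j' (j.trans e)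
  by_cases hw : F.R z w
  swap
  · exact Or.inl (hf v hv w (out hv hw))
  by_contra hh
  have c1 : c v w ≠ f v := fun e => hh (Or.inl e)
  have c2 : c v w ≠ f w := fun e => hh (Or.inr ⟨hw, e⟩)
  have ev : ∀ {y}, ¬F.R z y → c v y = f v := fun j => hf v hv _ (out hv j)
  have ew : ∀ {y}, ¬F.R z y → c w y = f w := fun j => hf w hw _ (out hw j)
  by_cases hN : F.N v w
  · rcases hM.next hc (hf v hv) hN with j | j
    · exact c1 ((j.1 y0 (out hv hy0)).symm.trans (ev hy0))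
    · exact c2 ((hc v w).trans ((j y0 (out hw hy0)).symm.trans (ew hy0)))
  by_cases e : f v = f w
  · obtain ⟨y, y', n1, r, d1, d2⟩ : ∃ y y', F.N y y' ∧ ¬F.R z y ∧ f v ≠ c y (F.t y y') ∧
        f v ≠ c y' (F.t y' y) := by
      by_cases j : ∃ y y', F.N y y' ∧ ¬F.R z y ∧ c y y' = f v
      · obtain ⟨y, y', n1, r, d⟩ := j
        exact ⟨y, y', n1, r, d ▸ F.ne n1, by rw [← d, hc y y']; exact F.ne (F.symm n1)⟩
      · obtain ⟨y', n1⟩ := F.ex y0
        exact ⟨y0, y', n1, hy0, fun d => j ⟨_, _, F.mem n1, hy0, d.symm⟩, fun d =>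
          j ⟨_, _, F.mem (F.symm n1), fun r => hy0 (r.trans (R.of n1).symm), d.symm⟩⟩
    have r' : ¬F.R z y' := fun j => r (j.trans (R.of n1).symm)
    refine hM.detour n1 (fun j => out hv r j.symm) (fun j => out hw r j.symm) hN n.symm ?_ ?_ ?_ ?_
    · rwa [hc y v, ev r]
    · rw [ev r]; exact c1.symm
    · rw [ew r', hc w v]; exact c2
    · rwa [hc y' w, ew r', ← e]
  · refine hM.tri hc (out hv hy0) (not_N fun j => out hw hy0 j.symm) (fun j => hN (F.symm j))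
      (ne_of_not_R (out hw hy0)).symm n ?_ ?_ ?_
    · rwa [ev hy0, hc y0 w, ew hy0]
    · rw [hc y0 w, ew hy0, hc w v]; exact c2.symm
    · rw [ev hy0, hc w v]; exact c1

end Fac

end Pool.Agent.Lib.MP_dd4ef3_lc.H61
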