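import Pool.Agent.Lib.MP_dd4ef3_lc.H90Sing

/-!
Two cycles meeting a module.
-/

namespace Pool.Agent.Lib.MP_dd4ef3_lc

variable {V K : Type} {G : GCol V K}

namespace Fac

variable (F : Fac G)

/-- A port leading from outside into `X`. -/
def Ent (X : Set V) (p : V × Bool) : Prop := p.1 ∉ X ∧ (F.M p).1 ∈ X

/-- Walking inside `X`. -/
def Chain (X : Set V) : V × Bool → V × Bool → Prop :=
  Relation.ReflTransGen fun s t => t = F.n s ∧ t.1 ∈ X

/-- Inside `X` all edges between the two cycles have one of two colours. -/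
def Two (X : Set V) (x y : V) (R B : K) : Prop :=
  ∀ u ∈ X, ∀ v ∈ X, F.R x u → F.R y v → G.c u v = R ∨ G.c u v = B

variable {F} {X : Set V} {x y : V} {p q r : V × Bool} {R B : K}

theorem Two.symm (h : F.Two X x y R B) : F.Two X y x R B := fun u hu v hv a b => by
  rw [G.symm]; exact h v hv u hu b a

theorem Ent.col (hX : G.Mod X) (h : F.Ent X p) {z : V} (hz : z ∈ X) : G.c p.1 z = F.k p :=
  hX _ h.1 _ hz _ h.2

theorem Ent.col' (hX : G.Mod X) (h : F.Ent X p) {z : V} (hz : z ∈ X) : G.c z p.1 = F.k p :=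
  (G.symm _ _).trans (h.col hX hz)

theorem Chain.dir (h : F.Chain X p q) : F.Dir p q := by
  induction h with
  | refl => exact Dir.refl _
  | tail _ h ih => rw [h.1]; exact ih.step

theorem Chain.rev (h : F.Chain X p q) : F.Chain X (F.M q) (F.M p) := by
  induction h with
  | refl => exact Relation.ReflTransGen.refl
  | tail _ h ih =>
    obtain ⟨rfl, h⟩ := h
    exact Relation.ReflTransGen.head (b := F.M _) ⟨by simp, h⟩ ih

theorem exists_ent {u v : V} (h : F.R u v) (hu : u ∉ X) (hv : v ∈ X) :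
    ∃ p : V × Bool, F.R u p.1 ∧ F.Ent X p := by
  by_contra hc
  exact (h.ind (P := fun z => F.R u z ∧ z ∉ X) ⟨R.refl _, hu⟩ fun p hp =>
    ⟨hp.1.step, fun e => hc ⟨p, hp.1, hp.2, e⟩⟩).2 hv

variable [Finite V]

theorem Ent.partner (h : F.Ent X p) : ∃ p', F.Ent X p' ∧ F.Chain X p' (F.M p) := by
  have := (Dir_M (fl p)).ind (P := fun t => F.Chain X p t ∨ ∃ r, F.Chain X p r ∧ (F.M r).1 ∉ X)
    (Or.inl (by rw [fl_fl]; exact Relation.ReflTransGen.refl)) fun z _ hz => by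
      rcases hz with hz | hz
      · by_cases e : (F.M z).1 ∈ X
        exacts [Or.inl (Relation.ReflTransGen.tail hz ⟨rfl, e⟩), Or.inr ⟨z, hz, e⟩]
      · exact Or.inr hz
  obtain ⟨r, h1, h2⟩ : ∃ r, F.Chain X p r ∧ (F.M r).1 ∉ X :=
    this.elim (fun e => ⟨_, e, by simpa using h.1⟩) id
  refine ⟨F.M r, ⟨h2, ?_⟩, h1.rev⟩
  rw [inv]
  rcases Relation.ReflTransGen.cases_tail h1 with rfl | ⟨_, _, _, e⟩
  exacts [absurd h.2 h2, e]

theorem ent_cell (hX : G.Mod X) (h : ¬F.Merge x y) (hp : F.R x p.1) (hq : F.R y q.1)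
    (ep : F.Ent X p) (eq : F.Ent X q) : F.k p = F.k (F.n q) ∨ F.k q = F.k (F.n p) := by
  have := blocked' h hp hq
  rw [ep.col hX eq.2, eq.col' hX ep.2] at this
  rcases this with d | d | d | d
  exacts [absurd d (F.k_fl p), Or.inl d, Or.inr d, absurd d (F.k_fl q)]

theorem ent_ne (hX : G.Mod X) (h : ¬F.Merge x y) (hp : F.R x p.1) (hq : F.R y q.1)
    (ep : F.Ent X p) (eq : F.Ent X q) : F.k p ≠ F.k q := fun e => by
  rcases ent_cell hX h hp hq ep eq with d | d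
  exacts [F.k_n q (d.symm.trans e), F.k_n p (d.symm.trans e.symm)]

theorem sstep (hX : G.Mod X) (h : ¬F.Merge x y) (hp : F.R x p.1) (hr : F.R y r.1)
    (ep : F.Ent X p) (m : (F.M r).1 ∈ X) (a1 : G.c (F.M p).1 r.1 = F.k r)
    (a2 : F.k r ≠ F.k (F.n p)) : F.k (F.n r) = F.k p := by
  have := blocked' h hp hr
  rw [ep.col hX m, a1] at this
  rcases this with d | d | d | d
  exacts [absurd d (F.k_fl p), d.symm, absurd d a2, absurd d (F.k_fl r)]

theorem acell (hX : G.Mod X) (h : ¬F.Merge x y) (hp : F.R x p.1) (hr : F.R y r.1)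
    (ep : F.Ent X p) (m : (F.M r).1 ∈ X) (a : F.k (F.n r) = F.k p) :
    (F.M (F.n r)).1 ∈ X ∧
      (G.c (F.M p).1 (F.M r).1 = F.k r ∨ G.c (F.M p).1 (F.M r).1 = F.k (F.n p)) ∧
      (G.c (F.M p).1 (F.M (F.n r)).1 = F.k (F.n p) ∨
        G.c (F.M p).1 (F.M (F.n r)).1 = F.k (F.n (F.n r))) ∧
      G.c (F.M p).1 (F.M r).1 = G.c (F.M p).1 (F.M (F.n r)).1 := by
  have hr' : F.R y (F.n r).1 := hr.step
  have m2 : (F.M (F.n r)).1 ∈ X := by
    by_contra e
    exact ent_ne hX h hp hr'.step ep ⟨e, by simpa using m⟩ (by rw [k_M, a])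
  have b1 : G.c (F.M p).1 (F.M r).1 = F.k r ∨ G.c (F.M p).1 (F.M r).1 = F.k (F.n p) := by
    have := blocked' h hp hr'
    rw [ep.col hX m2, ← a, fl_n, k_M] at this
    rcases this with d | d | d | d
    exacts [absurd (a.symm.trans d) (F.k_fl p), absurd d.symm (F.k_n _), Or.inr d, Or.inl d]
  have b2 : G.c (F.M p).1 (F.M (F.n r)).1 = F.k (F.n p) ∨
      G.c (F.M p).1 (F.M (F.n r)).1 = F.k (F.n (F.n r)) := by
    have := blocked h hp hr'
    rw [n_fst, ep.col hX m, ← a, fl_n, k_M] at this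
    rcases this with d | d | d | d
    exacts [absurd (a.symm.trans d) (F.k_fl p), absurd d (F.k_n _), Or.inl d, Or.inr d]
  refine ⟨m2, b1, b2, GCol.twin (nm_ne h hp.step hr') (nm_ne h hp.step hr'.step)
    (F.ne (F.n r)).symm ?_ ?_⟩
  · show _ ≠ F.k (F.n r)
    rcases b1 with d | d <;> rw [d]
    exacts [(F.k_n r).symm, a ▸ F.k_n p]
  · show _ ≠ F.k (F.n r)
    rcases b2 with d | d <;> rw [d]
    exacts [a ▸ F.k_n p, F.k_n _]

theorem not_both (hX : G.Mod X) (h : ¬F.Merge x y) (hp : F.R x p.1) (hq : F.R y q.1)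
    (ep : F.Ent X p) (eq : F.Ent X q) (a : F.k (F.n q) = F.k p) : F.k q ≠ F.k (F.n p) := by
  intro b
  have c1 := (acell hX h hp hq ep eq.2 a).2.1
  have c2 := (acell hX (fun e => h e.symm) hq hp eq ep.2 b.symm).2.1
  rw [← b, or_self] at c1
  rw [a, or_self, G.symm, c1] at c2
  exact ent_ne hX h hp hq ep eq c2.symm

theorem walk_step (hX : G.Mod X) (h : ¬F.Merge x y) (hp : F.R x p.1) (hr : F.R y r.1)
    (ep : F.Ent X p) (m : (F.M r).1 ∈ X) (a1 : G.c (F.M p).1 r.1 = F.k r)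
    (a2 : F.k r ≠ F.k (F.n p)) (a3 : ¬F.Pat p r) :
    F.k (F.n r) = F.k p ∧ (F.M (F.n r)).1 ∈ X ∧ G.c (F.M p).1 (F.M (F.n r)).1 = F.k r ∧
      F.k (F.n (F.n r)) = F.k r := by
  have b := sstep hX h hp hr ep m a1 a2
  obtain ⟨c1, c2, c3, c4⟩ := acell hX h hp hr ep m b
  have d := c2.resolve_right fun e => a3 ⟨a1, e, b, a2⟩
  rw [← c4, d] at c3
  exact ⟨b, c1, c4.symm.trans d, (c3.resolve_left a2).symm⟩

theorem exA {p' : V × Bool} (hX : G.Mod X) (h : ¬F.Merge x y) (hp : F.R x p.1) (hq : F.R y q.1)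
    (ep : F.Ent X p) (ep' : F.Ent X p') (eq : F.Ent X q) (hd : F.Dir p' (F.M p))
    (a : F.k (F.n q) = F.k p) (a' : F.k p' = F.k p) :
    G.c (F.M p).1 (F.M q).1 = F.k (F.n p) := by
  by_contra b
  have hp' : F.R x p'.1 := hp.step.trans hd.R.symm
  obtain ⟨c1, c2, -, -⟩ := acell hX h hp hq ep eq.2 a
  have c3 := c2.resolve_right b
  have hd' : F.Dir (F.M p') p := by simpa using hd.M
  refine h ((ex4 (F.M p') p q (F.n q) hd' (Dir_n q) (not_R h hp'.step hq)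
    (fun e => ep.1 (e ▸ ep'.2)) ?_ ?_ (fun e => F.k_n q (e ▸ rfl))
    (fun e => eq.1 (e ▸ c1)) ?_ ?_ (Or.inr rfl) ?_ ?_ (Or.inr rfl) ?_ ?_ ?_).of_R hp'.step hq)
  · rw [n_M]; exact fun e => F.k_fl p' (by rw [e, a'])
  · exact fun e => F.k_n p (by rw [e, k_M, a'])
  · rw [eq.col' hX ep'.2, fl_M]; exact not_both hX h hp' hq ep' eq (a.trans a'.symm)
  · rw [eq.col' hX ep'.2]; exact F.k_fl q
  · rwa [G.symm]
  · rw [n_fst, ep.col hX eq.2]; exact F.k_fl p
  · rw [inv, ep'.col' hX c1, a', ← a]; exact (F.k_n _).symm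
  · rw [inv, ep'.col' hX c1, n_M]; exact F.k_fl p'
  · intro _
    rw [G.symm, c3, n_fst, ep.col hX eq.2]; exact (ent_ne hX h hp hq ep eq).symm

theorem cross_two (hX : G.Mod X) (h : ¬F.Merge x y) (H : F.Two X x y R B) (hp : F.R x p.1)
    (hq : F.R y q.1) (ep : F.Ent X p) (eq : F.Ent X q) (a : F.k (F.n q) = F.k p)
    (h1 : ∀ s : V × Bool, F.R x s.1 → F.Ent X s → F.k s = R ∨ F.k s = B)
    (h2 : F.k q = R ∨ F.k q = B) : False := by
  obtain ⟨p', ep', hc⟩ := ep.partner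
  have hp' : F.R x p'.1 := hp.step.trans hc.dir.R.symm
  have b1 := ent_ne hX h hp hq ep eq
  have b2 := ent_ne hX h hp' hq ep' eq
  have b3 := h1 p hp ep
  have b4 := h1 p' hp' ep'
  have b5 := exA hX h hp hq ep ep' eq hc.dir a (by grind)
  have b6 := H _ ep.2 _ eq.2 hp.step hq.step
  have b7 := not_both hX h hp hq ep eq a
  have b8 := F.k_n p
  grind

theorem cross_pat (hX : G.Mod X) (h : ¬F.Merge x y) (H : F.Two X x y R B) (hp : F.R x p.1)
    (hq : F.R y q.1) (ep : F.Ent X p) (eq : F.Ent X q) (n1 : F.k p ≠ R) (n2 : F.k p ≠ B) :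
    ∃ r : V × Bool, F.R y r.1 ∧ (F.M r).1 ∈ X ∧ F.Pat p r := by
  by_contra hc
  have h' : ¬F.Merge y x := fun e => h e.symm
  by_cases hb : ∃ s : V × Bool, F.R y s.1 ∧ F.Ent X s ∧ F.k s ≠ F.k (F.n p)
  · clear hq eq
    obtain ⟨q, hq, eq, b⟩ := hb
    have a := ((ent_cell hX h hp hq ep eq).resolve_right b).symm
    obtain ⟨p', ep', hch⟩ := ep.partner
    have hp' : F.R x p'.1 := hp.step.trans hch.dir.R.symm
    by_cases a' : F.k p' = F.k p
    · exact hc ⟨q, hq, eq.2, eq.col' hX ep.2, exA hX h hp hq ep ep' eq hch.dir a a', a, b⟩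
    have key : ∀ t, F.Chain X p' t → (F.k t = F.k p' ∧ G.c (F.M q).1 t.1 = F.k p') ∨
        (F.k t = F.k q ∧ G.c (F.M q).1 (F.M t).1 = F.k p' ∧ F.k (F.n t) = F.k p') := by
      intro t ht
      induction ht with
      | refl => exact Or.inl ⟨rfl, ep'.col' hX eq.2⟩
      | @tail s t hs ht ih =>
        obtain ⟨rfl, ht⟩ := ht
        rcases ih with ⟨c1, c2⟩ | ⟨_, c2, c3⟩
        · have hs' : F.R x s.1 := hp'.trans (Chain.dir hs).R
          obtain ⟨d1, -, d3, d4⟩ := walk_step hX h' hq hs' eq ht (c2.trans c1.symm)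
            (by rwa [c1, a]) fun e => by
              have := H _ ht _ eq.2 hs'.step hq.step
              rw [G.symm, n_fst, e.2.1, a] at this
              tauto
          exact Or.inr ⟨d1, d3.trans c1, d4.trans c1⟩
        · exact Or.inl ⟨c3, c2⟩
    rcases key _ hch with ⟨c, _⟩ | ⟨c, _⟩ <;> rw [k_M] at c
    exacts [a' c.symm, ent_ne hX h hp hq ep eq c]
  · push Not at hb
    have b := hb q hq eq
    have c1 : G.c (F.M p).1 (F.M q).1 = F.k (F.n q) := by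
      have := H _ ep.2 _ eq.2 hp.step hq.step
      rw [G.symm] at this ⊢
      refine (acell hX h' hq hp eq ep.2 b.symm).2.1.resolve_left fun e => ?_
      rw [e] at this
      tauto
    have c2 : F.k (F.n q) ≠ F.k (F.n p) := b ▸ F.k_n q
    have := (Dir_n' q).ind (P := fun t => t.1 ∈ X ∧
      ((F.k t = F.k (F.n q) ∧ G.c (F.M p).1 t.1 = F.k (F.n q)) ∨ ((F.M t).1 ∈ X ∧
        G.c (F.M p).1 (F.M t).1 = F.k (F.n q) ∧ F.k (F.n t) = F.k (F.n q))))
      ⟨eq.2, Or.inl ⟨rfl, c1⟩⟩ fun t ht hP => by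
        have ht' : F.R y t.1 := hq.step.trans ht.R
        rcases hP with ⟨d0, ⟨d1, d2⟩ | ⟨d1, d2, d3⟩⟩
        · have m : (F.M t).1 ∈ X := by
            by_contra e
            exact c2 (by rw [← d1, ← hb (F.M t) ht'.step ⟨e, by simpa using d0⟩, k_M])
          obtain ⟨-, e2, e3, e4⟩ := walk_step hX h hp ht' ep m (d2.trans d1.symm) (by rwa [d1])
            fun e => hc ⟨t, ht', m, e⟩
          exact ⟨m, Or.inr ⟨e2, e3.trans d1, e4.trans d1⟩⟩
        · exact ⟨d1, Or.inl ⟨d3, d2⟩⟩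
    exact eq.1 this.1

theorem inside_pat (hX : G.Mod X) (h : ¬F.Merge x y) (H : F.Two X x y R B) (hp : F.R x p.1)
    (ep : F.Ent X p) (hy : ∀ v, F.R y v → v ∈ X) :
    ∃ s r : V × Bool, F.R x s.1 ∧ F.Ent X s ∧ F.k s ≠ R ∧ F.k s ≠ B ∧ F.R y r.1 ∧ F.Pat s r := by
  by_contra hc
  have key : ∀ s t : V × Bool, F.R x s.1 → F.Ent X s → F.Dir s t → F.Out y t := by
    intro s t hs es hd
    refine hd.ind (Or.inl fun z hz => es.col hX (hy z hz)) fun z hz ho => ?_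
    have hz' := hs.trans hz.R
    refine (out_step h hz' ho).resolve_right ?_
    rintro ⟨h1, r, hr, a1, a2, a3, a4⟩
    have m : (F.M z).1 ∈ X := by
      by_contra e
      exact a4 (by rw [← a1, ← a2]; exact hX _ e _ (hy _ hr) _ (hy _ hr.step))
    have b1 := H _ m _ (hy _ hr) hz'.step hr
    have b2 := H _ m _ (hy _ hr.step) hz'.step hr.step
    have b3 := F.k_n r
    have b4 := F.k_n z
    have n1 : F.k z ≠ R := by grind
    have n2 : F.k z ≠ B := by grind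
    refine hc ⟨z, r, hz', ⟨fun e => ?_, m⟩, n1, n2, hr, a1, a2, a3, a4⟩
    have := H _ e _ (hy _ hr) hz' hr
    rw [h1 _ hr] at this
    tauto
  obtain ⟨p', ep', hch⟩ := ep.partner
  exact out_fl (key p p hp ep (Dir.refl p))
    (key p' _ (hp.step.trans hch.dir.R.symm) ep' (by simpa using hch.dir.step))

theorem move (hX : G.Mod X) (h : ¬F.Merge x y) (H : F.Two X x y R B) (hp : F.R x p.1)
    (hr : F.R y r.1) (ep : F.Ent X p) (m : (F.M r).1 ∈ X) (a : F.Pat p r) (n1 : F.k p ≠ R)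
    (n2 : F.k p ≠ B) :
    ∃ F' : Fac G, F'.Ent X p ∧ F'.k p = F.k p ∧ ¬F'.Merge p.1 (F.M r).1 ∧
      {z ∈ X | F'.R p.1 z} ⊂ {z ∈ X | F.R p.1 z} := by
  obtain ⟨a1, a2, a3, a4⟩ := a
  have hn : F.R x (F.n p).1 := hp.step
  have m2 : (F.M (F.n p)).1 ∈ X := by
    by_contra e
    have e' : F.Ent X (F.M (F.n p)) := ⟨e, by simpa using ep.2⟩
    have := blocked h hn hr
    rw [n_fst, a1, e'.col hX m, k_M, fl_n, k_M, a3] at this
    rcases this with d | d | d | d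
    exacts [F.k_n r (a3.trans d.symm), F.k_fl r d, F.k_n _ d.symm, F.k_n p d]
  have b : F.k (F.n (F.n p)) ≠ F.k p := fun e => by
    have := blocked h hn hr
    have t := H _ m2 _ m hn.step hr.step
    rw [n_fst, a1, fl_n, k_M, e, a3] at this
    rcases this with d | d | d | d
    · exact F.k_n r (a3.trans d.symm)
    · exact F.k_fl r d
    · rw [d] at t; tauto
    · rw [d] at t; tauto
  obtain ⟨f1, f2, f3, f4⟩ := not_R_ne (not_R h hp hr)
  obtain ⟨g1, g2, g3, g4⟩ := not_R_ne (not_R h hn hr)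
  have c1 := ep.col hX m2
  obtain ⟨F', e1, e2, e3, e4⟩ := alt3 (F := F) p (F.n p) r (pne (F.ne p).symm) (pne f1) (pne g1)
    (pne (F.nn_ne p).symm) (pne f2) (pne g2) (F.nn_ne p).symm g2 f3.symm
    (Or.inl (c1 ▸ F.k_fl p)) (Or.inl (c1 ▸ b.symm)) (Or.inr (by simp [Z3]))
    (Or.inl (by rw [n_fst, a2, a3]; exact F.k_n p))
    (Or.inl (by rw [G.symm, a1]; exact F.k_fl r)) (Or.inr (by simp [Z3]))
    (Or.inr ⟨(F.ne p).symm, f2, F.ne _, g4⟩) (Or.inr ⟨f1, (F.ne p).symm, g3, F.ne _⟩)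
    (Or.inl (by rw [n_fst, a2, G.symm, a1]; exact a4.symm))
  have r1 : F'.R p.1 (F.M (F.n p)).1 := R_of_M e1
  have r2 : F'.R (F.M p).1 (F.M r).1 := R_of_M (p := F.n p) e2
  have r3 : F'.R r.1 (F.M p).1 := R_of_M e3
  have nm : ¬F'.Merge p.1 (F.M r).1 := by
    rintro ⟨F2, l, s⟩
    refine h (Merge.of_R ⟨F2, le_of_ports fun z => ?_, s⟩ hp hr.step)
    have s1 : F2.R p.1 (F.M p).1 := s.trans (l _ _ r2).symm
    have s2 : F2.R (F.n p).1 (F.M (F.n p)).1 := s1.symm.trans (l _ _ r1)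
    have s3 : F2.R r.1 (F.M r).1 := l _ _ (r3.trans r2)
    by_cases hz : F.Z3 p (F.n p) r z
    · rcases hz with rfl | rfl | rfl | rfl | rfl | rfl
      exacts [s1, by simpa using s1.symm, s2, by simpa using s2.symm, s3, by simpa using s3.symm]
    · exact l _ _ (R_of_M (e4 z hz))
  have nr : ¬F'.R p.1 (F.M p).1 := fun e => nm (merge_of_R (e.trans r2))
  refine ⟨F', ⟨ep.1, e1 ▸ m2⟩, by rw [k, e1, c1], nm, fun z hz => ⟨hz.1, ?_⟩,
    fun e => nr (e ⟨ep.2, R_M p⟩).2⟩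
  refine (hz.2.ind (P := fun z => F'.R p.1 z ∧ F.R p.1 z) ⟨Fac.R.refl _, Fac.R.refl _⟩ fun s hs =>
    ⟨hs.1.step, ?_⟩).2
  by_cases hs' : F.Z3 p (F.n p) r s
  · rcases hs' with e | e | e | e | e | e <;> rw [e] at hs ⊢
    · rw [e1]; exact Fac.R.step (p := F.n p) (R_M p)
    · exact absurd hs.1 nr
    · exact absurd hs.1 nr
    · rw [← e1, inv]; exact Fac.R.refl _
    · exact absurd hs.2 (not_R h hp hr)
    · exact absurd hs.2 (not_R h hp hr.step)
  · rw [e4 s hs']; exact hs.2.step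

end Fac

end Pool.Agent.Lib.MP_dd4ef3_lc
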