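import Pool.Agent.Lib.MP_dd4ef3_lc.H90Ports

/-!
Exchanges along alternating cycles.
-/

namespace Pool.Agent.Lib.MP_dd4ef3_lc

variable {V K : Type} {G : GCol V K}

/-- Two new edges are compatible. -/
def Ok2 (G : GCol V K) (a b a' b' : V) : Prop :=
  G.c a b ≠ G.c a' b' ∨ (a ≠ a' ∧ a ≠ b' ∧ b ≠ a' ∧ b ≠ b')

theorem Ok2.symm {a b a' b' : V} (h : Ok2 G a b a' b') : Ok2 G a' b' a b := by
  rcases h with h | ⟨h1, h2, h3, h4⟩
  exacts [Or.inl h.symm, Or.inr ⟨h1.symm, h3.symm, h2.symm, h4.symm⟩]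

namespace Fac

variable {F : Fac G}

theorem rewire {m : ℕ} [NeZero m] (t : Fin m → V × Bool) (hinj : Function.Injective t)
    (hm : ∀ i j, t i ≠ F.M (t j)) (hne : ∀ i, (t i).1 ≠ (F.M (t (i + 1))).1)
    (h1 : ∀ i, G.c (t i).1 (F.M (t (i + 1))).1 ≠ F.k (fl (t i)) ∨
      ∃ j, fl (t i) = t j ∨ fl (t i) = F.M (t j))
    (h2 : ∀ i, G.c (t i).1 (F.M (t (i + 1))).1 ≠ F.k (F.n (t (i + 1))) ∨
      ∃ j, F.n (t (i + 1)) = t j ∨ F.n (t (i + 1)) = F.M (t j))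
    (h3 : ∀ i j, i ≠ j →
      Ok2 G (t i).1 (F.M (t (i + 1))).1 (t j).1 (F.M (t (j + 1))).1) :
    ∃ F' : Fac G, (∀ i, F'.M (t i) = F.M (t (i + 1))) ∧
      ∀ p, ¬(∃ i, p = t i ∨ p = F.M (t i)) → F'.M p = F.M p := by
  classical
  let M' : V × Bool → V × Bool := fun p =>
    if h : ∃ i, p = t i then F.M (t (h.choose + 1))
    else if h : ∃ i, p = F.M (t (i + 1)) then t h.choose else F.M p
  have e1 : ∀ i, M' (t i) = F.M (t (i + 1)) := fun i => by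
    have h : ∃ j, t i = t j := ⟨i, rfl⟩
    simp only [M', dif_pos h, ← hinj h.choose_spec]
  have e2 : ∀ i, M' (F.M (t (i + 1))) = t i := fun i => by
    have h0 : ¬∃ j, F.M (t (i + 1)) = t j := fun ⟨j, hj⟩ => hm _ _ hj.symm
    have h : ∃ j, F.M (t (i + 1)) = F.M (t (j + 1)) := ⟨i, rfl⟩
    simp only [M', dif_neg h0, dif_pos h, ← add_right_cancel (hinj (F.M_inj h.choose_spec))]
  have e3 : ∀ p, ¬(∃ i, p = t i ∨ p = F.M (t i)) → M' p = F.M p := fun p hp => by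
    have h0 : ¬∃ j, p = t j := fun ⟨j, hj⟩ => hp ⟨j, Or.inl hj⟩
    have h : ¬∃ j, p = F.M (t (j + 1)) := fun ⟨j, hj⟩ => hp ⟨j + 1, Or.inr hj⟩
    simp only [M', dif_neg h0, dif_neg h]
  have cs : ∀ p, (∃ i, p = t i ∨ p = F.M (t i)) → ∃ i, p = t i ∨ p = F.M (t (i + 1)) := by
    rintro p ⟨i, h | h⟩
    · exact ⟨i, Or.inl h⟩
    · exact ⟨i - 1, Or.inr (by rw [sub_add_cancel]; exact h)⟩
  have col : ∀ i p, (p = t i ∨ p = F.M (t (i + 1))) →
      G.c p.1 (M' p).1 = G.c (t i).1 (F.M (t (i + 1))).1 := by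
    rintro i p (rfl | rfl)
    · rw [e1]
    · rw [e2, G.symm]
  have pcz : ∀ p, (∃ i, p = t i ∨ p = F.M (t i)) → G.c p.1 (M' p).1 ≠ G.c p.1 (M' (fl p)).1 := by
    intro p hp
    obtain ⟨i, hi⟩ := cs p hp
    rw [col i p hi]
    by_cases hq : ∃ j, fl p = t j ∨ fl p = F.M (t j)
    · obtain ⟨j, hj⟩ := cs _ hq
      have := col j _ hj
      rw [fl_fst] at this
      rw [this]
      have hv : ∀ a b : V × Bool, p = a → fl p = b → a.1 = b.1 := by
        rintro _ _ rfl rfl; rfl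
      by_cases hij : i = j
      · subst hij
        exfalso
        rcases hi with hi | hi <;> rcases hj with hj | hj
        · exact fl_ne p (hj.trans hi.symm)
        · exact hne i (hv _ _ hi hj)
        · exact hne i (hv _ _ hi hj).symm
        · exact fl_ne p (hj.trans hi.symm)
      · rcases h3 i j hij with h | ⟨a1, a2, a3, a4⟩
        · exact h
        · exfalso
          rcases hi with hi | hi <;> rcases hj with hj | hj
          exacts [a1 (hv _ _ hi hj), a2 (hv _ _ hi hj), a3 (hv _ _ hi hj), a4 (hv _ _ hi hj)]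
    · rw [e3 _ hq]
      rcases hi with rfl | rfl
      · exact (h1 i).resolve_right hq
      · exact (h2 i).resolve_right hq
  refine ⟨⟨M', fun p => ?_, fun p => ?_, fun p => ?_⟩, e1, e3⟩
  · by_cases hp : ∃ i, p = t i ∨ p = F.M (t i)
    · obtain ⟨i, rfl | rfl⟩ := cs p hp
      · rw [e1, e2]
      · rw [e2, e1]
    · rw [e3 p hp, e3, F.inv]
      rintro ⟨i, h | h⟩
      · exact hp ⟨i, Or.inr (by rw [← h, F.inv])⟩
      · exact hp ⟨i, Or.inl (F.M_inj h)⟩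
  · by_cases hp : ∃ i, p = t i ∨ p = F.M (t i)
    · obtain ⟨i, rfl | rfl⟩ := cs p hp
      · rw [e1]; exact (hne i).symm
      · rw [e2]; exact hne i
    · rw [e3 p hp]; exact F.ne p
  · by_cases hp : ∃ i, p = t i ∨ p = F.M (t i)
    · exact pcz p hp
    · by_cases hq : ∃ i, fl p = t i ∨ fl p = F.M (t i)
      · have := pcz _ hq
        rw [fl_fl, fl_fst] at this
        exact this.symm
      · rw [e3 p hp, e3 _ hq]; exact F.pc p

theorem ne_M (p : V × Bool) : p ≠ F.M p := fun h => F.ne p (congrArg Prod.fst h).symm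
theorem ne_M_comm {p q : V × Bool} (h : p ≠ F.M q) : q ≠ F.M p := fun e => h (by rw [e, F.inv])

/-- The ports touched by an exchange of three edges. -/
def Z3 (F : Fac G) (a b c p : V × Bool) : Prop :=
  p = a ∨ p = F.M a ∨ p = b ∨ p = F.M b ∨ p = c ∨ p = F.M c

/-- The ports touched by an exchange of four edges. -/
def Z4 (F : Fac G) (a b c d p : V × Bool) : Prop :=
  p = a ∨ p = F.M a ∨ p = b ∨ p = F.M b ∨ p = c ∨ p = F.M c ∨ p = d ∨ p = F.M d

theorem alt2 (a b : V × Bool) (hab : a ≠ b) (hab' : a ≠ F.M b)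
    (n1 : a.1 ≠ (F.M b).1) (n2 : b.1 ≠ (F.M a).1)
    (c1 : G.c a.1 (F.M b).1 ≠ F.k (fl a)) (c2 : G.c a.1 (F.M b).1 ≠ F.k (F.n b))
    (c3 : G.c b.1 (F.M a).1 ≠ F.k (fl b)) (c4 : G.c b.1 (F.M a).1 ≠ F.k (F.n a))
    (o : Ok2 G a.1 (F.M b).1 b.1 (F.M a).1) :
    ∃ F' : Fac G, F'.M a = F.M b ∧ F'.M b = F.M a ∧
      ∀ p, ¬(p = a ∨ p = F.M a ∨ p = b ∨ p = F.M b) → F'.M p = F.M p := by
  obtain ⟨F', e1, e2⟩ := rewire (F := F) ![a, b]
    (by intro i j; fin_cases i <;> fin_cases j <;> simp [hab, hab.symm])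
    (by intro i j; fin_cases i <;> fin_cases j <;> simp [ne_M, hab', ne_M_comm hab'])
    (by intro i; fin_cases i <;> simpa)
    (by intro i; fin_cases i; exacts [Or.inl c1, Or.inl c3])
    (by intro i; fin_cases i; exacts [Or.inl c2, Or.inl c4])
    (by
      intro i j hij
      fin_cases i <;> fin_cases j <;> first | exact absurd rfl hij | exact o | exact o.symm)
  refine ⟨F', e1 0, e1 1, fun p hp => e2 p ?_⟩
  rintro ⟨i, hi⟩
  fin_cases i <;> simp at hi <;> tauto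

theorem alt3 (a b c : V × Bool) (hab : a ≠ b) (hac : a ≠ c) (hbc : b ≠ c)
    (hab' : a ≠ F.M b) (hac' : a ≠ F.M c) (hbc' : b ≠ F.M c)
    (n1 : a.1 ≠ (F.M b).1) (n2 : b.1 ≠ (F.M c).1) (n3 : c.1 ≠ (F.M a).1)
    (c1 : G.c a.1 (F.M b).1 ≠ F.k (fl a) ∨ F.Z3 a b c (fl a))
    (c2 : G.c a.1 (F.M b).1 ≠ F.k (F.n b) ∨ F.Z3 a b c (F.n b))
    (c3 : G.c b.1 (F.M c).1 ≠ F.k (fl b) ∨ F.Z3 a b c (fl b))
    (c4 : G.c b.1 (F.M c).1 ≠ F.k (F.n c) ∨ F.Z3 a b c (F.n c))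
    (c5 : G.c c.1 (F.M a).1 ≠ F.k (fl c) ∨ F.Z3 a b c (fl c))
    (c6 : G.c c.1 (F.M a).1 ≠ F.k (F.n a) ∨ F.Z3 a b c (F.n a))
    (o1 : Ok2 G a.1 (F.M b).1 b.1 (F.M c).1) (o2 : Ok2 G a.1 (F.M b).1 c.1 (F.M a).1)
    (o3 : Ok2 G b.1 (F.M c).1 c.1 (F.M a).1) :
    ∃ F' : Fac G, F'.M a = F.M b ∧ F'.M b = F.M c ∧ F'.M c = F.M a ∧
      ∀ p, ¬F.Z3 a b c p → F'.M p = F.M p := by
  have hz : ∀ p, F.Z3 a b c p ↔ ∃ j, p = ![a, b, c] j ∨ p = F.M (![a, b, c] j) := by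
    intro p
    simp only [Z3, Fin.exists_fin_succ, Matrix.cons_val_zero, Matrix.cons_val_succ,
      IsEmpty.exists_iff, or_false, or_assoc]
  obtain ⟨F', e1, e2⟩ := rewire (F := F) ![a, b, c]
    (by
      intro i j
      fin_cases i <;> fin_cases j <;> simp [hab, hab.symm, hac, hac.symm, hbc, hbc.symm])
    (by
      intro i j
      fin_cases i <;> fin_cases j <;>
        simp [ne_M, hab', ne_M_comm hab', hac', ne_M_comm hac', hbc', ne_M_comm hbc'])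
    (by intro i; fin_cases i; exacts [n1, n2, n3])
    (by
      intro i
      fin_cases i
      exacts [c1.imp id (hz _).1, c3.imp id (hz _).1, c5.imp id (hz _).1])
    (by
      intro i
      fin_cases i
      exacts [c2.imp id (hz _).1, c4.imp id (hz _).1, c6.imp id (hz _).1])
    (by
      intro i j hij
      fin_cases i <;> fin_cases j <;> first
        | exact absurd rfl hij | exact o1 | exact o1.symm | exact o2 | exact o2.symm
        | exact o3 | exact o3.symm)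
  exact ⟨F', e1 0, e1 1, e1 2, fun p hp => e2 p fun h => hp ((hz p).2 h)⟩

theorem alt4 (a b c d : V × Bool) (hab : a ≠ b) (hac : a ≠ c) (had : a ≠ d) (hbc : b ≠ c)
    (hbd : b ≠ d) (hcd : c ≠ d) (hab' : a ≠ F.M b) (hac' : a ≠ F.M c) (had' : a ≠ F.M d)
    (hbc' : b ≠ F.M c) (hbd' : b ≠ F.M d) (hcd' : c ≠ F.M d)
    (n1 : a.1 ≠ (F.M b).1) (n2 : b.1 ≠ (F.M c).1) (n3 : c.1 ≠ (F.M d).1) (n4 : d.1 ≠ (F.M a).1)
    (c1 : G.c a.1 (F.M b).1 ≠ F.k (fl a) ∨ F.Z4 a b c d (fl a))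
    (c2 : G.c a.1 (F.M b).1 ≠ F.k (F.n b) ∨ F.Z4 a b c d (F.n b))
    (c3 : G.c b.1 (F.M c).1 ≠ F.k (fl b) ∨ F.Z4 a b c d (fl b))
    (c4 : G.c b.1 (F.M c).1 ≠ F.k (F.n c) ∨ F.Z4 a b c d (F.n c))
    (c5 : G.c c.1 (F.M d).1 ≠ F.k (fl c) ∨ F.Z4 a b c d (fl c))
    (c6 : G.c c.1 (F.M d).1 ≠ F.k (F.n d) ∨ F.Z4 a b c d (F.n d))
    (c7 : G.c d.1 (F.M a).1 ≠ F.k (fl d) ∨ F.Z4 a b c d (fl d))
    (c8 : G.c d.1 (F.M a).1 ≠ F.k (F.n a) ∨ F.Z4 a b c d (F.n a))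
    (o1 : Ok2 G a.1 (F.M b).1 b.1 (F.M c).1) (o2 : Ok2 G a.1 (F.M b).1 c.1 (F.M d).1)
    (o3 : Ok2 G a.1 (F.M b).1 d.1 (F.M a).1) (o4 : Ok2 G b.1 (F.M c).1 c.1 (F.M d).1)
    (o5 : Ok2 G b.1 (F.M c).1 d.1 (F.M a).1) (o6 : Ok2 G c.1 (F.M d).1 d.1 (F.M a).1) :
    ∃ F' : Fac G, F'.M a = F.M b ∧ F'.M b = F.M c ∧ F'.M c = F.M d ∧ F'.M d = F.M a ∧
      ∀ p, ¬F.Z4 a b c d p → F'.M p = F.M p := by
  have hz : ∀ p, F.Z4 a b c d p ↔ ∃ j, p = ![a, b, c, d] j ∨ p = F.M (![a, b, c, d] j) := by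
    intro p
    simp only [Z4, Fin.exists_fin_succ, Matrix.cons_val_zero, Matrix.cons_val_succ,
      IsEmpty.exists_iff, or_false, or_assoc]
  obtain ⟨F', e1, e2⟩ := rewire (F := F) ![a, b, c, d]
    (by
      intro i j
      fin_cases i <;> fin_cases j <;> simp [hab, hab.symm, hac, hac.symm, hbc, hbc.symm, had,
        had.symm, hbd, hbd.symm, hcd, hcd.symm])
    (by
      intro i j
      fin_cases i <;> fin_cases j <;>
        simp [ne_M, hab', ne_M_comm hab', hac', ne_M_comm hac', hbc', ne_M_comm hbc', had',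
          ne_M_comm had', hbd', ne_M_comm hbd', hcd', ne_M_comm hcd'])
    (by intro i; fin_cases i; exacts [n1, n2, n3, n4])
    (by
      intro i
      fin_cases i
      exacts [c1.imp id (hz _).1, c3.imp id (hz _).1, c5.imp id (hz _).1, c7.imp id (hz _).1])
    (by
      intro i
      fin_cases i
      exacts [c2.imp id (hz _).1, c4.imp id (hz _).1, c6.imp id (hz _).1, c8.imp id (hz _).1])
    (by
      intro i j hij
      fin_cases i <;> fin_cases j <;> first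
        | exact absurd rfl hij | exact o1 | exact o1.symm | exact o2 | exact o2.symm
        | exact o3 | exact o3.symm | exact o4 | exact o4.symm | exact o5 | exact o5.symm
        | exact o6 | exact o6.symm)
  exact ⟨F', e1 0, e1 1, e1 2, e1 3, fun p hp => e2 p fun h => hp ((hz p).2 h)⟩

theorem pne {p q : V × Bool} (h : p.1 ≠ q.1) : p ≠ q := fun e => h (e ▸ rfl)

theorem not_R_ne {p q : V × Bool} (h : ¬F.R p.1 q.1) : p.1 ≠ q.1 ∧ p.1 ≠ (F.M q).1 ∧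
    (F.M p).1 ≠ q.1 ∧ (F.M p).1 ≠ (F.M q).1 :=
  ⟨ne_of_R h (R.refl _) (R.refl _), ne_of_R h (R.refl _) (R_M _),
    ne_of_R h (R_M _) (R.refl _), ne_of_R h (R_M _) (R_M _)⟩

variable [Finite V]

/-- A cycle with only one edge removed stays connected. -/
theorem walk1 {F' : Fac G} {Z : V × Bool → Prop} (hZ : ∀ p, ¬Z p → F'.M p = F.M p)
    (a : V × Bool) (h : ∀ q, Z q → q = a ∨ q = F.M a ∨ ¬F.R a.1 q.1) :
    F'.R a.1 (F.M a).1 := by
  refine (walk hZ (Dir_n' a) fun q hq hd => Or.inl ?_).symm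
  have hd' := (Dir_n a).trans hd
  rcases h q hq with e | e | e
  · exact e
  · exact absurd (e ▸ hd') (Dir.refl a).not_M
  · exact absurd hd'.R e

/-- A cycle with two edges removed: the segment from the first to the second. -/
theorem walk2 {F' : Fac G} {Z : V × Bool → Prop} (hZ : ∀ p, ¬Z p → F'.M p = F.M p)
    {a b : V × Bool} (hab : F.Dir a b)
    (h : ∀ q, Z q → q = a ∨ q = F.M a ∨ q = b ∨ q = F.M b ∨ ¬F.R a.1 q.1) :
    F'.R (F.M a).1 b.1 := by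
  refine walk hZ (p := F.n a) ((Dir_n' a).trans hab) fun q hq hd => ?_
  have hd' := (Dir_n a).trans hd
  rcases h q hq with e | e | e | e | e
  · exact Or.inr (by rw [e])
  · exact absurd (e ▸ hd') (Dir.refl a).not_M
  · exact Or.inl e
  · exact absurd (e ▸ hd') hab.not_M
  · exact absurd hd'.R e

theorem ex2 (p q : V × Bool) (h : ¬F.R p.1 q.1) (c1 : G.c p.1 q.1 ≠ F.k (fl p))
    (c2 : G.c p.1 q.1 ≠ F.k (fl q)) (c3 : G.c (F.M p).1 (F.M q).1 ≠ F.k (F.n p))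
    (c4 : G.c (F.M p).1 (F.M q).1 ≠ F.k (F.n q)) : F.Merge p.1 q.1 := by
  obtain ⟨d1, d2, d3, d4⟩ := not_R_ne h
  obtain ⟨F', e1, e2, e3⟩ := alt2 (F := F) p (F.M q) (pne d2) (by simpa using pne d1)
    (by simpa using d1) d4.symm (by simpa using c1) (by simpa using c2)
    (by rw [G.symm]; simpa using c4) (by rw [G.symm]; exact c3)
    (Or.inr ⟨d2, (F.ne p).symm, by simpa using (F.ne q).symm, by simpa using d3.symm⟩)
  rw [F.inv] at e1 e3
  have r1 := walk1 e3 p (by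
    rintro _ (rfl | rfl | rfl | rfl)
    exacts [Or.inl rfl, Or.inr (Or.inl rfl), Or.inr (Or.inr fun e => h e.step'),
      Or.inr (Or.inr h)])
  have r2 := walk1 e3 q (by
    rintro _ (rfl | rfl | rfl | rfl)
    exacts [Or.inr (Or.inr fun e => h e.symm), Or.inr (Or.inr fun e => h e.step'.symm),
      Or.inr (Or.inl rfl), Or.inl rfl])
  refine ⟨F', le_of_ports fun z => ?_, R_of_M e1⟩
  by_cases hz : z = p ∨ z = F.M p ∨ z = F.M q ∨ z = q
  · rcases hz with rfl | rfl | rfl | rfl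
    exacts [r1, by simpa using r1.symm, by simpa using r2.symm, r2]
  · exact R_of_M (e3 z hz)

theorem merge3 (a b c : V × Bool) (hab : ¬F.R a.1 b.1) (hac : ¬F.R a.1 c.1) (hbc : ¬F.R b.1 c.1)
    (c1 : G.c a.1 (F.M b).1 ≠ F.k (fl a)) (c2 : G.c a.1 (F.M b).1 ≠ F.k (F.n b))
    (c3 : G.c b.1 (F.M c).1 ≠ F.k (fl b)) (c4 : G.c b.1 (F.M c).1 ≠ F.k (F.n c))
    (c5 : G.c c.1 (F.M a).1 ≠ F.k (fl c)) (c6 : G.c c.1 (F.M a).1 ≠ F.k (F.n a)) :
    F.Merge a.1 b.1 := by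
  obtain ⟨d1, d2, d3, d4⟩ := not_R_ne hab
  obtain ⟨f1, f2, f3, f4⟩ := not_R_ne hac
  obtain ⟨g1, g2, g3, g4⟩ := not_R_ne hbc
  obtain ⟨F', e1, e2, e3, e4⟩ := alt3 (F := F) a b c (pne d1) (pne f1) (pne g1) (pne d2) (pne f2)
    (pne g2) d2 g2 f3.symm (Or.inl c1) (Or.inl c2) (Or.inl c3) (Or.inl c4) (Or.inl c5) (Or.inl c6)
    (Or.inr ⟨d1, f2, F.ne b, g4⟩) (Or.inr ⟨f1, (F.ne a).symm, g3, d4.symm⟩)
    (Or.inr ⟨g1, d3.symm, F.ne c, f4.symm⟩)
  have r1 := walk1 e4 a (by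
    rintro _ (rfl | rfl | rfl | rfl | rfl | rfl)
    exacts [Or.inl rfl, Or.inr (Or.inl rfl), Or.inr (Or.inr hab),
      Or.inr (Or.inr fun e => hab e.step'), Or.inr (Or.inr hac),
      Or.inr (Or.inr fun e => hac e.step')])
  have r2 := walk1 e4 b (by
    rintro _ (rfl | rfl | rfl | rfl | rfl | rfl)
    exacts [Or.inr (Or.inr fun e => hab e.symm), Or.inr (Or.inr fun e => hab e.step'.symm),
      Or.inl rfl, Or.inr (Or.inl rfl), Or.inr (Or.inr hbc),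
      Or.inr (Or.inr fun e => hbc e.step')])
  have r3 := walk1 e4 c (by
    rintro _ (rfl | rfl | rfl | rfl | rfl | rfl)
    exacts [Or.inr (Or.inr fun e => hac e.symm), Or.inr (Or.inr fun e => hac e.step'.symm),
      Or.inr (Or.inr fun e => hbc e.symm), Or.inr (Or.inr fun e => hbc e.step'.symm),
      Or.inl rfl, Or.inr (Or.inl rfl)])
  refine ⟨F', le_of_ports fun z => ?_, (R_of_M e1).trans r2.symm⟩
  by_cases hz : F.Z3 a b c z
  · rcases hz with rfl | rfl | rfl | rfl | rfl | rfl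
    exacts [r1, by simpa using r1.symm, r2, by simpa using r2.symm, r3, by simpa using r3.symm]
  · exact R_of_M (e4 z hz)

/-- Exchange along a chord between the heads of two edges of one cycle. -/
theorem chord3 (r s q : V × Bool) (hrs : F.Dir r s) (hne : r ≠ s) (hq : ¬F.R r.1 q.1)
    (n1 : F.n r ≠ s) (n2 : F.n s ≠ r)
    (c1 : G.c (F.M r).1 (F.M s).1 ≠ F.k (F.n r)) (c2 : G.c (F.M r).1 (F.M s).1 ≠ F.k (F.n s))
    (c3 : G.c s.1 q.1 ≠ F.k (fl s)) (c4 : G.c s.1 q.1 ≠ F.k (fl q))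
    (c5 : G.c (F.M q).1 r.1 ≠ F.k (F.n q)) (c6 : G.c (F.M q).1 r.1 ≠ F.k (fl r)) :
    F.Merge r.1 q.1 := by
  have hq' : ¬F.R s.1 q.1 := fun e => hq (hrs.R.trans e)
  obtain ⟨f1, f2, f3, f4⟩ := not_R_ne hq
  obtain ⟨g1, g2, g3, g4⟩ := not_R_ne hq'
  have d1 : r.1 ≠ s.1 := fun e => hne (hrs.eq_of_fst (Dir.refl r) e)
  have d2 : (F.M r).1 ≠ (F.M s).1 := fun e =>
    hne (F.n_inj (hrs.step.eq_of_fst (Dir_n r) e))
  have d3 : (F.M r).1 ≠ s.1 := fun e => n1 (hrs.eq_of_fst (Dir_n r) e)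
  have d4 : (F.M s).1 ≠ r.1 := fun e => n2 ((Dir.refl r).eq_of_fst hrs.step e)
  obtain ⟨F', e1, e2, e3, e4⟩ := alt3 (F := F) (F.M r) s (F.M q) (pne d3) (pne f4) (pne g2)
    (pne d2) (by simpa using pne f3) (by simpa using pne g1) d2 (by simpa using g1)
    (by simpa using f2.symm) (Or.inl (by simpa using c1)) (Or.inl c2)
    (Or.inl (by simpa using c3)) (Or.inl (by simpa using c4)) (Or.inl (by simpa using c5))
    (Or.inl (by simpa using c6)) (Or.inr ⟨d3, by simpa using f3, F.ne s, by simpa using g3⟩)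
    (Or.inr ⟨f4, by simpa using F.ne r, g4, by simpa using d4⟩)
    (Or.inr ⟨g2, by simpa using d1.symm, by simpa using (F.ne q).symm, by simpa using f1.symm⟩)
  simp only [Z3, inv] at e2 e3 e4
  have r1 := walk2 e4 hrs (by
    rintro _ (rfl | rfl | rfl | rfl | rfl | rfl)
    exacts [Or.inr (Or.inl rfl), Or.inl rfl, Or.inr (Or.inr (Or.inl rfl)),
      Or.inr (Or.inr (Or.inr (Or.inl rfl))), Or.inr (Or.inr (Or.inr (Or.inr fun e => hq e.step'))),
      Or.inr (Or.inr (Or.inr (Or.inr hq)))])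
  have r3 := walk1 e4 q (by
    rintro _ (rfl | rfl | rfl | rfl | rfl | rfl)
    exacts [Or.inr (Or.inr fun e => hq e.step'.symm), Or.inr (Or.inr fun e => hq e.symm),
      Or.inr (Or.inr fun e => hq' e.symm), Or.inr (Or.inr fun e => hq' e.step'.symm),
      Or.inr (Or.inl rfl), Or.inl rfl])
  have a1 : F'.R s.1 r.1 := ((R_of_M e2).trans r3).trans (R_of_M e3)
  have a2 : F'.R r.1 (F.M r).1 := (r1.trans a1).symm
  have a3 : F'.R s.1 (F.M s).1 := r1.symm.trans (R_of_M e1)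
  refine ⟨F', le_of_ports fun z => ?_, a1.symm.trans (R_of_M e2)⟩
  by_cases hz : z = F.M r ∨ z = r ∨ z = s ∨ z = F.M s ∨ z = F.M q ∨ z = q
  · rcases hz with rfl | rfl | rfl | rfl | rfl | rfl
    exacts [by simpa using a2.symm, a2, a3, by simpa using a3.symm, by simpa using r3.symm, r3]
  · exact R_of_M (e4 z hz)

/-- Two paths of one cycle are inserted into two edges of another cycle. -/
theorem ex4 (a b d e : V × Bool) (hab : F.Dir a b) (hde : F.Dir d e) (h : ¬F.R a.1 d.1)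
    (n0 : a ≠ b) (n1 : F.n a ≠ b) (n2 : F.n b ≠ a) (n3 : d ≠ e) (n4 : F.n e ≠ d)
    (c1 : G.c a.1 d.1 ≠ F.k (fl a)) (c2 : G.c a.1 d.1 ≠ F.k (fl d))
    (c3 : G.c (F.M d).1 (F.M b).1 ≠ F.k (F.n d) ∨ F.n d = e)
    (c4 : G.c (F.M d).1 (F.M b).1 ≠ F.k (F.n b))
    (c5 : G.c b.1 e.1 ≠ F.k (fl b)) (c6 : G.c b.1 e.1 ≠ F.k (fl e) ∨ F.n d = e)
    (c7 : G.c (F.M e).1 (F.M a).1 ≠ F.k (F.n e)) (c8 : G.c (F.M e).1 (F.M a).1 ≠ F.k (F.n a))
    (c9 : F.n d = e → G.c (F.M d).1 (F.M b).1 ≠ G.c b.1 e.1) : F.Merge a.1 d.1 := by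
  have h2 : ¬F.R a.1 e.1 := fun x => h (x.trans hde.R.symm)
  have h3 : ¬F.R b.1 d.1 := fun x => h (hab.R.trans x)
  have h4 : ¬F.R b.1 e.1 := fun x => h2 (hab.R.trans x)
  obtain ⟨f1, f2, f3, f4⟩ := not_R_ne h
  obtain ⟨g1, g2, g3, g4⟩ := not_R_ne h2
  obtain ⟨i1, i2, i3, i4⟩ := not_R_ne h3
  obtain ⟨j1, j2, j3, j4⟩ := not_R_ne h4
  have d1 : a.1 ≠ b.1 := fun x => n0 (hab.eq_of_fst (Dir.refl a) x)
  have d2 : (F.M a).1 ≠ (F.M b).1 := fun x => n0 (F.n_inj (hab.step.eq_of_fst (Dir_n a) x))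
  have d3 : (F.M a).1 ≠ b.1 := fun x => n1 (hab.eq_of_fst (Dir_n a) x)
  have d4 : (F.M b).1 ≠ a.1 := fun x => n2 ((Dir.refl a).eq_of_fst hab.step x)
  have k1 : d.1 ≠ e.1 := fun x => n3 (hde.eq_of_fst (Dir.refl d) x)
  have k2 : (F.M d).1 ≠ (F.M e).1 := fun x => n3 (F.n_inj (hde.step.eq_of_fst (Dir_n d) x))
  have k4 : (F.M e).1 ≠ d.1 := fun x => n4 ((Dir.refl d).eq_of_fst hde.step x)
  obtain ⟨F', e1, e2, e3, e4, e5⟩ := alt4 (F := F) a (F.M d) b (F.M e) (pne f2) n0 (pne g2)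
    (pne i2.symm) (pne k2) (pne j2) (by simpa using pne f1) hab.ne_M (by simpa using pne g1)
    (pne i4.symm) (by simpa using hde.symm.ne_M.symm) (by simpa using pne j1)
    (by simpa using f1) i4.symm (by simpa using j1) g4.symm
    (Or.inl (by simpa using c1)) (Or.inl (by simpa using c2))
    (c3.imp id fun x => by simp [Z4, x]) (Or.inl c4) (Or.inl (by simpa using c5))
    (c6.imp (by simp) fun x => by simp [Z4, ← x]) (Or.inl c7) (Or.inl c8)
    (Or.inr ⟨f2, d4.symm, by simpa using (F.ne d).symm, by simpa using i3.symm⟩)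
    (Or.inr ⟨d1, by simpa using g1, by simpa using i1.symm, by simpa using k1⟩)
    (Or.inr ⟨g2, (F.ne a).symm, by simpa using k4.symm, by simpa using f3.symm⟩)
    (by
      by_cases x : F.n d = e
      · exact Or.inl (by simpa using c9 x)
      · exact Or.inr ⟨i2.symm, by simpa using fun y => x (hde.eq_of_fst (Dir_n d) y), F.ne b,
          by simpa using j3⟩)
    (Or.inr ⟨k2, f4.symm, j4, d2.symm⟩)
    (Or.inr ⟨j2, d3.symm, by simpa using (F.ne e).symm, by simpa using g3.symm⟩)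
  simp only [Z4, inv] at e1 e3 e5
  have m1 : ¬F.R a.1 (F.M d).1 := fun x => h x.step'
  have m2 : ¬F.R a.1 (F.M e).1 := fun x => h2 x.step'
  have m3 : ¬F.R b.1 (F.M d).1 := fun x => h3 x.step'
  have m4 : ¬F.R b.1 (F.M e).1 := fun x => h4 x.step'
  have m5 : ¬F.R d.1 a.1 := fun x => h x.symm
  have m6 : ¬F.R d.1 b.1 := fun x => h3 x.symm
  have m7 : ¬F.R d.1 (F.M a).1 := fun x => h x.step'.symm
  have m8 : ¬F.R d.1 (F.M b).1 := fun x => h3 x.step'.symm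
  have r1 := walk2 e5 hab (by
    rintro q (x | x | x | x | x | x | x | x) <;> simp [x, h, h2, m1, m2])
  have r2 := walk2 e5 hab.symm (by
    rintro q (x | x | x | x | x | x | x | x) <;> simp [x, h3, h4, m3, m4])
  have r3 := walk2 e5 hde (by
    rintro q (x | x | x | x | x | x | x | x) <;> simp [x, m5, m6, m7, m8])
  have a1 := R_of_M e1
  have a2 := R_of_M e2
  have a3 := R_of_M e3
  have a4 := R_of_M e4
  have b1 : F'.R a.1 (F.M b).1 := r2.symm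
  have b2 : F'.R a.1 (F.M d).1 := b1.trans a2.symm
  have b3 : F'.R a.1 e.1 := b2.trans r3
  have b4 : F'.R a.1 b.1 := b3.trans a3.symm
  have b5 : F'.R a.1 (F.M a).1 := b4.trans r1.symm
  have b6 : F'.R a.1 (F.M e).1 := b5.trans a4.symm
  refine ⟨F', le_of_ports fun z => ?_, a1⟩
  by_cases hz : z = a ∨ z = F.M a ∨ z = F.M d ∨ z = d ∨ z = b ∨ z = F.M b ∨ z = F.M e ∨ z = e
  · rcases hz with rfl | rfl | rfl | rfl | rfl | rfl | rfl | rfl
    exacts [b5, by simpa using b5.symm, by simpa using b2.symm.trans a1, a1.symm.trans b2,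
      b4.symm.trans b1, by simpa using b1.symm.trans b4, by simpa using b6.symm.trans b3,
      b3.symm.trans b6]
  · exact R_of_M (e5 z hz)

end Fac

end Pool.Agent.Lib.MP_dd4ef3_lc
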