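import Pool.Agent.Lib.MP_dd4ef3_lc.H90Star

/-!
Counting, gluing and the main theorem in the language of ports.
-/

namespace Pool.Agent.Lib.MP_dd4ef3_lc

variable {V K : Type} {G : GCol V K}

namespace Fac

variable {F F' : Fac G} {T : Set V} {y : V} {ρ σ : K} {p q a b : V × Bool}

theorem glue (cl : ∀ u ∈ T, ∀ v, F.R u v → v ∈ T) {r s : V × Bool}
    (er : F'.Ent T r) (es : F'.Ent T s) (hne : r ≠ s) (all : ∀ t, F'.Ent T t → t = r ∨ t = s)
    (ha : a.1 ∉ T) (c1 : G.c a.1 (F'.M s).1 = F'.k s) (c2 : F'.k s ≠ F.k (fl a))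
    (c3 : G.c (F.M a).1 (F'.M r).1 = F'.k r) (c4 : F'.k r ≠ F.k (F.n a)) :
    ∃ F3 : Fac G, F3.M a = F'.M s ∧
      ∀ z, ¬(z.1 ∈ T ∨ z = a ∨ z = F.M a) → F3.M z = F.M z := by
  classical
  have out : ∀ z : V × Bool, z.1 ∉ T → (F.M z).1 ∉ T := fun z h e => h (cl _ e _ (R_M' z))
  have ha' := out a ha
  have n1 : F'.M r ≠ F'.M s := fun e => hne (F'.M_inj e)
  have n2 : F.M a ≠ a := (ne_M a).symm
  let M3 : V × Bool → V × Bool := fun z =>
    if z.1 ∈ T then (if z = F'.M s then a else if z = F'.M r then F.M a else F'.M z)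
    else (if z = a then F'.M s else if z = F.M a then F'.M r else F.M z)
  have e1 : M3 a = F'.M s := by simp [M3, ha]
  have e2 : M3 (F.M a) = F'.M r := by simp [M3, ha', n2]
  have e3 : M3 (F'.M s) = a := by simp [M3, es.2]
  have e4 : M3 (F'.M r) = F.M a := by simp [M3, er.2, n1]
  have e5 : ∀ z, z.1 ∉ T → z ≠ a → z ≠ F.M a → M3 z = F.M z := fun z h1 h2 h3 => by
    simp [M3, h1, h2, h3]
  have e6 : ∀ z, z.1 ∈ T → z ≠ F'.M s → z ≠ F'.M r → M3 z = F'.M z := fun z h1 h2 h3 => by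
    simp [M3, h1, h2, h3]
  have cs : ∀ z : V × Bool, z = a ∨ z = F.M a ∨ z = F'.M s ∨ z = F'.M r ∨
      (z.1 ∉ T ∧ z ≠ a ∧ z ≠ F.M a) ∨ (z.1 ∈ T ∧ z ≠ F'.M s ∧ z ≠ F'.M r) := fun z => by tauto
  have kT : ∀ z : V × Bool, z.1 ∈ T → G.c z.1 (M3 z).1 = F'.k z := fun z hz => by
    rcases cs z with e | e | e | e | e | e
    · exact absurd (e ▸ hz) ha
    · exact absurd (e ▸ hz) ha'
    · rw [e, e3, G.symm, c1, k_M]
    · rw [e, e4, G.symm, c3, k_M]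
    · exact absurd hz e.1
    · rw [e6 z hz e.2.1 e.2.2, k_def]
  have pS : ∀ z : V × Bool, z = a ∨ z = F.M a → G.c z.1 (M3 z).1 ≠ G.c z.1 (M3 (fl z)).1 := by
    rintro z (rfl | rfl)
    · rw [e1, c1, e5 (fl z) ha (fl_ne z) (pne (p := fl z) (F.ne z).symm)]; exact c2
    · rw [e2, c3, e5 (fl (F.M a)) ha' (pne (p := fl (F.M a)) (F.ne a)) (fl_ne _)]; exact c4
  refine ⟨⟨M3, fun z => ?_, fun z => ?_, fun z => ?_⟩, e1, fun z hz => ?_⟩
  · rcases cs z with e | e | e | e | ⟨h1, h2, h3⟩ | ⟨h1, h2, h3⟩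
    · rw [e, e1, e3]
    · rw [e, e2, e4]
    · rw [e, e3, e1]
    · rw [e, e4, e2]
    · rw [e5 z h1 h2 h3, e5 _ (out z h1) (ne_M_comm h3).symm
        (fun e => h2 (F.M_inj e)), inv]
    · have m : (F'.M z).1 ∈ T := by
        by_contra e
        rcases all (F'.M z) ⟨e, by simpa using h1⟩ with e' | e'
        exacts [h3 (by rw [← e', inv]), h2 (by rw [← e', inv])]
      rw [e6 z h1 h2 h3, e6 _ m (fun e => es.1 (F'.M_inj e ▸ h1))
        (fun e => er.1 (F'.M_inj e ▸ h1)), inv]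
  · rcases cs z with e | e | e | e | ⟨h1, h2, h3⟩ | ⟨h1, h2, h3⟩
    · rw [e, e1]; exact (ne_of_mem ha es.2).symm
    · rw [e, e2]; exact (ne_of_mem ha' er.2).symm
    · rw [e, e3]; exact ne_of_mem ha es.2
    · rw [e, e4]; exact ne_of_mem ha' er.2
    · rw [e5 z h1 h2 h3]; exact F.ne z
    · rw [e6 z h1 h2 h3]; exact F'.ne z
  · by_cases hz : z.1 ∈ T
    · rw [kT z hz]; exact (kT (fl z) hz).symm ▸ F'.k_fl z
    by_cases h1 : z = a ∨ z = F.M a
    · exact pS z h1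
    by_cases h2 : fl z = a ∨ fl z = F.M a
    · have := pS _ h2
      rw [fl_fl] at this
      exact this.symm
    push Not at h1 h2
    rw [e5 z hz h1.1 h1.2, e5 (fl z) hz h2.1 h2.2]
    exact F.pc z
  · push Not at hz
    exact e5 z hz.1 hz.2.1 hz.2.2

theorem exists_port (F : Fac G) (x : V) (c : K) : ∃ r : V × Bool, r.1 = x ∧ F.k r ≠ c := by
  by_cases e : F.k (x, true) = c
  exacts [⟨fl (x, true), rfl, e ▸ (F.k_fl _).symm⟩, ⟨_, rfl, e⟩]

variable [Finite V]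

theorem card_le (F : Fac G) (g : V → K) {A B : Set V}
    (h : ∀ x ∈ A, ∃ r : V × Bool, r.1 = x ∧ (F.M r).1 ∈ B ∧ F.k r = g (F.M r).1) :
    A.ncard ≤ B.ncard := by
  choose! r h1 h2 h3 using h
  refine Set.ncard_le_ncard_of_injOn (fun x => (F.M (r x)).1) h2 fun s hs t ht e => ?_
  rw [← h1 s hs, ← h1 t ht,
    F.M_inj (F.eq_of_k e (by rw [k_M, k_M, h3 s hs, h3 t ht]; exact congrArg g e))]

namespace Ctx

variable (C : Ctx F T y ρ σ)

include C

theorem count (F' : Fac G) (A B : Set V) (hA : ∀ x ∈ A, x ∉ T)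
    (h1 : ∀ r : V × Bool, r.1 ∈ A → ¬Free G T y r.1 (F'.M r).1)
    (h2 : ∀ x ∈ A, ∀ v, v ∉ T → G.c v y ≠ G.c x y → v ∈ B) :
    A.ncard ≤ {v ∈ B | ∀ r, F'.Ent T r → r.1 ≠ v}.ncard := by
  refine card_le F' (fun v => G.c v y) fun x hx => ?_
  obtain ⟨r, rfl, hr⟩ := F'.exists_port x (G.c x y)
  have a1 : (F'.M r).1 ∉ T := fun e => hr (C.col (hA _ hx) e)
  have a2 : G.c (F'.M r).1 y ≠ G.c r.1 y := fun e =>
    h1 r hx ⟨hA _ hx, a1, (F'.ne r).symm, e.symm, hr⟩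
  have a3 : F'.k r = G.c (F'.M r).1 y := (C.deg (hA _ hx) a1 a2.symm).resolve_left hr
  refine ⟨r, rfl, ⟨h2 _ hx _ a1 a2, fun t ht e => hA _ hx ?_⟩, a3⟩
  have := F'.eq_of_k e (by rw [k_M, a3, ← e, ← ht.col C.md C.hy])
  simpa [this] using ht.2

theorem no_cross (F' : Fac G) {r : V × Bool} (er : F'.Ent T r) : False := by
  by_cases hs : ∃ p, F.O T y p ∧ F.k p ≠ G.c p.1 y
  swap
  · have nf : ∀ u v, ¬Free G T y u v := fun u v h => by
      obtain ⟨p, h1, h2, -⟩ := C.free_star h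
      exact hs ⟨p, h1, h2⟩
    have a1 := C.count F' {x | x ∉ T ∧ G.c x y = G.c r.1 y} {x | x ∉ T ∧ G.c x y ≠ G.c r.1 y}
      (fun _ h => h.1) (fun _ _ => nf _ _) fun x hx v hv e => ⟨hv, hx.2 ▸ e⟩
    have a2 := C.count F' {x | x ∉ T ∧ G.c x y ≠ G.c r.1 y} {x | x ∉ T ∧ G.c x y = G.c r.1 y}
      (fun _ h => h.1) (fun _ _ => nf _ _) fun x hx v hv e => ⟨hv, by
        have := C.two _ hx.1
        have := C.two _ hv
        have := C.two _ er.1
        have := hx.2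
        grind⟩
    exact (a1.trans (Set.ncard_le_ncard (Set.sep_subset _ _) (Set.toFinite _))).not_gt
      (a2.trans_lt (Set.ncard_lt_ncard ⟨Set.sep_subset _ _, fun e =>
        (e (a := r.1) ⟨er.1, rfl⟩).2 r er rfl⟩ (Set.toFinite _)))
  obtain ⟨p, hp, sp⟩ := hs
  have sh := C.star_head hp sp
  set P : Set V := {x | x ∉ T ∧ G.c x y = G.c p.1 y} with hP
  set Q : Set V := {x | x ∉ T ∧ G.c x y ≠ G.c p.1 y} with hQ
  have pq : ∀ x ∈ Q, ∀ v, v ∉ T → G.c v y ≠ G.c x y → v ∈ P := fun x hx v hv e => ⟨hv, by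
    have := C.two _ hx.1
    have := C.two _ hv
    have := C.two _ hp.1
    have := hx.2
    grind⟩
  have fp : ∀ u v, Free G T y u v → u ∈ P := fun u v h => ⟨h.1, by
    rcases (C.free_of hp sp h).2 with e | e | e | e
    exacts [e ▸ rfl, h.2.2.2.1.trans (e ▸ rfl), e ▸ sh, h.2.2.2.1.trans (e ▸ sh)]⟩
  have b1 : Q.ncard ≤ (P \ {p.1}).ncard := card_le F (fun v => G.c v y) fun x hx => by
    obtain ⟨a, ha, rfl⟩ := C.tail hx.1
    have pa : a ≠ p := fun e => hx.2 (e ▸ sh)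
    have ia := C.io_of hp sp ha pa
    exact ⟨F.M a, rfl, by simpa using ⟨pq _ hx _ ha.1 (C.io_ne ha ia).symm,
      fun e => pa (hp.uniq ha e)⟩, by simpa using ia⟩
  have b2 : (P \ {(F.M p).1}).ncard ≤ Q.ncard := card_le F (fun v => G.c v y) fun x hx => by
    obtain ⟨a, ha, rfl⟩ := C.tail hx.1.1
    have pa : a ≠ p := fun e => hx.2 (e ▸ rfl)
    have ia := C.io_of hp sp ha pa
    exact ⟨F.M a, rfl, by simpa using ⟨ha.1, hx.1.2 ▸ (C.io_ne ha ia).symm⟩, by simpa using ia⟩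
  have b3 := C.count F' Q P (fun _ h => h.1) (fun t ht e => ht.2 (fp _ _ e).2) pq
  obtain ⟨u, v, huv⟩ : ∃ u v, ∀ t : V × Bool, Free G T y t.1 (F'.M t).1 → t.1 = u ∨ t.1 = v := by
    by_cases e : ∃ t : V × Bool, Free G T y t.1 (F'.M t).1
    swap
    · exact ⟨y, y, fun t ht => absurd ⟨t, ht⟩ e⟩
    obtain ⟨s, hs⟩ := e
    refine ⟨s.1, (F'.M s).1, fun t ht => ?_⟩
    have k1 : F'.k t = F'.k s := (C.free_of hp sp ht).1.trans (C.free_of hp sp hs).1.symm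
    rcases C.free_meet hp sp ht hs with e | e | e | e
    · exact Or.inl e
    · exact Or.inr e
    · exact Or.inr (by rw [← F'.eq_of_k e (by rwa [k_M]), inv])
    · exact Or.inl (by rw [F'.M_inj (F'.eq_of_k e (by rwa [k_M, k_M]))])
  have b4 := C.count F' (P \ {u, v}) Q (fun _ h => h.1.1) (fun t ht e => ht.2 (huv t e))
    fun x hx v hv e => ⟨hv, hx.1.2 ▸ e⟩
  have b5 := Set.ncard_sdiff_singleton_add_one (s := P) (a := p.1) ⟨hp.1, rfl⟩
  have b6 := Set.ncard_sdiff_singleton_add_one (s := P) (a := (F.M p).1) ⟨(C.o_n hp).1, sh⟩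
  have b7 : P.ncard ≤ (P \ {u, v}).ncard + 2 :=
    (Set.ncard_le_ncard_sdiff_add_ncard P {u, v}).trans
      (Nat.add_le_add_left ((Set.ncard_insert_le _ _).trans (by simp)) _)
  have two : ∀ B : Set V, B.ncard ≤ {v ∈ B | ∀ r, F'.Ent T r → r.1 ≠ v}.ncard + 1 →
      ∀ s t, F'.Ent T s → F'.Ent T t → s.1 ∈ B → t.1 ∈ B → s.1 = t.1 := by
    intro B hB s t es et hs ht
    by_contra e
    have c1 := Set.ncard_sdiff_singleton_add_one hs
    have c2 := Set.ncard_sdiff_singleton_add_one (s := B \ {s.1}) ⟨ht, Ne.symm e⟩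
    have c3 : {v ∈ B | ∀ r, F'.Ent T r → r.1 ≠ v}.ncard ≤ ((B \ {s.1}) \ {t.1}).ncard :=
      Set.ncard_le_ncard fun z hz => ⟨⟨hz.1, (hz.2 s es).symm⟩, (hz.2 t et).symm⟩
    omega
  have ent : ∀ s t, F'.Ent T s → F'.Ent T t → s.1 = t.1 → s = t := fun s t es et e =>
    F'.eq_of_k e (by rw [← es.col C.md C.hy, ← et.col C.md C.hy, e])
  have tP := fun s t es et hs ht => ent s t es et (two P (by omega) s t es et hs ht)
  have tQ := fun s t es et hs ht => ent s t es et (two Q (by omega) s t es et hs ht)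
  have cs : ∀ s, F'.Ent T s → s.1 ∈ P ∨ s.1 ∈ Q := fun s es =>
    (em _).imp (fun e => ⟨es.1, e⟩) fun e => ⟨es.1, e⟩
  obtain ⟨s, t, es, et, hs, ht⟩ : ∃ s t, F'.Ent T s ∧ F'.Ent T t ∧ s.1 ∈ P ∧ t.1 ∈ Q := by
    obtain ⟨r', er', hc⟩ := er.partner
    have : r' ≠ r := fun e => (Dir.refl r).not_M (e ▸ hc.dir)
    rcases cs r er with a | a <;> rcases cs r' er' with b | b
    exacts [absurd (tP _ _ er' er b a) this, ⟨r, r', er, er', a, b⟩, ⟨r', r, er', er, b, a⟩,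
      absurd (tQ _ _ er' er b a) this]
  obtain ⟨a, ha, ea⟩ := C.tail hp.1
  obtain rfl := (C.o_n ha).uniq hp ea.symm
  have ia := C.star_pred ha sp
  have ks : F'.k s = G.c (F.n a).1 y := (es.col C.md C.hy).symm.trans hs.2
  have kt : F'.k t = G.c a.1 y := by
    have := et.col C.md C.hy
    have := C.io_ne ha ia
    have := C.two _ ha.1
    have := C.two _ hp.1
    have := C.two _ ht.1
    have := ht.2
    simp only [n_fst] at *
    grind
  obtain ⟨F3, e1, e2⟩ := glue C.cl es et (fun e => ht.2 (e ▸ hs.2))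
    (fun z ez => (cs z ez).imp (fun e => tP _ _ ez es e hs) fun e => tQ _ _ ez et e ht) ha.1
    (by rw [kt, C.col ha.1 et.2]) (by rw [kt, ← ia]; exact F.k_fl a)
    (by rw [ks]; exact C.col hp.1 es.2) (by rw [ks]; exact sp.symm)
  refine C.fin e2 ?_ ha et.2 (R_of_M e1) fun F2 l _ hT z hz ho => ?_
  · rintro z (e | e | e) <;> simp [e, ha]
  · rcases hz with e | e | e
    · exact absurd e ho.1
    · rw [e]; exact (hT _ et.2).trans (l _ _ (R_of_M e1)).symm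
    · exact absurd (e ▸ ho) (C.not_M ha)

end Ctx

theorem ham_of_cross (F0 : Fac G) (h : ∀ T : Set V, G.Mod T → T.Nonempty → T ≠ Set.univ →
    ∃ F' : Fac G, ∃ r, F'.Ent T r) : ∃ F : Fac G, ∀ x y, F.R x y := by
  obtain ⟨F, -, mx⟩ := F0.exists_max
  refine ⟨F, fun x y => ?_⟩
  by_contra hxy
  obtain ⟨T, ⟨m, ⟨t, ht⟩, hne, cl⟩, hmax⟩ := Set.exists_max_image
    {T : Set V | G.Mod T ∧ T.Nonempty ∧ T ≠ Set.univ ∧ ∀ u ∈ T, ∀ v, F.R u v → v ∈ T} Set.ncard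
    (Set.toFinite _) (exists_closed mx hxy)
  obtain ⟨F', r, er⟩ := h T m ⟨t, ht⟩ hne
  obtain ⟨ρ, σ, hc⟩ := GCol.two_col (G := G) (Set.mem_univ x) (Set.mem_univ y)
    (ne_of_R hxy (R.refl _) (R.refl _))
  refine Ctx.no_cross (ρ := ρ) (σ := σ) ⟨mx, m, ht, cl, fun u hu => ?_⟩ F' er
  by_contra e
  push Not at e
  have m' := GCol.comp_mod (G := G) (γ := G.c u t) (fun _ e => absurd trivial e) (Set.mem_univ u)
  have sub : T ⊆ G.comp Set.univ (G.c u t) u := fun z hz =>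
    GCol.comp_step trivial (GCol.mem_comp u) trivial (ne_of_mem hu hz) (m u hu z hz t ht)
  refine (hmax _ ⟨m', ⟨u, GCol.mem_comp u⟩, (hc _ e.1 e.2 u trivial).ne, fun w hw z hz => ?_⟩).not_gt
    (Set.ncard_lt_ncard ⟨sub, fun a => hu (a (GCol.mem_comp u))⟩ (Set.toFinite _))
  by_contra a
  exact hu (cl t ht u ((mx _ _ (mod_merge m' hw (sub ht) hz a)).symm.trans
    (mx _ _ (mod_merge m' hw (GCol.mem_comp u) hz a))))

end Fac

end Pool.Agent.Lib.MP_dd4ef3_lc
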