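import Pool.Agent.Lib.MP_dd4ef3_lc.H90Main
import Pool.Agent.Shared.Matching.Algo

/-!
Edges lying in properly coloured cycle factors are found by perfect matchings in a gadget.
-/

namespace Pool.Agent.Lib.MP_dd4ef3_lc

open Pool.Agent.Shared.Matching Pool.Agent.PCHam Relation
open N68a2faeb Pool.Agent.Shared.PolyTime N487b59b3

/-- An entry of the colour matrix. -/
def ent (A : List (List ℕ)) (x y : ℕ) : ℕ := (A.getD x []).getD y 0

/-- Nodes of the gadget: ports (tag 2), inner (tag 0) and outer (tag 1) colour nodes. -/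
def nodes (A : List (List ℕ)) : List (ℕ × ℕ × ℕ) :=
  (List.range A.length).flatMap fun x =>
    [(x, 0, 2), (x, 1, 2)] ++ A.flatten.flatMap fun c => [(x, c, 0), (x, c, 1)]

/-- Adjacency in the gadget forcing the edge `uv`. -/
def GAdj (A : List (List ℕ)) (u v : ℕ) (p q : ℕ × ℕ × ℕ) : Prop :=
  (p.1 = q.1 ∧ (p.2.2 = 2 ∧ q.2.2 = 0 ∨ p.2.2 = 0 ∧ q.2.2 = 2 ∨
      p.2.1 = q.2.1 ∧ (p.2.2 = 0 ∧ q.2.2 = 1 ∨ p.2.2 = 1 ∧ q.2.2 = 0)) ∨
    p.2.2 = 1 ∧ q.2.2 = 1 ∧ p.1 ≠ q.1 ∧ p.2.1 = q.2.1 ∧ p.2.1 = ent A p.1 q.1 ∧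
      q.2.1 = ent A q.1 p.1) ∧
  (p = (u, ent A u v, 1) → q = (v, ent A u v, 1)) ∧
  (q = (u, ent A u v, 1) → p = (v, ent A u v, 1))

open Classical in
/-- The test whether `uv` lies in a properly coloured cycle factor. -/
noncomputable def edge (A : List (List ℕ)) (u v : ℕ) : Bool :=
  test (nodes A) (((nodes A).product (nodes A)).filter fun e => GAdj A u v e.1 e.2)

open Classical in
/-- The decision procedure. -/
noncomputable def decider (A : List (List ℕ)) : Bool :=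
  decide (A.length ≠ 1) && decide (∀ x ∈ List.range A.length, ∀ y ∈ List.range A.length,
    ∀ z ∈ List.range A.length, x ≠ y → x ≠ z → y ≠ z →
      ent A x y = ent A x z ∨ ent A x y = ent A y z ∨ ent A x z = ent A y z) &&
  (List.range A.length).all fun x => (List.range A.length).all fun v =>
    decide (ReflTransGen (fun a b => b ∈ List.range A.length ∧
      (edge A a b = true ∨ ent A b a ≠ ent A b x)) x v)

section time

variable {α : Type} [N487b59b3 α] {A : α → List (List ℕ)} {u v : α → ℕ}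

@[fun_prop] theorem ent_pt (hA : IsPolyTime A) (hu : IsPolyTime u) (hv : IsPolyTime v) :
    IsPolyTime fun x => ent (A x) (u x) (v x) := by
  unfold ent; fun_prop

@[fun_prop] theorem nodes_pt (hA : IsPolyTime A) : IsPolyTime fun x => nodes (A x) := by
  unfold nodes; fun_prop

@[fun_prop] theorem edge_pt (hA : IsPolyTime A) (hu : IsPolyTime u) (hv : IsPolyTime v) :
    IsPolyTime fun x => edge (A x) (u x) (v x) := by
  unfold edge GAdj; fun_prop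

theorem decider_pt : IsPolyTime decider := by
  classical
  have := IsPolyTime.decide_reflTransGen (α := (List (List ℕ) × ℕ) × ℕ)
    (V := fun y => List.range y.1.1.length)
    (R := fun y a b => edge y.1.1 a b = true ∨ ent y.1.1 b a ≠ ent y.1.1 b y.1.2)
    (u := fun y => y.1.2) (v := fun y => y.2) (inst := fun _ => inferInstance)
    (by fun_prop) (by fun_prop) (by fun_prop) (by fun_prop)
  unfold decider
  fun_prop

end time

theorem mem_nodes {A : List (List ℕ)} {p : ℕ × ℕ × ℕ} : p ∈ nodes A ↔ p.1 < A.length ∧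
    (p.2.2 = 2 ∧ p.2.1 < 2 ∨ p.2.2 < 2 ∧ p.2.1 ∈ A.flatten) := by
  obtain ⟨x, c, t⟩ := p
  simp only [nodes, List.mem_flatMap, List.mem_range, List.mem_append, List.mem_cons,
    Prod.mk.injEq, List.not_mem_nil, or_false]
  constructor
  · rintro ⟨y, h, (e | e) | ⟨c', h', e | e⟩⟩ <;> obtain ⟨rfl, rfl, rfl⟩ := e <;> simp_all
  · rintro ⟨h, ⟨rfl, e⟩ | ⟨e, e'⟩⟩
    · exact ⟨x, h, Or.inl (by omega)⟩
    · exact ⟨x, h, Or.inr ⟨c, e', by omega⟩⟩

/-- The gadget as a graph. -/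
def gad (A : List (List ℕ)) (u v : ℕ) : Gr (ℕ × ℕ × ℕ) where
  S := (nodes A).toFinset
  adj p q := p ∈ nodes A ∧ q ∈ nodes A ∧ GAdj A u v p q
  symm := by unfold GAdj; grind
  ne := by unfold GAdj; grind
  mem h := List.mem_toFinset.2 h.1

theorem edge_iff_pm (A : List (List ℕ)) (u v : ℕ) :
    edge A u v = true ↔ ∃ M, (gad A u v).IsM M ∧ ∀ p ∈ nodes A, M p ≠ p := by
  rw [edge, Rep.test_iff (G := gad A u v) ⟨by simp [gad], by simp [gad, and_assoc]⟩]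
  simp [gad]

theorem pm_of_rel {β : Type} (G : Gr β) (r : β → β → Prop) (hs : ∀ p q, r p q → r q p)
    (ha : ∀ p q, r p q → G.adj p q) (hu : ∀ p q q', r p q → r p q' → q = q')
    (he : ∀ p ∈ G.S, ∃ q, r p q) : ∃ M, G.IsM M ∧ ∀ p ∈ G.S, M p ≠ p := by
  classical
  let M : β → β := fun p => if h : ∃ q, r p q then h.choose else p
  have h1 : ∀ p q, r p q → M p = q := fun p q h => by
    have e : ∃ q, r p q := ⟨q, h⟩
    exact hu _ _ _ (by simpa [M, e] using e.choose_spec) h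
  have h2 : ∀ p, M p = p ∨ r p (M p) := fun p => by
    by_cases e : ∃ q, r p q
    · exact Or.inr (by simpa [M, e] using e.choose_spec)
    · exact Or.inl (by simp [M, e])
  refine ⟨M, ⟨fun p => ?_, fun p e => ha _ _ ((h2 p).resolve_left e)⟩, fun p hp => ?_⟩
  · rcases h2 p with e | e
    exacts [by rw [e, e], h1 _ _ (hs _ _ e)]
  · obtain ⟨q, e⟩ := he p hp
    rw [h1 _ _ e]
    exact (G.ne (ha _ _ e)).symm

variable {n : ℕ} {G : GCol (Fin n) ℕ} {A : List (List ℕ)}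

/-- The node of a port. -/
def pn (s : Fin n × Bool) : ℕ × ℕ × ℕ := (s.1, s.2.toNat, 2)

theorem pn_inj {s t : Fin n × Bool} (h : pn s = pn t) : s = t := by
  obtain ⟨a, b⟩ := s
  obtain ⟨c, d⟩ := t
  cases b <;> cases d <;> simp_all [pn, Fin.ext_iff]

theorem exists_pn {p : ℕ × ℕ × ℕ} (h1 : p.1 < n) (h2 : p.2.1 < 2) (h3 : p.2.2 = 2) :
    ∃ s : Fin n × Bool, pn s = p := by
  obtain ⟨x, c, t⟩ := p
  refine ⟨(⟨x, h1⟩, decide (c = 1)), ?_⟩
  obtain rfl | rfl : c = 0 ∨ c = 1 := by dsimp only at h2; omega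
  all_goals simp_all [pn]

theorem fac_of_pm (hn : A.length = n) (hA : ∀ x y : Fin n, ent A x y = G.c x y)
    (hK : ∀ x y, G.c x y ∈ A.flatten) (u v : Fin n) {μ : ℕ × ℕ × ℕ → ℕ × ℕ × ℕ}
    (h : (gad A u v).IsM μ) (hp : ∀ p ∈ nodes A, μ p ≠ p) :
    ∃ F : Fac G, ∃ b, (F.M (u, b)).1 = v := by
  have h1 := h.1
  have h2 : ∀ p ∈ nodes A, μ p ∈ nodes A ∧ GAdj A u v p (μ p) := fun p e => (h.2 p (hp p e)).2
  have inn : ∀ x c, (x, c, 0) ∈ nodes A → μ (x, c, 1) ≠ (x, c, 0) →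
      ∃ s : Fin n × Bool, s.1 = x ∧ μ (pn s) = (x, c, 0) := by
    intro x c e e'
    obtain ⟨a1, a2⟩ := h2 _ e
    rw [mem_nodes] at a1
    have : (μ (x, c, 0)).1 = x ∧ (μ (x, c, 0)).2.2 = 2 := by
      rcases hq : μ (x, c, 0) with ⟨y, d, t⟩
      have := h1 (x, c, 0)
      simp only [GAdj, hq] at a2 this
      grind
    obtain ⟨s, hs⟩ := exists_pn (hn ▸ a1.1) (by omega) this.2
    exact ⟨s, (congrArg Prod.fst hs).trans this.1, by rw [hs, h1]⟩
  have key : ∀ s : Fin n × Bool, ∃ t : Fin n × Bool, t.1 ≠ s.1 ∧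
      μ (pn s) = (s.1.1, G.c s.1 t.1, 0) ∧ μ (s.1, G.c s.1 t.1, 1) = (t.1.1, G.c s.1 t.1, 1) ∧
      μ (pn t) = (t.1.1, G.c s.1 t.1, 0) := by
    intro s
    obtain ⟨a1, a2⟩ := h2 (pn s) (mem_nodes.2 ⟨hn ▸ s.1.2, Or.inl ⟨rfl, Bool.toNat_lt _⟩⟩)
    obtain ⟨c, hc⟩ : ∃ c, μ (pn s) = (s.1.1, c, 0) := by
      rcases hq : μ (pn s) with ⟨y, d, t⟩
      simp only [GAdj, hq] at a2
      simp only [pn] at a2
      exact ⟨d, by grind⟩
    rw [hc, mem_nodes] at a1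
    obtain ⟨b1, b2⟩ := h2 (s.1, c, 1) (mem_nodes.2 (by simpa using a1))
    obtain ⟨y, hy, e1, e2⟩ : ∃ y, μ (s.1, c, 1) = (y, c, 1) ∧ y ≠ s.1 ∧ c = ent A s.1 y := by
      rcases hq : μ (s.1, c, 1) with ⟨y, d, t⟩
      have := h1 (s.1, c, 1)
      have := h1 (pn s)
      simp only [GAdj, hq, hc] at b2 this
      simp only [pn] at this
      exact ⟨y, by grind⟩
    rw [hy, mem_nodes] at b1
    obtain ⟨t, rfl, ht⟩ := inn y c (mem_nodes.2 (by simpa using b1)) (by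
      rw [← hy, h1]; simp)
    rw [hA] at e2
    subst e2
    exact ⟨t, fun e => e1 (congrArg _ e), hc, hy, ht⟩
  choose M k1 k2 k3 k4 using key
  have inj : ∀ s t : Fin n × Bool, μ (pn s) = μ (pn t) → s = t := fun s t e =>
    pn_inj (by rw [← h1 (pn s), e, h1])
  obtain ⟨a1, a2⟩ := h2 (u, G.c u v, 1) (mem_nodes.2 ⟨hn ▸ u.2, Or.inr ⟨by simp, hK _ _⟩⟩)
  have a3 := a2.2.1 (by rw [hA])
  rw [hA] at a3
  obtain ⟨⟨x, b⟩, e1, e2⟩ := inn u (G.c u v) (mem_nodes.2 ⟨hn ▸ u.2, Or.inr ⟨by simp, hK _ _⟩⟩)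
    (by rw [a3]; simp)
  obtain rfl : x = u := Fin.ext e1
  refine ⟨⟨M, fun s => inj _ _ ?_, k1, fun s e => fl_ne s (inj _ _ ?_)⟩, b, ?_⟩
  · have c1 : G.c (M s).1 (M (M s)).1 = G.c s.1 (M s).1 := by simpa [k4 s] using (k2 (M s)).symm
    have c2 := k3 (M s)
    rw [c1, ← k3 s, h1] at c2
    rw [k4, k2, c1, ← (Prod.mk.inj c2).1]
  · rw [k2, k2, e, fl_fst]
  · have c1 : G.c x (M (x, b)).1 = G.c x v := by simpa [e2] using (k2 (x, b)).symm
    have c2 := k3 (x, b)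
    rw [c1, a3] at c2
    exact Fin.ext (Prod.mk.inj c2).1.symm

theorem pm_of_fac (hn : A.length = n) (hA : ∀ x y : Fin n, ent A x y = G.c x y)
    (hK : ∀ x y, G.c x y ∈ A.flatten) (F : Fac G) (s0 : Fin n × Bool) :
    ∃ μ, (gad A s0.1 (F.M s0).1).IsM μ ∧ ∀ p ∈ nodes A, μ p ≠ p := by
  let r : ℕ × ℕ × ℕ → ℕ × ℕ × ℕ → Prop := fun p q =>
    (∃ s, p = pn s ∧ q = (s.1.1, F.k s, 0)) ∨ (∃ s, q = pn s ∧ p = (s.1.1, F.k s, 0)) ∨
    (∃ s, p = (s.1.1, F.k s, 1) ∧ q = ((F.M s).1.1, F.k s, 1)) ∨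
    ∃ x : Fin n, ∃ c ∈ A.flatten, (∀ b, F.k (x, b) ≠ c) ∧
      (p = (x.1, c, 0) ∧ q = (x.1, c, 1) ∨ p = (x.1, c, 1) ∧ q = (x.1, c, 0))
  have ek : ∀ s t : Fin n × Bool, (s.1 : ℕ) = t.1 → F.k s = F.k t → s = t :=
    fun s t e e' => F.eq_of_k (Fin.ext e) e'
  have nk : ∀ (s : Fin n × Bool) (x : Fin n), (s.1 : ℕ) = x → F.k (x, s.2) = F.k s :=
    fun s x e => by rw [← Fin.ext e]
  have lt : ∀ x : Fin n, x < A.length := fun x => hn ▸ x.2
  have kk : ∀ s, F.k s ∈ A.flatten := fun s => hK _ _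
  have lb := Bool.toNat_lt
  have e0 : ent A s0.1 (F.M s0).1 = F.k s0 := hA _ _
  obtain ⟨μ, h1, h2⟩ := pm_of_rel (gad A s0.1 (F.M s0).1) r (fun p q => by
      rintro (h | h | ⟨s, rfl, rfl⟩ | ⟨x, c, h1, h2, h3⟩)
      · exact Or.inr (Or.inl h)
      · exact Or.inl h
      · exact Or.inr (Or.inr (Or.inl ⟨F.M s, by simp⟩))
      · exact Or.inr (Or.inr (Or.inr ⟨x, c, h1, h2, by tauto⟩)))
    (fun p q => by
      rintro (⟨s, rfl, rfl⟩ | ⟨s, rfl, rfl⟩ | ⟨s, rfl, rfl⟩ |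
        ⟨x, c, h1, h2, ⟨rfl, rfl⟩ | ⟨rfl, rfl⟩⟩)
      · simp only [gad, mem_nodes, GAdj, pn, lt, kk, lb]; simp
      · simp only [gad, mem_nodes, GAdj, pn, lt, kk, lb]; simp
      · have a1 := ek s s0
        have a2 := ek (F.M s) s0
        have a3 : (s.1 : ℕ) ≠ (F.M s).1 := fun e => F.ne s (Fin.ext e).symm
        have a4 := F.inv s
        have a5 := F.k_M s
        have a6 : ent A s.1 (F.M s).1 = F.k s := hA _ _
        have a7 : ent A (F.M s).1 s.1 = F.k s := (hA _ _).trans (F.k_def' s)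
        simp only [gad, mem_nodes, GAdj, lt, kk, e0, a6, a7, Prod.mk.injEq]
        grind
      · have := nk s0 x
        simp only [gad, mem_nodes, GAdj, lt, e0, Prod.mk.injEq]
        grind
      · have := nk s0 x
        simp only [gad, mem_nodes, GAdj, lt, e0, Prod.mk.injEq]
        grind)
    (fun p q q' => by
      rintro (⟨s, rfl, rfl⟩ | ⟨s, rfl, rfl⟩ | ⟨s, rfl, rfl⟩ |
        ⟨x, c, h1, h2, ⟨rfl, rfl⟩ | ⟨rfl, rfl⟩⟩) (⟨t, e, rfl⟩ | ⟨t, rfl, e⟩ | ⟨t, e, rfl⟩ |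
        ⟨y, d, h3, h4, ⟨e, rfl⟩ | ⟨e, rfl⟩⟩) <;>
      first
        | rw [pn_inj e]
        | (simp only [pn, Prod.mk.injEq] at e; grind))
    (fun p hp => by
      obtain ⟨a1, a2 | a2⟩ := mem_nodes.1 (List.mem_toFinset.1 hp)
      · obtain ⟨s, rfl⟩ := exists_pn (hn ▸ a1) a2.2 a2.1
        exact ⟨_, Or.inl ⟨s, rfl, rfl⟩⟩
      · obtain ⟨x, c, t⟩ := p
        obtain ⟨x, rfl⟩ : ∃ y : Fin n, y = x := ⟨⟨x, hn ▸ a1⟩, rfl⟩
        by_cases e : ∃ b, F.k (x, b) = c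
        · obtain ⟨b, rfl⟩ := e
          obtain rfl | rfl : t = 0 ∨ t = 1 := by dsimp only at a2; omega
          exacts [⟨_, Or.inr (Or.inl ⟨(x, b), rfl, rfl⟩)⟩,
            ⟨_, Or.inr (Or.inr (Or.inl ⟨(x, b), rfl, rfl⟩))⟩]
        · push Not at e
          obtain rfl | rfl : t = 0 ∨ t = 1 := by dsimp only at a2; omega
          exacts [⟨_, Or.inr (Or.inr (Or.inr ⟨x, c, a2.2, e, Or.inl ⟨rfl, rfl⟩⟩))⟩,
            ⟨_, Or.inr (Or.inr (Or.inr ⟨x, c, a2.2, e, Or.inr ⟨rfl, rfl⟩⟩))⟩])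
  exact ⟨μ, h1, fun p hp => h2 p (List.mem_toFinset.2 hp)⟩

theorem edge_iff (hn : A.length = n) (hA : ∀ x y : Fin n, ent A x y = G.c x y)
    (hK : ∀ x y, G.c x y ∈ A.flatten) (u v : Fin n) :
    edge A u v = true ↔ ∃ F : Fac G, ∃ b, (F.M (u, b)).1 = v := by
  rw [edge_iff_pm]
  exact ⟨fun ⟨_, h1, h2⟩ => fac_of_pm hn hA hK u v h1 h2,
    fun ⟨F, b, e⟩ => e ▸ pm_of_fac hn hA hK F (u, b)⟩

theorem decider_iff (n : ℕ) (col : Sym2 (Fin n) → ℕ) :
    decider (List.ofFn fun i => List.ofFn fun j => col s(i, j)) = true ↔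
      IsGallai col ∧ HasPCHamiltonCycle col := by
  set A := List.ofFn fun i => List.ofFn fun j => col s(i, j) with hA0
  have hn : A.length = n := by simp [hA0]
  have hA : ∀ x y : Fin n, ent A x y = col s(x, y) := fun x y => by simp [hA0, ent]
  have hK : ∀ x y, col s(x, y) ∈ A.flatten := fun x y => by
    simp only [hA0, List.mem_flatten, List.mem_ofFn]
    exact ⟨_, ⟨x, rfl⟩, List.mem_ofFn.2 ⟨y, rfl⟩⟩
  simp only [decider, Bool.and_eq_true, decide_eq_true_eq, List.all_eq_true, hn, List.mem_range]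
  have hG : (∀ x < n, ∀ y < n, ∀ z < n, x ≠ y → x ≠ z → y ≠ z →
      ent A x y = ent A x z ∨ ent A x y = ent A y z ∨ ent A x z = ent A y z) ↔ IsGallai col := by
    refine ⟨fun h x y z a b c => ?_, fun h x hx y hy z hz a b c => ?_⟩
    · simpa [hA] using h x x.2 y y.2 z z.2 (Fin.val_ne_of_ne a) (Fin.val_ne_of_ne b)
        (Fin.val_ne_of_ne c)
    · simpa [← hA] using h ⟨x, hx⟩ ⟨y, hy⟩ ⟨z, hz⟩ (by simpa) (by simpa) (by simpa)
  rw [hG, and_comm (a := n ≠ 1), and_assoc]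
  refine and_congr_right fun h => ⟨fun ⟨h1, H⟩ => ?_, fun H => ⟨?_, fun x hx v hv => ?_⟩⟩
  · have cr : ∀ T : Set (Fin n), (toG col h).Mod T → T.Nonempty → T ≠ Set.univ →
        ∃ F' : Fac (toG col h), ∃ r, F'.Ent T r := by
      rintro T m ⟨x, hx⟩ hne
      by_contra hc
      refine hne (Set.eq_univ_of_forall fun v => ?_)
      suffices ∀ w, ReflTransGen (fun a b => b < n ∧
          (edge A a b = true ∨ ent A b a ≠ ent A b x)) x w → ∃ y ∈ T, (y : ℕ) = w by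
        obtain ⟨y, a, e⟩ := this v (H x x.2 v v.2)
        exact Fin.ext e ▸ a
      intro w hw
      induction hw with
      | refl => exact ⟨x, hx, rfl⟩
      | @tail a b _ e ih =>
        obtain ⟨a, ha, rfl⟩ := ih
        obtain ⟨b, rfl⟩ : ∃ y : Fin n, y = b := ⟨⟨b, e.1⟩, rfl⟩
        refine ⟨b, ?_, rfl⟩
        by_contra hb
        rcases e.2 with e | e
        · obtain ⟨F, t, e⟩ := (edge_iff (G := toG col h) hn hA hK a b).1 e
          exact hc ⟨F, F.M (a, t), e ▸ hb, by simpa using ha⟩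
        · exact e (by rw [hA, hA]; exact m b hb a ha x hx)
    rcases n with _ | _ | n
    · exact ⟨1, fun v => v.elim0, fun v => v.elim0⟩
    · exact absurd rfl h1
    obtain ⟨F0, -⟩ := cr {0} (by rintro _ _ _ rfl _ rfl; rfl) ⟨0, rfl⟩
      fun e => zero_ne_one (Set.mem_singleton_iff.1 (e ▸ Set.mem_univ (1 : Fin (n + 2)))).symm
    obtain ⟨F, hF⟩ := Fac.ham_of_cross F0 cr
    exact ham_of_fac h F hF 0
  · rintro rfl
    obtain ⟨σ, h1, -⟩ := H
    exact (h1 0).1 (Subsingleton.elim _ _)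
  · obtain ⟨x, rfl⟩ : ∃ y : Fin n, y = x := ⟨⟨x, hx⟩, rfl⟩
    obtain ⟨v, rfl⟩ : ∃ y : Fin n, y = v := ⟨⟨v, hv⟩, rfl⟩
    by_contra hc
    have : Nontrivial (Fin n) := ⟨x, v, fun e => hc (e ▸ .refl)⟩
    obtain ⟨σ, h1, a, b1, b2⟩ := (gallai_iff h).1 H {w : Fin n | ReflTransGen (fun a b => b < n ∧
        (edge A a b = true ∨ ent A b a ≠ ent A b x)) x w} ⟨x, .refl⟩
      (fun e => hc (Set.eq_univ_iff_forall.1 e v)) fun w hw a ha b hb => by
        have : ∀ a : Fin n, ReflTransGen (fun a b => b < n ∧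
            (edge A a b = true ∨ ent A b a ≠ ent A b x)) x a → col s(w, a) = col s(w, x) :=
          fun a ha => by
            by_contra e
            exact hw (ha.tail ⟨w.2, Or.inr (by rwa [hA, hA])⟩)
        rw [this a ha, this b hb]
    exact b2 (b1.tail ⟨(σ a).2, Or.inl ((edge_iff (G := toG col h) hn hA hK _ _).2
      ⟨toFac h h1, true, rfl⟩)⟩)

end Pool.Agent.Lib.MP_dd4ef3_lc
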