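import Pool.Agent.Lib.MP_dd4ef3_lc.H90Ports

/-!
Modules and connected colours of colourings without rainbow triangles.
-/

namespace Pool.Agent.Lib.MP_dd4ef3_lc

namespace GCol

variable {V K : Type} (G : GCol V K)

/-- Every vertex outside `X` sees `X` in one colour. -/
def Mod (X : Set V) : Prop := ∀ v, v ∉ X → ∀ x ∈ X, ∀ y ∈ X, G.c v x = G.c v y

/-- Connected inside `X` by edges of colour `γ`. -/
def Conn (X : Set V) (γ : K) : V → V → Prop :=
  Relation.ReflTransGen fun a b => a ∈ X ∧ b ∈ X ∧ a ≠ b ∧ G.c a b = γ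

/-- The component of `x` in colour `γ` inside `X`. -/
def comp (X : Set V) (γ : K) (x : V) : Set V := {y | G.Conn X γ x y}

variable {G}

theorem tri {x y z : V} (h1 : x ≠ y) (h2 : x ≠ z) (h3 : y ≠ z) (h : G.c x y ≠ G.c x z) :
    G.c y z = G.c x y ∨ G.c y z = G.c x z := by
  rcases G.gal x y z h1 h2 h3 with e | e | e
  exacts [absurd e h, Or.inl e.symm, Or.inr e.symm]

theorem twin {x y z : V} (h1 : x ≠ y) (h2 : x ≠ z) (h3 : y ≠ z) (h : G.c x y ≠ G.c y z)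
    (h' : G.c x z ≠ G.c y z) : G.c x y = G.c x z := by
  rcases G.gal x y z h1 h2 h3 with e | e | e
  exacts [e, absurd e h, absurd e h']

variable {X : Set V} {γ : K}

theorem Conn.symm {x y : V} (h : G.Conn X γ x y) : G.Conn X γ y x := by
  induction h with
  | refl => exact Relation.ReflTransGen.refl
  | tail _ h ih =>
    exact Relation.ReflTransGen.head ⟨h.2.1, h.1, h.2.2.1.symm, (G.symm _ _).trans h.2.2.2⟩ ih

theorem Conn.trans {x y z : V} (h : G.Conn X γ x y) (h' : G.Conn X γ y z) : G.Conn X γ x z :=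
  Relation.ReflTransGen.trans h h'

theorem Conn.mem {x y : V} (h : G.Conn X γ x y) (hx : x ∈ X) : y ∈ X := by
  induction h with
  | refl => exact hx
  | tail _ h _ => exact h.2.1

theorem Conn.step {x y z : V} (h : G.Conn X γ x y) (hy : y ∈ X) (hz : z ∈ X) (hne : y ≠ z)
    (e : G.c y z = γ) : G.Conn X γ x z := Relation.ReflTransGen.tail h ⟨hy, hz, hne, e⟩

theorem Conn.rel {x y v : V} (h : G.Conn X γ x y) (hv : v ∈ X) (hn : ¬G.Conn X γ x v) :
    G.c v y = G.c v x := by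
  induction h with
  | refl => rfl
  | @tail a b hab h ih =>
    rw [← ih]
    have hb : G.Conn X γ x b := Relation.ReflTransGen.tail hab h
    have n1 : v ≠ a := by rintro rfl; exact hn hab
    have n2 : v ≠ b := by rintro rfl; exact hn hb
    refine (twin n1 n2 h.2.2.1 ?_ ?_).symm <;> rw [h.2.2.2, G.symm]
    · exact fun e => hn (Conn.step hab h.1 hv n1.symm e)
    · exact fun e => hn (Conn.step hb h.2.1 hv n2.symm e)

theorem mem_comp (x : V) : x ∈ G.comp X γ x := Relation.ReflTransGen.refl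

theorem comp_sub {x : V} (hx : x ∈ X) : G.comp X γ x ⊆ X := fun _ h => Conn.mem h hx

theorem comp_step {x a b : V} (hx : x ∈ X) (ha : a ∈ G.comp X γ x) (hb : b ∈ X) (hne : a ≠ b)
    (e : G.c a b = γ) : b ∈ G.comp X γ x := Conn.step ha (comp_sub hx ha) hb hne e

theorem comp_ind {x : V} {S : Set V} (hx : x ∈ S)
    (h : ∀ a ∈ S, ∀ b, a ≠ b → G.c a b = γ → b ∈ S) : G.comp X γ x ⊆ S := by
  intro y hy
  induction hy with
  | refl => exact hx
  | tail _ h' ih => exact h _ ih _ h'.2.2.1 h'.2.2.2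

theorem comp_mod (hX : G.Mod X) {x : V} (hx : x ∈ X) : G.Mod (G.comp X γ x) := by
  intro v hv a ha b hb
  by_cases h : v ∈ X
  · rw [Conn.rel ha h hv, Conn.rel hb h hv]
  · exact hX v h a (comp_sub hx ha) b (comp_sub hx hb)

theorem first_edge {v w : V} (h : G.Conn X γ v w) (hne : v ≠ w) :
    ∃ y ∈ X \ {v}, G.c v y = γ := by
  rcases Relation.ReflTransGen.cases_head h with e | ⟨y, h1, _⟩
  · exact absurd e hne
  · exact ⟨y, ⟨h1.2.1, fun e => h1.2.2.1 (Set.mem_singleton_iff.1 e).symm⟩, h1.2.2.2⟩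

theorem three_key {α β : K} {v y w : V} (hv : v ∈ X) (h : ∀ a ∈ X, G.Conn X α v a)
    (hy : y ∈ X \ {v}) (hw : w ∈ X \ {v}) (ey : G.c v y = β) (ew : G.c v w = γ)
    (n1 : β ≠ α) (n2 : γ ≠ α) (n3 : β ≠ γ) :
    ∀ a ∈ X \ {v}, ∀ b ∈ X \ {v}, G.Conn (X \ {v}) α a b := by
  by_contra hc
  push Not at hc
  obtain ⟨a, ha, b, hb, hab⟩ := hc
  have k1 : ∀ z, G.Conn X α v z → z ≠ v →
      ∃ x ∈ X \ {v}, G.Conn (X \ {v}) α z x ∧ G.c v x = α := by
    intro z hz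
    induction hz with
    | refl => intro e; exact absurd rfl e
    | @tail s t _ hst ih =>
      intro ht
      by_cases hs : s = v
      · subst hs; exact ⟨t, ⟨hst.2.1, ht⟩, Relation.ReflTransGen.refl, hst.2.2.2⟩
      · obtain ⟨x, h1, h2, h3⟩ := ih hs
        exact ⟨x, h1, Relation.ReflTransGen.head
          ⟨⟨hst.2.1, ht⟩, ⟨hst.1, hs⟩, hst.2.2.1.symm, (G.symm _ _).trans hst.2.2.2⟩ h2, h3⟩
  have k2 : ∀ y ∈ X \ {v}, G.c v y ≠ α → ∀ z ∈ X \ {v}, ¬G.Conn (X \ {v}) α z y →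
      G.c y z = G.c v y := by
    intro y hy e z hz hn
    obtain ⟨x, h1, h2, h3⟩ := k1 z (h z hz.1) hz.2
    rw [← Conn.rel h2 hy hn]
    have m : y ≠ x := by rintro rfl; exact hn h2
    rcases tri (G := G) (Ne.symm hy.2) (Ne.symm h1.2) m (by rwa [h3]) with e' | e'
    · exact e'
    · exact absurd (Conn.step h2 h1 hy m.symm (by rw [G.symm, e', h3])) hn
  by_cases hyw : G.Conn (X \ {v}) α y w
  · obtain ⟨z, hz, hn⟩ : ∃ z ∈ X \ {v}, ¬G.Conn (X \ {v}) α z y := by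
      by_contra hc
      push Not at hc
      exact hab ((hc a ha).trans (hc b hb).symm)
    have e1 := k2 y hy (by rwa [ey]) z hz hn
    have e2 := k2 w hw (by rwa [ew]) z hz fun e => hn (e.trans hyw.symm)
    have e3 := Conn.rel hyw hz fun e => hn e.symm
    rw [G.symm z, G.symm z, e1, e2, ey, ew] at e3
    exact n3 e3.symm
  · have e1 := k2 y hy (by rwa [ey]) w hw fun e => hyw e.symm
    have e2 := k2 w hw (by rwa [ew]) y hy hyw
    rw [G.symm, e1, ey, ew] at e2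
    exact n3 e2

variable [Finite V]

theorem three_col {α β : K} (n1 : β ≠ α) (n2 : γ ≠ α) (n3 : β ≠ γ) (m : ℕ) :
    ∀ X : Set V, X.ncard = m → (∀ a ∈ X, ∀ b ∈ X, G.Conn X α a b) →
      (∀ a ∈ X, ∀ b ∈ X, G.Conn X β a b) → (∀ a ∈ X, ∀ b ∈ X, G.Conn X γ a b) →
      X.Subsingleton := by
  induction m with
  | zero => intro X hX _ _ _; rw [(Set.ncard_eq_zero (Set.toFinite _)).1 hX]; simp
  | succ m ih =>
    intro X hX h1 h2 h3 v hv w hw
    by_contra hne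
    obtain ⟨a, ha, ea⟩ := first_edge (h1 v hv w hw) hne
    obtain ⟨b, hb, eb⟩ := first_edge (h2 v hv w hw) hne
    obtain ⟨c, hc, ec⟩ := first_edge (h3 v hv w hw) hne
    have := ih (X \ {v}) (by rw [Set.ncard_sdiff_singleton_of_mem hv, hX]; rfl)
      (three_key hv (h1 v hv) hb hc eb ec n1 n2 n3)
      (three_key hv (h2 v hv) ha hc ea ec n1.symm n3.symm n2.symm)
      (three_key hv (h3 v hv) ha hb ea eb n2.symm n3 n1.symm) ha hb
    rw [this, eb] at ea
    exact n1 ea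

theorem two_col {x y : V} (hx : x ∈ X) (hy : y ∈ X) (hne : x ≠ y) :
    ∃ R B : K, ∀ γ, γ ≠ R → γ ≠ B → ∀ z ∈ X, G.comp X γ z ⊂ X := by
  have key : ∀ γ, (¬∀ a ∈ X, ∀ b ∈ X, G.Conn X γ a b) → ∀ z ∈ X, G.comp X γ z ⊂ X :=
    fun γ h z hz => ⟨comp_sub hz, fun h' => h fun a ha b hb => Conn.trans (Conn.symm (h' ha)) (h' hb)⟩
  by_cases h1 : ∃ R, ∀ a ∈ X, ∀ b ∈ X, G.Conn X R a b
  · obtain ⟨R, hR⟩ := h1
    by_cases h2 : ∃ B, B ≠ R ∧ ∀ a ∈ X, ∀ b ∈ X, G.Conn X B a b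
    · obtain ⟨B, hBR, hB⟩ := h2
      exact ⟨R, B, fun γ e1 e2 => key γ fun h =>
        hne (three_col hBR e1 e2.symm _ X rfl hR hB h hx hy)⟩
    · exact ⟨R, R, fun γ e1 _ => key γ fun h => h2 ⟨γ, e1, h⟩⟩
  · exact ⟨G.c x y, G.c x y, fun γ _ _ => key γ fun h => h1 ⟨γ, h⟩⟩

end GCol

end Pool.Agent.Lib.MP_dd4ef3_lc
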