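import Pool.Agent.Lib.MP_dd4ef3_lc.Basic
import Pool.Agent.Lib.MP_dd4ef3_lc.H90Final

/-!
Gallai colourings: translation between permutations and pairings of ports.
-/

namespace Pool.Agent.Lib.MP_dd4ef3_lc

open Pool.Agent.PCHam Equiv

variable {V C : Type}

/-- A Gallai colouring: no triangle has three different colours. -/
def IsGallai (col : Sym2 V → C) : Prop :=
  ∀ x y z, x ≠ y → x ≠ z → y ≠ z →
    col s(x, y) = col s(x, z) ∨ col s(x, y) = col s(y, z) ∨ col s(x, z) = col s(y, z)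

/-- A module: every vertex outside `T` is joined to all vertices of `T` in the same colour. -/
def IsModule (col : Sym2 V → C) (T : Set V) : Prop :=
  ∀ v, v ∉ T → ∀ x ∈ T, ∀ y ∈ T, col s(v, x) = col s(v, y)

/-- The colouring as a function of two vertices. -/
def toG (col : Sym2 V → C) (h : IsGallai col) : GCol V C :=
  ⟨fun x y => col s(x, y), fun _ _ => congrArg col Sym2.eq_swap, h⟩

/-- The pairing of ports given by a permutation. -/
def toFac {col : Sym2 V → C} (h : IsGallai col) {σ : Perm V} (hσ : IsPCFactor col σ) :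
    Fac (toG col h) where
  M p := if p.2 then (σ p.1, false) else (σ.symm p.1, true)
  inv := by rintro ⟨v, _ | _⟩ <;> simp
  ne := by
    rintro ⟨v, _ | _⟩
    · simpa [symm_apply_eq] using (hσ v).1.symm
    · simpa using (hσ v).1
  pc := by
    have := fun v => (hσ (σ.symm v)).2.2
    rintro ⟨v, _ | _⟩
    · simpa [toG, fl, Sym2.eq_swap] using this v
    · simpa [toG, fl, Sym2.eq_swap] using (this v).symm

theorem ham_of_fac [Finite V] {col : Sym2 V → C} (h : IsGallai col) (F : Fac (toG col h))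
    (hF : ∀ x y, F.R x y) (x : V) : HasPCHamiltonCycle col := by
  choose ω h1 h2 using fun v => Fac.exists_Dir (p := (x, true)) (hF x v)
  have hn : ∀ v, ω (F.M (ω v)).1 = F.n (ω v) := fun v => (h2 v).step.eq_of_fst (h2 _) (h1 _)
  have inj : Function.Injective fun v => (F.M (ω v)).1 := fun u v e => by
    rw [← h1 u, ← h1 v, F.n_inj ((h2 v).step.eq_of_fst (h2 u).step e)]
  let σ : Perm V := Equiv.ofBijective _ (Finite.injective_iff_bijective.1 inj)
  have hσ : ∀ v, σ v = (F.M (ω v)).1 := fun _ => rfl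
  refine ⟨σ, fun v => ⟨?_, ?_, ?_⟩, fun u v => ?_⟩
  · rw [hσ]; exact (F.ne _).trans_eq (h1 v)
  · rw [hσ, hσ, hn]; exact (F.nn_ne _).trans_eq (h1 v)
  · have := (F.k_n (ω v)).symm
    rw [Fac.k, Fac.k, h1] at this
    rw [hσ (σ v), hσ v, hn]
    exact this
  · refine (((h2 u).symm.trans (h2 v)).ind (P := fun z => ω z.1 = z ∧ σ.SameCycle u z.1)
      ⟨by rw [h1], by rw [h1]⟩ fun z _ hz => ⟨?_, ?_⟩).2.trans (by rw [h1])
    · rw [Fac.n_fst, ← hz.1, hn]
    · have : (F.n z).1 = σ z.1 := by rw [hσ, hz.1]; rfl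
      rw [this]
      exact hz.2.apply_right

theorem gallai_iff [Finite V] [Nontrivial V] {col : Sym2 V → C} (h : IsGallai col) :
    HasPCHamiltonCycle col ↔ ∀ T : Set V, T.Nonempty → T ≠ Set.univ → IsModule col T →
      ∃ σ : Perm V, IsPCFactor col σ ∧ ∃ v ∈ T, σ v ∉ T := by
  constructor
  · rintro ⟨σ, h1, h2⟩ T ⟨t, ht⟩ hne -
    refine ⟨σ, h1, ?_⟩
    by_contra hc
    push Not at hc
    refine hne (Set.eq_univ_of_forall fun v => ?_)
    obtain ⟨n, rfl⟩ := (h2 t v).exists_nat_pow_eq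
    induction n with
    | zero => exact ht
    | succ n ih => rw [pow_succ', Perm.mul_apply]; exact hc _ ih
  · intro H
    obtain ⟨x, y, hxy⟩ := exists_pair_ne V
    obtain ⟨σ, hσ, -⟩ := H {x} ⟨x, rfl⟩ (fun e => hxy (Set.mem_singleton_iff.1
      (e ▸ Set.mem_univ y)).symm) (by rintro _ _ _ rfl _ rfl; rfl)
    obtain ⟨F, hF⟩ := Fac.ham_of_cross (toFac h hσ) fun T m h1 h2 => by
      obtain ⟨τ, hτ, v, a, b⟩ := H T h1 h2 m
      exact ⟨toFac h hτ, (τ v, false), b, by simpa [toFac] using a⟩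
    exact ham_of_fac h F hF x

end Pool.Agent.Lib.MP_dd4ef3_lc
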