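import Mathlib

/-!
Cycle factors as pairings of ports (two ports per vertex) and exchanges of edges.
-/

namespace Pool.Agent.Lib.MP_dd4ef3_lc

/-- A symmetric colouring without rainbow triangles. -/
structure GCol (V K : Type) where
  c : V → V → K
  symm : ∀ x y, c x y = c y x
  gal : ∀ x y z, x ≠ y → x ≠ z → y ≠ z → c x y = c x z ∨ c x y = c y z ∨ c x z = c y z

variable {V K : Type}

/-- The other port at the same vertex. -/
def fl (p : V × Bool) : V × Bool := (p.1, !p.2)

@[simp] theorem fl_fst (p : V × Bool) : (fl p).1 = p.1 := rfl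
@[simp] theorem fl_fl (p : V × Bool) : fl (fl p) = p := by simp [fl]
theorem fl_ne (p : V × Bool) : fl p ≠ p := by
  intro h; have := congrArg Prod.snd h; simp [fl] at this
theorem port_eq {p q : V × Bool} (h : q.1 = p.1) : q = p ∨ q = fl p := by
  obtain ⟨a, b⟩ := p
  obtain ⟨c, d⟩ := q
  cases b <;> cases d <;> simp_all [fl]
theorem fl_inj {p q : V × Bool} (h : fl p = fl q) : p = q := by
  rw [← fl_fl p, h, fl_fl]

/-- A properly coloured cycle factor. -/
structure Fac (G : GCol V K) where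
  M : V × Bool → V × Bool
  inv : ∀ p, M (M p) = p
  ne : ∀ p, (M p).1 ≠ p.1
  pc : ∀ p, G.c p.1 (M p).1 ≠ G.c p.1 (M (fl p)).1

namespace Fac

variable {G : GCol V K} (F : Fac G)

/-- The colour of the edge at a port. -/
def k (p : V × Bool) : K := G.c p.1 (F.M p).1

/-- The next port in the same direction. -/
def n (p : V × Bool) : V × Bool := fl (F.M p)

/-- Being on the same cycle. -/
def R : V → V → Prop := Relation.ReflTransGen fun x y => ∃ b, (F.M (x, b)).1 = y

/-- Being on the same cycle with the same direction. -/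
def Dir (p q : V × Bool) : Prop := ∃ j, F.n^[j] p = q

attribute [simp] inv

@[simp] theorem n_fst (p : V × Bool) : (F.n p).1 = (F.M p).1 := rfl
@[simp] theorem fl_n (p : V × Bool) : fl (F.n p) = F.M p := fl_fl _
@[simp] theorem n_M (p : V × Bool) : F.n (F.M p) = fl p := by simp [n]
@[simp] theorem fl_M (p : V × Bool) : fl (F.M p) = F.n p := rfl
@[simp] theorem k_M (p : V × Bool) : F.k (F.M p) = F.k p := by simp [k, G.symm p.1]
theorem k_fl (p : V × Bool) : F.k p ≠ F.k (fl p) := F.pc p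
theorem k_n (p : V × Bool) : F.k (F.n p) ≠ F.k p := by
  have := F.k_fl (F.M p); rw [k_M] at this; exact this.symm
theorem k_def (p : V × Bool) : G.c p.1 (F.M p).1 = F.k p := rfl
theorem k_def' (p : V × Bool) : G.c (F.M p).1 p.1 = F.k p := G.symm _ _
theorem M_inj {p q : V × Bool} (h : F.M p = F.M q) : p = q := by rw [← F.inv p, h, F.inv]
theorem n_inj : Function.Injective F.n := fun _ _ h => F.M_inj (fl_inj h)
theorem n_M_fl (p : V × Bool) : F.n (F.M (fl p)) = p := by simp
theorem nn_ne (p : V × Bool) : (F.M (F.n p)).1 ≠ p.1 := by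
  intro h
  apply F.k_n p
  rw [k, h, n_fst, k_def']
theorem eq_of_k {p q : V × Bool} (h : q.1 = p.1) (h' : F.k q = F.k p) : q = p :=
  (port_eq h).resolve_right fun e => F.k_fl p (by rw [← h', e])

variable {F}

theorem R.refl (x : V) : F.R x x := Relation.ReflTransGen.refl
theorem R.trans {x y z : V} (h : F.R x y) (h' : F.R y z) : F.R x z :=
  Relation.ReflTransGen.trans h h'
theorem R_M (p : V × Bool) : F.R p.1 (F.M p).1 := Relation.ReflTransGen.single ⟨p.2, rfl⟩
theorem R_M' (p : V × Bool) : F.R (F.M p).1 p.1 := by simpa using R_M (F := F) (F.M p)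
theorem R_of_M {p q : V × Bool} (h : F.M p = q) : F.R p.1 q.1 := h ▸ R_M p
theorem R.ind {x y : V} (h : F.R x y) {P : V → Prop} (hx : P x)
    (hP : ∀ p : V × Bool, P p.1 → P (F.M p).1) : P y := by
  induction h with
  | refl => exact hx
  | tail _ h ih => obtain ⟨b, rfl⟩ := h; exact hP (_, b) ih
theorem R.symm {x y : V} (h : F.R x y) : F.R y x :=
  h.ind (P := fun z => F.R z x) (R.refl x) fun p hp => (R_M' p).trans hp
theorem R.step {x : V} {p : V × Bool} (h : F.R x p.1) : F.R x (F.M p).1 := h.trans (R_M p)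
theorem R.step' {x : V} {p : V × Bool} (h : F.R x (F.M p).1) : F.R x p.1 := h.trans (R_M' p)
theorem ne_of_R {x y u v : V} (h : ¬F.R x y) (hu : F.R x u) (hv : F.R y v) : u ≠ v := by
  rintro rfl; exact h (hu.trans hv.symm)

/-- `F'` is at least as connected as `F`. -/
def Le (F F' : Fac G) : Prop := ∀ u v, F.R u v → F'.R u v

theorem le_of_ports {F' : Fac G} (h : ∀ p, F'.R p.1 (F.M p).1) : Le F F' := fun u _ huv =>
  huv.ind (P := fun z => F'.R u z) (R.refl u) fun p hp => hp.trans (h p)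

/-- The cycles of `x` and `y` can be joined. -/
def Merge (F : Fac G) (x y : V) : Prop := ∃ F' : Fac G, Le F F' ∧ F'.R x y

theorem Merge.symm {x y : V} (h : F.Merge x y) : F.Merge y x := by
  obtain ⟨F', h1, h2⟩ := h; exact ⟨F', h1, h2.symm⟩
theorem Merge.of_R {x y u v : V} (h : F.Merge u v) (hu : F.R x u) (hv : F.R y v) :
    F.Merge x y := by
  obtain ⟨F', h1, h2⟩ := h; exact ⟨F', h1, ((h1 _ _ hu).trans h2).trans (h1 _ _ hv).symm⟩

theorem Dir.refl (p : V × Bool) : F.Dir p p := ⟨0, rfl⟩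
theorem Dir.step {p q : V × Bool} (h : F.Dir p q) : F.Dir p (F.n q) := by
  obtain ⟨j, rfl⟩ := h; exact ⟨j + 1, Function.iterate_succ_apply' _ _ _⟩
theorem Dir_n (p : V × Bool) : F.Dir p (F.n p) := (Dir.refl p).step
theorem Dir.ind {p q : V × Bool} (h : F.Dir p q) {P : V × Bool → Prop} (hp : P p)
    (hP : ∀ z, F.Dir p z → P z → P (F.n z)) : P q := by
  obtain ⟨j, rfl⟩ := h
  induction j with
  | zero => exact hp
  | succ j ih => rw [Function.iterate_succ_apply']; exact hP _ ⟨j, rfl⟩ ih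
theorem Dir.trans {p q r : V × Bool} (h : F.Dir p q) (h' : F.Dir q r) : F.Dir p r :=
  h'.ind h fun _ _ hz => hz.step
theorem Dir.R {p q : V × Bool} (h : F.Dir p q) : F.R p.1 q.1 :=
  h.ind (P := fun z => F.R p.1 z.1) (R.refl _) fun _ _ hz => hz.step

theorem not_Dir_fl (p : V × Bool) : ¬F.Dir (fl p) p := by
  rintro ⟨m, hm⟩
  have key : ∀ j i, i + j = m → fl (F.n^[j] (fl p)) = F.n^[i] (fl p) := by
    intro j
    induction j with
    | zero => intro i hi; simp only [Nat.add_zero] at hi; subst hi; simp [hm]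
    | succ j ih =>
      intro i hi
      have := ih (i + 1) (by omega)
      rw [Function.iterate_succ_apply'] at this ⊢
      rw [fl_n, ← F.inv (F.n^[i] (fl p)), ← fl_n F (F.n^[i] (fl p)), ← this, fl_fl]
  rcases Nat.even_or_odd' m with ⟨j, hj | hj⟩
  · exact fl_ne _ (key j j (by omega))
  · have := key (j + 1) j (by omega)
    rw [Function.iterate_succ_apply', fl_n] at this
    exact F.ne _ (congrArg Prod.fst this)

variable [Finite V]

theorem Dir_n' (p : V × Bool) : F.Dir (F.n p) p := by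
  obtain ⟨m, hm, h⟩ := F.n_inj.mem_periodicPts p
  obtain ⟨j, rfl⟩ : ∃ j, m = j + 1 := ⟨m - 1, by omega⟩
  exact ⟨j, h⟩
theorem Dir.symm {p q : V × Bool} (h : F.Dir p q) : F.Dir q p :=
  h.ind (P := fun z => F.Dir z p) (Dir.refl p) fun z _ hz => (Dir_n' z).trans hz
theorem Dir_M (p : V × Bool) : F.Dir (fl p) (F.M p) := by
  have := Dir_n' (F := F) (F.M p); rwa [n_M] at this
theorem Dir.fl {p q : V × Bool} (h : F.Dir p q) : F.Dir (fl p) (fl q) :=
  h.ind (P := fun z => F.Dir (Pool.Agent.Lib.MP_dd4ef3_lc.fl p)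
    (Pool.Agent.Lib.MP_dd4ef3_lc.fl z)) (Dir.refl _) fun z _ hz => by
    rw [fl_n]; exact hz.trans (Dir_M z)
theorem Dir.M {p q : V × Bool} (h : F.Dir p q) : F.Dir (F.M p) (F.M q) :=
  ((Dir_M p).symm.trans h.fl).trans (Dir_M q)
theorem Dir.not_fl {p q : V × Bool} (h : F.Dir p q) :
    ¬F.Dir p (Pool.Agent.Lib.MP_dd4ef3_lc.fl q) := fun h' => not_Dir_fl q (h'.symm.trans h)
theorem Dir.not_M {p q : V × Bool} (h : F.Dir p q) : ¬F.Dir p (F.M q) := fun h' =>
  h.not_fl (h'.trans (Dir_M q).symm)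
theorem Dir.ne_M {p q : V × Bool} (h : F.Dir p q) : p ≠ F.M q := fun e =>
  h.not_M (e ▸ Dir.refl p)
theorem Dir.eq_of_fst {p q r : V × Bool} (h : F.Dir p q) (h' : F.Dir p r) (e : r.1 = q.1) :
    r = q := (port_eq e).resolve_right fun e' => h.not_fl (e' ▸ h')
theorem exists_Dir {p : V × Bool} {y : V} (h : F.R p.1 y) : ∃ q, q.1 = y ∧ F.Dir p q :=
  h.ind (P := fun z => ∃ q : V × Bool, q.1 = z ∧ F.Dir p q) ⟨p, rfl, Dir.refl p⟩ fun z hz => by
    obtain ⟨q, h1, h2⟩ := hz
    rcases port_eq h1 with rfl | rfl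
    · exact ⟨F.n q, rfl, h2.step⟩
    · exact ⟨F.M z, rfl, h2.trans (Dir_M z)⟩

omit [Finite V] in
theorem walk {F' : Fac G} {Z : V × Bool → Prop} (hZ : ∀ p, ¬Z p → F'.M p = F.M p)
    {p z : V × Bool} (h : F.Dir p z) (hq : ∀ q, Z q → F.Dir p q → q = z ∨ F.n q = p) :
    F'.R p.1 z.1 := by
  classical
  have key : ∀ j, j ≤ Nat.find h → F'.R p.1 (F.n^[j] p).1 := by
    intro j
    induction j with
    | zero => intro _; exact R.refl _
    | succ j ih =>
      intro hj
      rw [Function.iterate_succ_apply', n_fst, ← hZ]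
      · exact (ih (by omega)).step
      · intro hz
        rcases hq _ hz ⟨j, rfl⟩ with e | e
        · exact Nat.find_min h (by omega) e
        · refine Nat.find_min h (m := Nat.find h - (j + 1)) (by omega) ?_
          have h1 := Nat.find_spec h
          rw [show Nat.find h = (Nat.find h - (j + 1)) + (j + 1) by omega,
            Function.iterate_add_apply, Function.iterate_succ_apply', e] at h1
          exact h1
  have := key _ le_rfl
  rwa [Nat.find_spec h] at this

omit [Finite V] in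
theorem seg {F' : Fac G} {Z : V × Bool → Prop} (hZ : ∀ p, ¬Z p → F'.M p = F.M p)
    {p z : V × Bool} (h : F.Dir p z) (hz : Z z) : ∃ q, Z q ∧ F.Dir p q ∧ F'.R p.1 q.1 := by
  have := h.ind (P := fun w => F'.R p.1 w.1 ∨ ∃ q, Z q ∧ F.Dir p q ∧ F'.R p.1 q.1)
    (Or.inl (R.refl _)) fun w hw hP => by
      rcases hP with hP | hP
      · by_cases h1 : Z w
        · exact Or.inr ⟨w, h1, hw, hP⟩
        · left; rw [n_fst, ← hZ w h1]; exact hP.step
      · exact Or.inr hP
  rcases this with h1 | h1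
  exacts [⟨z, hz, h, h1⟩, h1]

end Fac

end Pool.Agent.Lib.MP_dd4ef3_lc
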