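import Pool.Agent.Lib.MP_dd4ef3_lc.H90Exch
import Pool.Agent.Lib.MP_dd4ef3_lc.H90Gallai

/-!
Vertices which see another cycle in one colour.
-/

namespace Pool.Agent.Lib.MP_dd4ef3_lc

variable {V K : Type} {G : GCol V K}

namespace Fac

variable (F : Fac G)

/-- `x` sees the cycle of `y` in colour `c`. -/
def Sing (x y : V) (c : K) : Prop := ∀ z, F.R y z → G.c x z = c

/-- Every vertex of the cycle of `x` sees the cycle of `y` in one colour. -/
def Dom (x y : V) : Prop := ∀ u, F.R x u → ∃ c, F.Sing u y c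

/-- The cycle of `y` alternates between two colours. -/
def Alt (y : V) (c c' : K) : Prop := c ≠ c' ∧ ∀ q : V × Bool, F.R y q.1 → F.k q = c ∨ F.k q = c'

/-- The vertex of the port sees the cycle of `y` in the colour of the port. -/
def Io (y : V) (p : V × Bool) : Prop := F.Sing p.1 y (F.k p)

/-- An exceptional port. -/
def Is (y : V) (p : V × Bool) : Prop :=
  ∃ c, F.Sing p.1 y c ∧ F.Alt y (F.k (fl p)) c ∧ c ≠ F.k p

/-- The two kinds of outgoing ports. -/
def Out (y : V) (p : V × Bool) : Prop := F.Io y p ∨ F.Is y p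

/-- The head of `p` can be inserted into the edge at `q`. -/
def Pat (p q : V × Bool) : Prop :=
  G.c (F.M p).1 q.1 = F.k q ∧ G.c (F.M p).1 (F.M q).1 = F.k (F.n p) ∧ F.k (F.n q) = F.k p ∧
    F.k q ≠ F.k (F.n p)

variable {F} {x y : V} {p q : V × Bool} {c c' : K}

theorem merge_of_R (h : F.R x y) : F.Merge x y := ⟨F, fun _ _ e => e, h⟩

theorem not_R (h : ¬F.Merge x y) {u v : V} (hu : F.R x u) (hv : F.R y v) : ¬F.R u v :=
  fun e => h ((merge_of_R e).of_R hu hv)

theorem nm_ne (h : ¬F.Merge x y) {u v : V} (hu : F.R x u) (hv : F.R y v) : u ≠ v := by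
  rintro rfl; exact not_R h hu hv (R.refl _)

theorem Sing.uniq (h : F.Sing x y c) (h' : F.Sing x y c') : c = c' :=
  (h y (R.refl _)).symm.trans (h' y (R.refl _))

theorem Alt.symm (h : F.Alt y c c') : F.Alt y c' c := ⟨h.1.symm, fun q hq => (h.2 q hq).symm⟩

theorem Alt.exists (h : F.Alt y c c') : ∃ q : V × Bool, q.1 = y ∧ F.k q = c := by
  rcases h.2 (y, true) (R.refl _) with e | e
  · exact ⟨_, rfl, e⟩
  · refine ⟨fl (y, true), rfl, (h.2 _ (R.refl _)).resolve_right fun e' => ?_⟩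
    exact F.k_fl _ (e.trans e'.symm)

theorem Alt.mem {d d' : K} (h : F.Alt y c c') (h' : F.Alt y d d') : c = d ∨ c = d' := by
  obtain ⟨q, rfl, rfl⟩ := h.exists
  exact h'.2 q (R.refl _)

theorem accept (h : ¬F.Alt y c c') :
    ∃ q : V × Bool, F.R y q.1 ∧ c ≠ F.k (fl q) ∧ c' ≠ F.k (F.n q) := by
  by_contra hc
  have H : ∀ q : V × Bool, F.R y q.1 → c = F.k (fl q) ∨ c' = F.k (F.n q) := by
    intro q hq
    by_contra h'
    exact hc ⟨q, hq, fun e => h' (Or.inl e), fun e => h' (Or.inr e)⟩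
  by_cases e : c = c'
  · subst e
    have H2 : ∀ q : V × Bool, F.R y q.1 → c ≠ F.k q := fun q hq e => by
      rcases H q hq with e' | e'
      exacts [F.k_fl q (e.symm.trans e'), F.k_n q (e'.symm.trans e)]
    rcases H (y, true) (R.refl _) with e' | e'
    exacts [H2 (fl (y, true)) (R.refl _) e', H2 (F.n (y, true)) (R_M (y, true)) e']
  · refine h ⟨e, fun r hr => ?_⟩
    by_contra h'
    push Not at h'
    have a1 := (H (fl r) hr).resolve_left
    have a2 := (H (F.n (F.M r)) (by simpa using hr)).resolve_left (by simpa using h'.1.symm)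
    have a3 := (H (F.M (fl r)) (R.step (p := fl r) hr)).resolve_right (by simpa using h'.2.symm)
    rw [n_M] at a2
    rw [fl_M] at a3
    exact e (a3.trans a2.symm)

theorem nonsing (h : ¬F.R x y) (h' : ¬∃ c, F.Sing x y c) :
    ∃ q : V × Bool, F.R y q.1 ∧ G.c x q.1 = F.k q ∧ G.c x (F.M q).1 ≠ F.k q := by
  by_contra hc
  refine h' ⟨G.c x y, fun z hz => (hz.ind (P := fun z => F.R y z ∧ G.c x z = G.c x y)
    ⟨R.refl _, rfl⟩ fun q hq => ⟨hq.1.step, ?_⟩).2⟩
  rw [← hq.2]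
  by_contra e
  rcases GCol.tri (G := G) (ne_of_R h (R.refl _) hq.1) (ne_of_R h (R.refl _) hq.1.step)
    (F.ne q).symm (Ne.symm e) with e' | e'
  · exact hc ⟨q, hq.1, e'.symm, fun a => e (a.trans e')⟩
  · exact hc ⟨F.M q, hq.1.step, by rw [k_M]; exact e'.symm, by
      rw [k_M, inv]; exact fun a => e (e'.symm.trans a.symm)⟩

theorem out_fl (h1 : F.Out y p) (h2 : F.Out y (fl p)) : False := by
  rcases h1 with h1 | ⟨c, a1, a2, a3⟩ <;> rcases h2 with h2 | ⟨d, b1, b2, b3⟩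
  · exact F.k_fl p (Sing.uniq h1 h2)
  · rw [fl_fl] at b2; exact b2.1 (Sing.uniq h1 b1)
  · exact a2.1 (Sing.uniq h2 a1)
  · rw [fl_fl, ← Sing.uniq a1 b1] at b2
    rcases a2.mem b2 with e | e
    exacts [F.k_fl p e.symm, a2.1 e]

theorem Out.sing (h : F.Out y p) : ∃ c, F.Sing p.1 y c := by
  rcases h with h | ⟨c, h, _⟩
  exacts [⟨_, h⟩, ⟨c, h⟩]

variable [Finite V]

theorem blocked (h : ¬F.Merge x y) (hp : F.R x p.1) (hq : F.R y q.1) :
    G.c p.1 q.1 = F.k (fl p) ∨ G.c p.1 q.1 = F.k (fl q) ∨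
      G.c (F.M p).1 (F.M q).1 = F.k (F.n p) ∨ G.c (F.M p).1 (F.M q).1 = F.k (F.n q) := by
  by_contra hc
  push Not at hc
  exact h ((ex2 p q (not_R h hp hq) hc.1 hc.2.1 hc.2.2.1 hc.2.2.2).of_R hp hq)

theorem blocked' (h : ¬F.Merge x y) (hp : F.R x p.1) (hq : F.R y q.1) :
    G.c p.1 (F.M q).1 = F.k (fl p) ∨ G.c p.1 (F.M q).1 = F.k (F.n q) ∨
      G.c (F.M p).1 q.1 = F.k (F.n p) ∨ G.c (F.M p).1 q.1 = F.k (fl q) := by
  simpa using blocked h hp hq.step

theorem sing2 (h : ¬F.Merge x y) (hp : F.R x p.1) (h1 : F.Sing p.1 y c)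
    (h2 : F.Sing (F.M p).1 y c') : c = F.k (fl p) ∨ c' = F.k (F.n p) ∨ F.Alt y c c' := by
  by_contra hc
  push Not at hc
  obtain ⟨q, hq, a1, a2⟩ := accept hc.2.2
  have := blocked h hp hq
  rw [h1 _ hq, h2 _ hq.step] at this
  tauto

theorem step_sing (h : ¬F.Merge x y) (hp : F.R x p.1) (h1 : F.Out y p)
    (h2 : F.Sing (F.M p).1 y c') : F.Out y (F.n p) := by
  by_cases e : c' = F.k (F.n p)
  · exact Or.inl (by rw [Io, ← e]; exact h2)
  rcases h1 with h1 | ⟨c, a1, a2, a3⟩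
  · rcases sing2 h hp h1 h2 with b | b | b
    exacts [absurd b (F.k_fl p), absurd b e, Or.inr ⟨c', h2, by simpa using b, e⟩]
  · exfalso
    rcases sing2 h hp a1 h2 with b | b | b
    · exact a2.1 b.symm
    · exact e b
    · have := G.gal p.1 (F.M p).1 y (F.ne p).symm (nm_ne h hp (R.refl _))
        (nm_ne h hp.step (R.refl _))
      rw [k_def, a1 _ (R.refl _), h2 _ (R.refl _)] at this
      rcases this with d | d | d
      · exact a3 d.symm
      · rcases a2.mem b with d' | d'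
        exacts [a2.1 d', F.k_fl p (d.trans d'.symm)]
      · exact b.1 d

theorem cs1 (h : ¬F.Merge x y) (hp : F.R x p.1) (h1 : F.Is y p) :
    ∃ c', F.Sing (F.M p).1 y c' := by
  obtain ⟨c, a1, a2, a3⟩ := h1
  by_contra hc
  obtain ⟨q, hq, b1, b2⟩ := nonsing (not_R h hp.step (R.refl _)) hc
  have t : ∀ z, F.R y z → G.c (F.M p).1 z = F.k p ∨ G.c (F.M p).1 z = c := fun z hz => by
    have := GCol.tri (G := G) (F.ne p).symm (nm_ne h hp hz) (nm_ne h hp.step hz)
      (by rw [k_def, a1 z hz]; exact a3.symm)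
    rwa [k_def, a1 z hz] at this
  have n : ∀ r : V × Bool, F.R y r.1 → F.k r ≠ F.k p := fun r hr e => by
    rcases a2.2 r hr with d | d
    exacts [F.k_fl p (e.symm.trans d), a3 (d.symm.trans e)]
  have e1 : F.k q = c := b1 ▸ (t _ hq).resolve_left (b1 ▸ n q hq)
  have e2 : G.c (F.M p).1 (F.M q).1 = F.k p := (t _ hq.step).resolve_right (e1 ▸ b2)
  have := blocked h hp hq
  rw [a1 _ hq, e2] at this
  rcases this with d | d | d | d
  exacts [a2.1 d.symm, F.k_fl q (e1.trans d), F.k_n p d.symm, n (F.n q) hq.step d.symm]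

theorem cs2 (h : ¬F.Merge x y) (hp : F.R x p.1) (h1 : F.Io y p) :
    (∃ c', F.Sing (F.M p).1 y c') ∨ ∃ q : V × Bool, F.R y q.1 ∧ F.Pat p q := by
  rw [or_iff_not_imp_left]
  intro hc
  obtain ⟨q, hq, b1, b2⟩ := nonsing (not_R h hp.step (R.refl _)) hc
  have H : ∀ s : V × Bool, F.R y s.1 → G.c (F.M p).1 s.1 = F.k (F.n p) ∨
      G.c (F.M p).1 s.1 = F.k (fl s) ∨ F.k (F.n s) = F.k p := fun s hs => by
    have := blocked' h hp hs
    rw [h1 _ hs.step] at this
    rcases this with d | d | d | d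
    exacts [absurd d (F.k_fl p), Or.inr (Or.inr d.symm), Or.inl d, Or.inr (Or.inl d)]
  by_cases e : F.k q = F.k (F.n p)
  · have hr : F.R y (F.n q).1 := hq.step
    have a1 : F.k (F.n (F.n q)) = F.k p := by
      rcases H (F.n q) hr with d | d | d
      exacts [absurd (d.trans e.symm) b2, absurd (by simpa using d) b2, d]
    have a2 : G.c (F.M p).1 (F.M (F.n q)).1 = F.k (F.n p) := by
      by_contra f
      have f1 : G.c (F.M p).1 (F.M (F.n q)).1 = F.k p := by
        rcases H (F.M (F.n q)) hr.step with d | d | d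
        · exact absurd d f
        · rw [d, fl_M, a1]
        · exact absurd (by simpa [e] using d) (F.k_n p)
      rcases H (F.n (F.n q)) hr.step with d | d | d
      · exact f d
      · rw [n_fst, f1, fl_n, k_M, ← a1] at d; exact F.k_n _ d
      · exact F.k_n _ (d.trans a1.symm)
    refine ⟨F.n q, hr, ?_, a2, a1, e ▸ F.k_n q⟩
    rcases GCol.tri (G := G) (nm_ne h hp.step hr) (nm_ne h hp.step hr.step) (F.ne _).symm
      (by rw [a2, ← e]; exact b2) with d | d
    · exact d.symm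
    · rw [k_def, a2, ← e] at d; exact absurd d (F.k_n q)
  · have a1 : F.k (F.n q) = F.k p := by
      rcases H q hq with d | d | d
      exacts [absurd (b1.symm.trans d) e, absurd (b1.symm.trans d) (F.k_fl q), d]
    refine ⟨q, hq, b1, ?_, a1, e⟩
    rcases H (F.n q) hq.step with d | d | d
    exacts [d, absurd (by simpa using d) b2, absurd (d.trans a1.symm) (F.k_n _)]

theorem out_step (h : ¬F.Merge x y) (hp : F.R x p.1) (h1 : F.Out y p) :
    F.Out y (F.n p) ∨ (F.Io y p ∧ ∃ q : V × Bool, F.R y q.1 ∧ F.Pat p q) := by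
  rcases h1 with h1 | h1
  · rcases cs2 h hp h1 with ⟨c, h2⟩ | h2
    exacts [Or.inl (step_sing h hp (Or.inl h1) h2), Or.inr ⟨h1, h2⟩]
  · obtain ⟨c, h2⟩ := cs1 h hp h1
    exact Or.inl (step_sing h hp (Or.inr h1) h2)

theorem Dom.out_n (h : ¬F.Merge x y) (hd : F.Dom x y) (hp : F.R x p.1) (h1 : F.Out y p) :
    F.Out y (F.n p) := by
  obtain ⟨c, h2⟩ := hd _ hp.step
  exact step_sing h hp h1 h2

theorem Dom.out_dir (h : ¬F.Merge x y) (hd : F.Dom x y) (hp : F.R x p.1) (h1 : F.Out y p)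
    (hq : F.Dir p q) : F.Out y q :=
  hq.ind h1 fun _ hz => hd.out_n h (hp.trans hz.R)

theorem Dom.exists_io (h : ¬F.Merge x y) (hd : F.Dom x y) :
    ∃ p : V × Bool, F.R x p.1 ∧ F.Io y p := by
  have hp : F.R x (x, true).1 := R.refl _
  generalize (x, true) = p at hp
  obtain ⟨c, h1⟩ := hd _ hp
  obtain ⟨c', h2⟩ := hd _ hp.step
  rcases sing2 h hp h1 h2 with e | e | e
  · exact ⟨fl p, hp, by rw [Io, ← e]; exact h1⟩
  · exact ⟨F.n p, hp.step, by rw [Io, ← e]; exact h2⟩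
  · have := G.gal p.1 (F.M p).1 y (F.ne p).symm (nm_ne h hp (R.refl _))
      (nm_ne h hp.step (R.refl _))
    rw [k_def, h1 _ (R.refl _), h2 _ (R.refl _)] at this
    rcases this with d | d | d
    · exact ⟨p, hp, by rw [Io, d]; exact h1⟩
    · exact ⟨F.M p, hp.step, by rw [Io, k_M, d]; exact h2⟩
    · exact absurd d e.1

theorem Dom.exists_out (h : ¬F.Merge x y) (hd : F.Dom x y) :
    ∃ p : V × Bool, p.1 = x ∧ F.Out y p := by
  obtain ⟨p, hp, h1⟩ := hd.exists_io h
  obtain ⟨q, hq, h2⟩ := exists_Dir (p := p) hp.symm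
  exact ⟨q, hq, hd.out_dir h hp (Or.inl h1) h2⟩

end Fac

end Pool.Agent.Lib.MP_dd4ef3_lc
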