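import Pool.Agent.Lib.MP_dd4ef3_lc.H90Two

/-!
The structure of a maximal factor outside a closed module.
-/

namespace Pool.Agent.Lib.MP_dd4ef3_lc

variable {V K : Type} {G : GCol V K}

namespace Fac

/-- A maximal factor with a closed module seen in at most two colours. -/
structure Ctx (F : Fac G) (T : Set V) (y : V) (ρ σ : K) : Prop where
  mx : F.Max
  md : G.Mod T
  hy : y ∈ T
  cl : ∀ u ∈ T, ∀ v, F.R u v → v ∈ T
  two : ∀ x, x ∉ T → G.c x y = ρ ∨ G.c x y = σ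

/-- Outgoing ports outside `T`. -/
def O (F : Fac G) (T : Set V) (y : V) (p : V × Bool) : Prop := p.1 ∉ T ∧ F.Out y p

/-- An edge whose colour differs from the colour in which its ends see `T`. -/
def Free (G : GCol V K) (T : Set V) (y u v : V) : Prop :=
  u ∉ T ∧ v ∉ T ∧ u ≠ v ∧ G.c u y = G.c v y ∧ G.c u v ≠ G.c u y

variable {F : Fac G} {T : Set V} {y : V} {ρ σ : K} {p q a b : V × Bool}

theorem Free.symm {u v : V} (h : Free G T y u v) : Free G T y v u :=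
  ⟨h.2.1, h.1, h.2.2.1.symm, h.2.2.2.1.symm, by rw [G.symm, ← h.2.2.2.1]; exact h.2.2.2.2⟩

theorem O.not_fl (h : F.O T y p) : ¬F.O T y (fl p) := fun e => out_fl h.2 e.2

theorem O.uniq (h : F.O T y p) (h' : F.O T y q) (e : q.1 = p.1) : q = p :=
  (port_eq e).resolve_right fun a => h.not_fl (a ▸ h')

theorem ne_of_mem {u v : V} (hu : u ∉ T) (hv : v ∈ T) : u ≠ v := fun e => hu (e ▸ hv)

namespace Ctx

variable (C : Ctx F T y ρ σ)

include C

theorem out {u v : V} (hu : u ∉ T) (h : F.R u v) : v ∉ T := fun e => hu (C.cl v e u h.symm)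

theorem nm {u : V} (hu : u ∉ T) : ¬F.Merge u y := fun e => C.out hu (C.mx _ _ e) C.hy

theorem col {u v : V} (hu : u ∉ T) (hv : v ∈ T) : G.c u v = G.c u y := C.md u hu v hv y C.hy

theorem col' {u v : V} (hu : u ∉ T) (hv : v ∈ T) : G.c v u = G.c u y :=
  (G.symm _ _).trans (C.col hu hv)

theorem sing {u : V} (hu : u ∉ T) : F.Sing u y (G.c u y) := fun z hz =>
  C.col hu (C.cl y C.hy z hz)

theorem dom {u : V} (hu : u ∉ T) : F.Dom u y := fun _ hv => ⟨_, C.sing (C.out hu hv)⟩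

theorem deg {u v : V} (hu : u ∉ T) (hv : v ∉ T) (h : G.c u y ≠ G.c v y) :
    G.c u v = G.c u y ∨ G.c u v = G.c v y := by
  have := GCol.tri (G := G) (ne_of_mem hu C.hy).symm (ne_of_mem hv C.hy).symm
    (fun e : u = v => h (e ▸ rfl)) (by rwa [G.symm, G.symm y])
  rwa [G.symm y, G.symm y] at this

variable [Finite V]

theorem o_dir (h : F.O T y p) (d : F.Dir p q) : F.O T y q :=
  ⟨C.out h.1 d.R, (C.dom h.1).out_dir (C.nm h.1) (R.refl _) h.2 d⟩

theorem o_n (h : F.O T y p) : F.O T y (F.n p) := C.o_dir h (Dir_n p)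

theorem not_M (h : F.O T y p) : ¬F.O T y (F.M p) := (C.o_n h).not_fl ∘ by simp

theorem tail {u : V} (hu : u ∉ T) : ∃ a, F.O T y a ∧ (F.M a).1 = u := by
  obtain ⟨p, rfl, h⟩ := (C.dom hu).exists_out (C.nm hu)
  exact ⟨F.M (fl p), C.o_dir ⟨hu, h⟩ (by simpa using Dir_M (fl p)), by simp⟩

theorem io_ne (h : F.O T y p) (e : F.k p = G.c p.1 y) : G.c (F.M p).1 y ≠ G.c p.1 y := by
  rcases (C.o_n h).2 with a | ⟨c, a1, a2, _⟩
  · rw [← e, ← n_fst, a _ (R.refl _)]; exact F.k_n p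
  · rw [← e, ← n_fst, a1 _ (R.refl _), ← k_M, ← fl_n]; exact a2.1.symm

omit C [Finite V] in
theorem star_alt (h : F.O T y p) (e : F.k p ≠ G.c p.1 y) : F.Alt y (F.k (fl p)) (G.c p.1 y) := by
  rcases h.2 with a | ⟨c, a1, a2, _⟩
  · exact absurd (a _ (R.refl _)).symm e
  · rwa [a1 _ (R.refl _)]

theorem star_pred (h : F.O T y a) (e : F.k (F.n a) ≠ G.c (F.M a).1 y) : F.k a = G.c a.1 y := by
  by_contra e'
  have := (star_alt (C.o_n h) e).mem (star_alt h e')
  rw [fl_n, k_M] at this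
  exact this.elim (F.k_fl a) e'

theorem star_col (h : F.O T y p) (e : F.k p ≠ G.c p.1 y) : F.k p ≠ ρ ∧ F.k p ≠ σ := by
  have h' := C.o_dir h (by simpa using Dir_M (fl p) : F.Dir p (F.M (fl p)))
  have a1 := C.star_pred h' (by simpa using e)
  have a2 := (star_alt h e).1
  have a3 := C.two _ h.1
  have a4 := C.two _ h'.1
  have a5 := F.k_fl p
  rw [k_M] at a1
  grind

theorem star_head (h : F.O T y p) (e : F.k p ≠ G.c p.1 y) : G.c (F.M p).1 y = G.c p.1 y := by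
  by_contra e'
  have a1 := C.deg h.1 (C.o_n h).1 (Ne.symm e')
  have a2 := C.star_col h e
  have a3 := C.two _ (C.o_n h).1
  rw [n_fst, k_def] at a1
  rw [n_fst] at a3
  grind

theorem fin {F1 : Fac G} {Z : V × Bool → Prop} (hZ : ∀ p, ¬Z p → F1.M p = F.M p)
    (hZ2 : ∀ z, Z z → z.1 ∈ T ∨ F.O T y z ∨ (F.O T y (F.M z) ∧ Z (F.M z)))
    (ha : F.O T y a) {t : V} (ht : t ∈ T) (cr : F1.R a.1 t)
    (tails : ∀ F2 : Fac G, Le F1 F2 → F2.Max → (∀ t ∈ T, F2.R y t) →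
      ∀ z, Z z → F.O T y z → F2.R y z.1) : False := by
  obtain ⟨F2, l, mx⟩ := F1.exists_max
  have hT : ∀ t ∈ T, F2.R y t := fun s hs =>
    (mx _ _ (mod_merge C.md ht C.hy (l _ _ cr).symm ha.1)).symm.trans
      (mx _ _ (mod_merge C.md ht hs (l _ _ cr).symm ha.1))
  have hd : ∀ z, Z z → F.O T y z → F2.R z.1 (F.M z).1 := fun z hz ho => by
    obtain ⟨w, w1, w2, w3⟩ := seg hZ (Dir_n' z) hz
    exact (tails F2 l mx hT z hz ho).symm.trans
      ((tails F2 l mx hT w w1 (C.o_dir (C.o_n ho) w2)).trans (l _ _ w3).symm)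
  refine C.nm ha.1 ⟨F2, le_of_ports fun z => ?_, (l _ _ cr).trans (hT t ht).symm⟩
  by_cases hz : Z z
  · rcases hZ2 z hz with e | e | e
    · exact (hT _ e).symm.trans (hT _ (C.cl _ e _ (R_M z)))
    · exact hd z hz e
    · simpa using (hd _ e.2 e.1).symm
  · exact l _ _ (R_of_M (hZ z hz))

theorem back {F1 : Fac G} {Z : V × Bool → Prop} (hZ : ∀ p, ¬Z p → F1.M p = F.M p)
    (ha : F.O T y a) (hz : Z (F.M a)) :
    ∃ w, Z w ∧ w.1 ∉ T ∧ ¬F.O T y w ∧ F1.R a.1 w.1 := by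
  obtain ⟨w, w1, w2, w3⟩ := seg hZ (Dir_M a) hz
  exact ⟨w, w1, C.out ha.1 w2.R, fun e => ha.not_fl (C.o_dir e w2.symm), w3⟩

omit [Finite V] in
theorem acc (c : K) : ∃ q : V × Bool, q.1 ∈ T ∧ (F.M q).1 ∈ T ∧ c ≠ F.k (fl q) ∧
    c ≠ F.k (F.n q) := by
  obtain ⟨q, h1, h2⟩ := accept (F := F) (y := y) (c := c) (c' := c) fun e => e.1 rfl
  exact ⟨q, C.cl _ C.hy _ h1, C.cl _ C.hy _ h1.step, h2⟩

theorem chordA (ha : F.O T y a) (hb : F.O T y b) (hf : Free G T y (F.M a).1 (F.M b).1)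
    (ia : F.k a = G.c a.1 y) (ib : F.k b = G.c b.1 y)
    (c1 : G.c (F.M a).1 (F.M b).1 ≠ F.k (F.n a)) (c2 : G.c (F.M a).1 (F.M b).1 ≠ F.k (F.n b)) :
    False := by
  obtain ⟨f1, f2, f3, f4, -⟩ := hf
  have g1 := C.io_ne ha ia
  have g2 := C.io_ne hb ib
  have g3 : G.c b.1 y = G.c a.1 y := by
    have := C.two _ f1
    have := C.two _ ha.1
    have := C.two _ hb.1
    grind
  have d1 : (F.M a).1 ≠ b.1 := fun e => g1 (by rw [e, g3])
  have d2 : (F.M b).1 ≠ a.1 := fun e => g2 (by rw [e, g3])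
  have d3 : b.1 ≠ a.1 := fun e => f3 (by rw [ha.uniq hb e])
  obtain ⟨q, q1, q2, q3, q4⟩ := C.acc (G.c a.1 y)
  obtain ⟨F1, e1, e2, e3, e4⟩ := alt3 (F := F) (F.M a) b (F.M q) (pne d1)
    (pne (ne_of_mem f1 q2)) (pne (ne_of_mem hb.1 q2)) (pne f3)
    (by simpa using pne (ne_of_mem f1 q1)) (by simpa using pne (ne_of_mem hb.1 q1)) f3
    (by simpa using ne_of_mem hb.1 q1) (by simpa using (ne_of_mem ha.1 q2).symm)
    (Or.inl (by simpa using c1)) (Or.inl c2)
    (Or.inl (by rw [inv, C.col hb.1 q1, ← ib]; exact F.k_fl b))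
    (Or.inl (by rw [inv, C.col hb.1 q1, g3, n_M]; exact q3))
    (Or.inl (by rw [inv, C.col' ha.1 q2]; exact q4))
    (Or.inl (by rw [inv, C.col' ha.1 q2, ← ia, n_M]; exact F.k_fl a))
    (Or.inr ⟨d1, by simpa using ne_of_mem f1 q1, F.ne b, by simpa using ne_of_mem f2 q1⟩)
    (Or.inr ⟨ne_of_mem f1 q2, by simpa using F.ne a, ne_of_mem f2 q2, by simpa using d2⟩)
    (Or.inr ⟨ne_of_mem hb.1 q2, by simpa using d3, by simpa using (F.ne q).symm,
      by simpa using (ne_of_mem ha.1 q1).symm⟩)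
  simp only [Z3, inv] at e2 e3 e4
  refine C.fin e4 ?_ hb q1 (R_of_M e2) fun F2 l _ hT z hz ho => ?_
  · rintro z (e | e | e | e | e | e) <;> simp [e, ha, hb, q1, q2]
  · rcases hz with e | e | e | e | e | e <;> rw [e] at ho ⊢
    · exact absurd ho (C.not_M ha)
    · exact (hT _ q2).trans (l _ _ (R_of_M e3))
    · exact (hT _ q1).trans (l _ _ (R_of_M e2)).symm
    · exact absurd ho (C.not_M hb)
    · exact hT _ q2
    · exact hT _ q1

theorem one_star (hp : F.O T y p) (hq : F.O T y q) (sp : F.k p ≠ G.c p.1 y)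
    (sq : F.k q ≠ G.c q.1 y) : p = q := by
  by_contra hne
  obtain ⟨a, ha, ea⟩ := C.tail hp.1
  obtain ⟨b, hb, eb⟩ := C.tail hq.1
  obtain rfl := (C.o_n ha).uniq hp ea.symm
  obtain rfl := (C.o_n hb).uniq hq eb.symm
  have ia := C.star_pred ha sp
  have ib := C.star_pred hb sq
  have al := star_alt hp sp
  have g2 := C.io_ne hb ib
  have sa := C.star_col hp sp
  have sb := C.star_col hq sq
  have ta := C.two _ ha.1
  have tb := C.two _ hb.1
  have tp := C.two _ hp.1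
  have tq := C.two _ hq.1
  simp only [fl_n, k_M, n_fst] at *
  obtain ⟨d, rfl, kd⟩ := al.exists
  have t1 := C.hy
  have t2 := C.cl _ t1 _ (R_M d)
  have r3 : F.R d.1 (F.M (F.n d)).1 := R.step (p := F.n d) (R_M d)
  have t3 := C.cl _ t1 _ r3
  have d1 : a.1 ≠ b.1 := fun e => hne (by rw [hb.uniq ha e])
  have d2 : (F.M b).1 ≠ (F.M a).1 := fun e => hne (hp.uniq hq e).symm
  have d3 : (F.M b).1 ≠ a.1 := fun e => sq (by rw [ha.uniq hq e, e, ia])
  have d4 : (F.M a).1 ≠ b.1 := fun e => sp (by rw [hb.uniq hp e, e, ib])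
  have k1 : G.c (F.M a).1 d.1 ≠ F.k (F.n (F.n d)) := by
    have := al.2 (F.n d) (R_M d)
    have := F.k_n d
    have := F.k_n (F.n d)
    grind
  obtain ⟨F1, e1, e2, e3, e4, e5⟩ := alt4 (F := F) a (F.M d) b (F.M (F.n d))
    (pne (ne_of_mem ha.1 t2)) (pne d1) (pne (ne_of_mem ha.1 t3)) (pne (ne_of_mem hb.1 t2).symm)
    (pne (F.ne (F.n d)).symm) (pne (ne_of_mem hb.1 t3)) (by simpa using pne (ne_of_mem ha.1 t1))
    (pne d3.symm) (by simpa using pne (q := F.n d) (ne_of_mem ha.1 t2))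
    (pne (ne_of_mem hq.1 t2).symm) (by simpa using (fl_ne (F.M d)).symm)
    (by simpa using pne (q := F.n d) (ne_of_mem hb.1 t2))
    (by simpa using ne_of_mem ha.1 t1) (ne_of_mem hq.1 t2).symm
    (by simpa using ne_of_mem hb.1 t2) (ne_of_mem hp.1 t3).symm
    (Or.inl (by rw [inv, ← ia]; exact F.k_fl a))
    (Or.inl (by rw [inv, n_M, ← ia, ← kd]; exact F.k_fl d)) (Or.inr (by simp [Z4]))
    (Or.inl (by rw [C.col' (u := (F.M b).1) hq.1 t2]; exact sq.symm))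
    (Or.inl (by rw [inv, n_fst, C.col hb.1 t2, ← ib]; exact F.k_fl b)) (Or.inr (by simp [Z4]))
    (Or.inl (by rw [C.col' (u := (F.M a).1) hp.1 t3]; exact k1))
    (Or.inl (by rw [C.col' (u := (F.M a).1) hp.1 t3]; exact sp.symm))
    (Or.inr ⟨ne_of_mem ha.1 t2, d3.symm, by simpa using (F.ne d).symm,
      by simpa using (ne_of_mem hq.1 t1).symm⟩)
    (Or.inr ⟨d1, by simpa using ne_of_mem ha.1 t2, by simpa using (ne_of_mem hb.1 t1).symm,
      by simpa using (F.ne d).symm⟩)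
    (Or.inr ⟨ne_of_mem ha.1 t3, (F.ne a).symm, by simpa using (F.nn_ne d).symm,
      by simpa using (ne_of_mem hp.1 t1).symm⟩)
    (Or.inl (by rw [C.col' (u := (F.M b).1) hq.1 t2, inv, n_fst, C.col hb.1 t2]; exact g2))
    (Or.inr ⟨(F.ne (F.n d)).symm, (ne_of_mem hp.1 t2).symm, ne_of_mem hq.1 t3, d2⟩)
    (Or.inr ⟨ne_of_mem hb.1 t3, d4.symm, by simpa using (F.ne (F.n d)).symm,
      by simpa using (ne_of_mem hp.1 t2).symm⟩)
  simp only [Z4, inv] at e1 e3 e5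
  refine C.fin e5 ?_ ha t1 (R_of_M e1) fun F2 l _ hT z hz ho => ?_
  · rintro z (e | e | e | e | e | e | e | e) <;> simp [e, ha, hb, t1, t2, t3]
  · rcases hz with e | e | e | e | e | e | e | e <;> rw [e] at ho ⊢
    · exact (l _ _ (R_of_M e1)).symm
    · exact absurd ho (C.not_M ha)
    · exact hT _ t2
    · exact hT _ t1
    · exact (hT _ t2).trans (l _ _ (R_of_M e3)).symm
    · exact absurd ho (C.not_M hb)
    · exact hT _ t3
    · exact hT _ t2

theorem io_of (hp : F.O T y p) (sp : F.k p ≠ G.c p.1 y) (ha : F.O T y a) (h : a ≠ p) :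
    F.k a = G.c a.1 y := by
  by_contra e
  exact h (C.one_star ha hp e sp)

theorem other (hp : F.O T y p) (sp : F.k p ≠ G.c p.1 y) (ha : F.O T y a) (hb : F.O T y b)
    (h1 : a ≠ p) (h2 : b ≠ p) (e : G.c (F.M a).1 y = G.c (F.M b).1 y) :
    G.c b.1 y = G.c a.1 y := by
  have := C.io_ne ha (C.io_of hp sp ha h1)
  have := C.io_ne hb (C.io_of hp sp hb h2)
  have := C.two _ (C.o_n ha).1
  have := C.two _ ha.1
  have := C.two _ hb.1
  simp only [n_fst] at *
  grind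

theorem x1 (hp : F.O T y p) (sp : F.k p ≠ G.c p.1 y) {u v : V} (fu : Free G T y p.1 u)
    (fv : Free G T y (F.M p).1 v) (cu : G.c p.1 u = F.k p) (n1 : u ≠ (F.M p).1) (n2 : v ≠ p.1)
    (n3 : u ≠ v) : False := by
  obtain ⟨a, ha, rfl⟩ := C.tail fu.2.1
  obtain ⟨b, hb, rfl⟩ := C.tail fv.2.1
  obtain ⟨-, f1, f2, f3, -⟩ := fu
  obtain ⟨f0, f4, f5, f6, f7⟩ := fv
  have sh := C.star_head hp sp
  have pa : a ≠ p := fun e => n1 (by rw [e])
  have pb : b ≠ p := fun e => f5 (by rw [e])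
  have ia := C.io_of hp sp ha pa
  have ib := C.io_of hp sp hb pb
  have g1 := C.io_ne ha ia
  have g3 := C.other hp sp ha hb pa pb (by rw [← f3, ← f6, sh])
  have ia' : F.k (F.n a) = G.c p.1 y :=
    (C.io_of hp sp (C.o_n ha) fun e => f2 (by rw [← e]; rfl)).trans f3.symm
  have ib' : F.k (F.n b) = G.c p.1 y :=
    (C.io_of hp sp (C.o_n hb) fun e => n2 (by rw [← e]; rfl)).trans (f6.symm.trans sh)
  have ip' : F.k (F.n p) = G.c p.1 y :=
    (C.io_of hp sp (C.o_n hp) (pne (p := F.n p) (F.ne p))).trans sh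
  have m : ∀ s t : V, G.c s y = G.c p.1 y → G.c t y = G.c a.1 y → s ≠ t := by
    rintro s t h1 h2 rfl
    exact g1 (by rw [← f3, ← h1, h2])
  have d3 : a.1 ≠ b.1 := fun e => n3 (by rw [hb.uniq ha e])
  have gb := f6.symm.trans sh
  obtain ⟨q, q1, q2, q3, q4⟩ := C.acc (G.c a.1 y)
  obtain ⟨F1, e1, e2, e3, e4, e5⟩ := alt4 (F := F) p a (F.M q) (F.M b) pa.symm
    (pne (ne_of_mem hp.1 q2)) (pne n2.symm) (pne (ne_of_mem ha.1 q2)) (pne (m _ _ gb rfl).symm)
    (pne (ne_of_mem f4 q2).symm) (pne f2) (by simpa using pne (ne_of_mem hp.1 q1))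
    (by simpa using pb.symm) (by simpa using pne (ne_of_mem ha.1 q1)) (by simpa using pne d3)
    (by simpa using pne (ne_of_mem hb.1 q2).symm) f2 (by simpa using ne_of_mem ha.1 q1)
    (by simpa using (ne_of_mem hb.1 q2).symm) f5.symm
    (Or.inl (cu ▸ F.k_fl p)) (Or.inl (by rw [cu, ia']; exact sp))
    (Or.inl (by rw [inv, C.col ha.1 q1, ← ia]; exact F.k_fl a))
    (Or.inl (by rw [inv, C.col ha.1 q1, n_M]; exact q3))
    (Or.inl (by rw [inv, C.col' hb.1 q2, g3]; exact q4))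
    (Or.inl (by rw [inv, C.col' hb.1 q2, ← ib, n_M]; exact F.k_fl b))
    (Or.inl (by rw [G.symm, fl_M, ib', ← sh]; exact f7))
    (Or.inl (by rw [G.symm, ip', ← sh]; exact f7))
    (Or.inr ⟨m _ _ rfl rfl, by simpa using ne_of_mem hp.1 q1, F.ne a,
      by simpa using ne_of_mem f1 q1⟩)
    (Or.inr ⟨ne_of_mem hp.1 q2, by simpa using m _ _ rfl g3, ne_of_mem f1 q2,
      by simpa using m _ _ f3.symm g3⟩)
    (Or.inr ⟨n2.symm, (F.ne p).symm, n3, n1⟩)
    (Or.inr ⟨ne_of_mem ha.1 q2, by simpa using d3, by simpa using (F.ne q).symm,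
      by simpa using (ne_of_mem hb.1 q1).symm⟩)
    (Or.inr ⟨(m _ _ gb rfl).symm, (m _ _ sh rfl).symm, by simpa using (ne_of_mem f4 q1).symm,
      by simpa using (ne_of_mem f0 q1).symm⟩)
    (Or.inr ⟨(ne_of_mem f4 q2).symm, (ne_of_mem f0 q2).symm, by simpa using (F.ne b).symm,
      by simpa using (m _ _ sh g3).symm⟩)
  simp only [Z4, inv] at e2 e3 e5
  refine C.fin e5 ?_ ha q1 (R_of_M e2) fun F2 l mx hT z hz ho => ?_
  · rintro z (e | e | e | e | e | e | e | e) <;> simp [e, ha, hb, hp, q1, q2]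
  have ra := (hT _ q1).trans (l _ _ (R_of_M e2)).symm
  have rz : F2.R y (F.M p).1 → F2.R y p.1 := fun h => by
    have hs := C.star_col hp sp
    refine h.trans (mx _ _ (mod_merge (X := G.comp Set.univ (F.k p) p.1)
      (GCol.comp_mod (fun _ e => absurd trivial e) trivial)
      (GCol.comp_step trivial (GCol.mem_comp _) trivial (F.ne p).symm rfl) (GCol.mem_comp _)
      h.symm fun e => GCol.comp_ind (S := Tᶜ) hp.1 (fun s hs t _ e ht => ?_) e C.hy))
    have := C.two s hs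
    rw [C.col hs ht] at e
    grind
  rcases hz with e | e | e | e | e | e | e | e <;> rw [e] at ho ⊢
  · obtain ⟨w, w1, w2, w3, w4⟩ := C.back e5 ha (by simp)
    have w5 := ra.trans (l _ _ w4)
    rcases w1 with e | e | e | e | e | e | e | e <;> rw [e] at w2 w3 w5
    · exact absurd hp w3
    · exact rz w5
    · exact absurd ha w3
    · exact w5.trans (l _ _ (R_of_M e1)).symm
    · exact absurd q2 w2
    · exact absurd q1 w2
    · exact rz (w5.trans (l _ _ (R_of_M e4)))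
    · exact absurd hb w3
  · exact absurd ho (C.not_M hp)
  · exact ra
  · exact absurd ho (C.not_M ha)
  · exact hT _ q2
  · exact hT _ q1
  · exact absurd ho (C.not_M hb)
  · exact (hT _ q2).trans (l _ _ (R_of_M e3))

theorem x2 (hp : F.O T y p) (sp : F.k p ≠ G.c p.1 y) {v : V} (fv : Free G T y (F.M p).1 v) :
    G.c (F.M p).1 v = F.k p := by
  by_contra cv
  have n2 : v ≠ p.1 := fun e => cv (by rw [e, k_def'])
  obtain ⟨a, ha, rfl⟩ := C.tail fv.2.1
  obtain ⟨b, hb, eb⟩ := C.tail hp.1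
  obtain rfl := (C.o_n hb).uniq hp eb.symm
  obtain ⟨f0, f4, f5, f6, f7⟩ := fv
  set p := F.n b with hpb
  have hn := C.o_n hp
  have hnn := C.o_n hn
  have sh := C.star_head hp sp
  have pa : a ≠ p := fun e => f5 (by rw [e])
  have pb : b ≠ p := (pne (p := F.n b) (F.ne b)).symm
  have pn : F.n p ≠ p := pne (p := F.n p) (F.ne p)
  have ia := C.io_of hp sp ha pa
  have ib := C.io_of hp sp hb pb
  have g1 := C.io_ne ha ia
  have ga := f6.symm.trans sh
  have g3 := C.other hp sp ha hb pa pb ga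
  have ia' : F.k (F.n a) = G.c p.1 y :=
    (C.io_of hp sp (C.o_n ha) fun e => n2 (by rw [← e]; rfl)).trans ga
  have ip' : F.k (F.n p) = G.c p.1 y := (C.io_of hp sp hn pn).trans sh
  have g4 : G.c (F.M (F.n p)).1 y = G.c a.1 y := by
    have := C.io_ne hn (C.io_of hp sp hn pn)
    have := C.two _ hnn.1
    have := C.two _ ha.1
    have := C.two _ hp.1
    simp only [n_fst] at *
    grind
  have m : ∀ s t : V, G.c s y = G.c p.1 y → G.c t y = G.c a.1 y → s ≠ t := by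
    rintro s t h1 h2 rfl
    exact g1 (by rw [ga, ← h1, h2])
  have g5 : G.c a.1 y ≠ G.c p.1 y := ga ▸ g1.symm
  have inn : F.k (F.n (F.n p)) = G.c a.1 y :=
    (C.io_of hp sp hnn (pne (p := F.n (F.n p)) (F.nn_ne p))).trans g4
  have cs : G.c p.1 (F.M (F.n p)).1 = G.c p.1 y := by
    have a1 := C.deg (v := (F.M (F.n p)).1) hp.1 hnn.1 (by rw [g4]; exact g5.symm)
    have a2 := GCol.tri (G := G) (F.ne p) (F.ne (F.n p)).symm (F.nn_ne p).symm
      (by rw [k_def']; exact (F.k_n p).symm)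
    have a3 := C.star_col hp sp
    have a4 := C.two _ ha.1
    rw [k_def'] at a2
    change _ ∨ _ = F.k (F.n p) at a2
    rw [g4] at a1
    grind
  have d3 : a.1 ≠ b.1 := fun e => n2 (by rw [hb.uniq ha e]; rfl)
  obtain ⟨q, q1, q2, q3, q4⟩ := C.acc (G.c a.1 y)
  obtain ⟨F1, e1, e2, e3, e4, e5⟩ := alt4 (F := F) (F.n p) a (F.M q) (F.M b) (pne (m _ _ sh rfl))
    (pne (ne_of_mem f0 q2)) (pne (p := F.n p) (F.ne p)) (pne (ne_of_mem ha.1 q2))
    (pne (m p.1 _ rfl rfl).symm) (pne (ne_of_mem hp.1 q2).symm) (pne f5)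
    (by simpa using pne (p := F.n p) (ne_of_mem f0 q1))
    (by simpa using pne (p := F.n p) (m _ _ sh g3)) (by simpa using pne (ne_of_mem ha.1 q1))
    (by simpa using pne d3) (by simpa using pne (ne_of_mem hb.1 q2).symm) f5
    (by simpa using ne_of_mem ha.1 q1) (by simpa using (ne_of_mem hb.1 q2).symm)
    (F.nn_ne p).symm (Or.inl (by rw [fl_n, k_M]; exact cv)) (Or.inl (by rw [ia', ← sh]; exact f7))
    (Or.inl (by rw [inv, C.col ha.1 q1, ← ia]; exact F.k_fl a))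
    (Or.inl (by rw [inv, C.col ha.1 q1, n_M]; exact q3))
    (Or.inl (by rw [inv, C.col' hb.1 q2, g3]; exact q4))
    (Or.inl (by rw [inv, C.col' hb.1 q2, ← ib, n_M]; exact F.k_fl b))
    (Or.inl fun e => sp (e.symm.trans cs)) (Or.inl fun e => g5 (inn.symm.trans (e.symm.trans cs)))
    (Or.inr ⟨m _ _ sh rfl, by simpa using ne_of_mem f0 q1, F.ne a,
      by simpa using ne_of_mem f4 q1⟩)
    (Or.inr ⟨ne_of_mem f0 q2, by simpa using m _ _ sh g3, ne_of_mem f4 q2,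
      by simpa using m _ _ ga g3⟩)
    (Or.inr ⟨F.ne p, (F.ne (F.n p)).symm, n2, m _ _ ga g4⟩)
    (Or.inr ⟨ne_of_mem ha.1 q2, by simpa using d3, by simpa using (F.ne q).symm,
      by simpa using (ne_of_mem hb.1 q1).symm⟩)
    (Or.inl (by rw [inv, C.col ha.1 q1]; exact fun e => g5 (e.trans cs)))
    (Or.inl (by rw [inv, C.col' hb.1 q2, g3]; exact fun e => g5 (e.trans cs)))
  simp only [Z4, inv] at e2 e3 e5
  refine C.fin e5 ?_ ha q1 (R_of_M e2) fun F2 l mx hT z hz ho => ?_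
  · rintro z (e | e | e | e | e | e | e | e) <;> simp [e, ha, hb, hn, q1, q2]
  have ra := (hT _ q1).trans (l _ _ (R_of_M e2)).symm
  have rp : F2.R p.1 (F.M p).1 := l _ _ (R_of_M (e5 p (by
    rintro (e | e | e | e | e | e | e | e)
    exacts [pn e.symm, C.not_M hn (e ▸ hp), pa e.symm, C.not_M ha (e ▸ hp), hp.1 (e ▸ q2),
      hp.1 (e ▸ q1), C.not_M hb (e ▸ hp), pb e.symm])))
  rcases hz with e | e | e | e | e | e | e | e <;> rw [e] at ho ⊢
  · obtain ⟨w, w1, w2, w3, w4⟩ := C.back e5 ha (by simp)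
    have w5 := ra.trans (l _ _ w4)
    rcases w1 with e | e | e | e | e | e | e | e <;> rw [e] at w2 w3 w5
    · exact w5
    · exact (w5.trans (l _ _ (R_of_M e4)).symm).trans rp
    · exact absurd ha w3
    · exact w5.trans (l _ _ (R_of_M e1)).symm
    · exact absurd q2 w2
    · exact absurd q1 w2
    · exact w5.trans rp
    · exact absurd hb w3
  · exact absurd ho (C.not_M hn)
  · exact ra
  · exact absurd ho (C.not_M ha)
  · exact hT _ q2
  · exact hT _ q1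
  · exact absurd ho (C.not_M hb)
  · exact (hT _ q2).trans (l _ _ (R_of_M e3))

theorem free_star {u v : V} (h : Free G T y u v) : ∃ p, F.O T y p ∧ F.k p ≠ G.c p.1 y ∧
    G.c u v = F.k p ∧ (u = p.1 ∨ v = p.1 ∨ u = (F.M p).1 ∨ v = (F.M p).1) := by
  obtain ⟨a, ha, rfl⟩ := C.tail h.1
  obtain ⟨b, hb, rfl⟩ := C.tail h.2.1
  by_cases ia : F.k a = G.c a.1 y
  swap
  · exact ⟨a, ha, ia, C.x2 ha ia h, by simp⟩
  by_cases ib : F.k b = G.c b.1 y
  swap
  · exact ⟨b, hb, ib, G.symm _ _ ▸ C.x2 hb ib h.symm, by simp⟩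
  by_cases c1 : G.c (F.M a).1 (F.M b).1 = F.k (F.n a)
  · exact ⟨F.n a, C.o_n ha, c1 ▸ h.2.2.2.2, c1, by simp⟩
  by_cases c2 : G.c (F.M a).1 (F.M b).1 = F.k (F.n b)
  · exact ⟨F.n b, C.o_n hb, by rw [← c2, n_fst, ← h.2.2.2.1]; exact h.2.2.2.2, c2, by simp⟩
  exact (C.chordA ha hb h ia ib c1 c2).elim

theorem free_of (hp : F.O T y p) (sp : F.k p ≠ G.c p.1 y) {u v : V} (h : Free G T y u v) :
    G.c u v = F.k p ∧ (u = p.1 ∨ v = p.1 ∨ u = (F.M p).1 ∨ v = (F.M p).1) := by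
  obtain ⟨q, hq, sq, e⟩ := C.free_star h
  rwa [C.one_star hp hq sp sq]

theorem free_meet (hp : F.O T y p) (sp : F.k p ≠ G.c p.1 y) {u v u' v' : V} (h : Free G T y u v)
    (h' : Free G T y u' v') : u = u' ∨ u = v' ∨ v = u' ∨ v = v' := by
  by_contra hc
  push Not at hc
  obtain ⟨n1, n2, n3, n4⟩ := hc
  have key : ∀ s t, Free G T y p.1 s → Free G T y (F.M p).1 t → s ≠ (F.M p).1 → t ≠ p.1 →
      s ≠ t → False := fun s t a b => C.x1 hp sp a b (C.free_of hp sp a).1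
  rcases (C.free_of hp sp h).2 with rfl | rfl | rfl | rfl <;>
    rcases (C.free_of hp sp h').2 with rfl | rfl | rfl | rfl <;>
    first
      | exact n1 rfl | exact n2 rfl | exact n3 rfl | exact n4 rfl
      | exact key _ _ h h' n3 n2.symm n4 | exact key _ _ h h'.symm n4 n1.symm n3
      | exact key _ _ h.symm h' n1 n4.symm n2 | exact key _ _ h.symm h'.symm n2 n3.symm n1
      | exact key _ _ h' h n2.symm n3 n4.symm | exact key _ _ h'.symm h n1.symm n4 n3.symm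
      | exact key _ _ h' h.symm n4.symm n1 n2.symm
      | exact key _ _ h'.symm h.symm n3.symm n2 n1.symm

end Ctx

end Fac

end Pool.Agent.Lib.MP_dd4ef3_lc
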