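import Pool.Agent.Lib.MP_dd4ef3_lc.H90Sing

/-!
Two cycles with only two colours between them.
-/

namespace Pool.Agent.Lib.MP_dd4ef3_lc

variable {V K : Type} {G : GCol V K}

theorem fin_back {α : Type} [Finite α] {f : α → α} {S : Set α} (hm : Set.MapsTo f S S)
    (hi : Set.InjOn f S) {P : α → Prop} (hP : ∀ y ∈ S, P y → P (f y)) {x : α} (hx : x ∈ S)
    (h : P (f x)) : P x := by
  have m : Set.MapsTo f {y ∈ S | P y} {y ∈ S | P y} := fun y hy => ⟨hm hy.1, hP y hy.1 hy.2⟩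
  obtain ⟨y, hy, e⟩ := ((Set.toFinite _).injOn_iff_bijOn_of_mapsTo m).1
    (hi.mono fun y hy => hy.1) |>.surjOn ⟨hm hx, h⟩
  exact hi hy.1 hx e ▸ hy.2

namespace Fac

/-- A virtual two-colouring of some edges of a factor. -/
structure VC (F : Fac G) (ρ σ : K) (S : Set (V × Bool)) (ν : V × Bool → K) : Prop where
  v1 : ∀ p ∈ S, F.M p ∈ S
  v2 : ∀ p ∈ S, ν (F.M p) = ν p
  v3 : ∀ p ∈ S, ν p = ρ ∨ ν p = σ
  v4 : ∀ p, F.k p = ρ ∨ F.k p = σ → p ∈ S ∧ ν p = F.k p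
  v5 : ∀ p ∈ S, fl p ∈ S → ν (fl p) ≠ ν p

/-- A maximal virtual two-colouring. -/
structure Units (F : Fac G) (ρ σ : K) (S : Set (V × Bool)) (ν : V × Bool → K)
    (j : V × Bool → V × Bool) : Prop extends VC F ρ σ S ν where
  u1 : ∀ p, p ∉ S → fl p ∈ S
  u2 : ∀ p ∈ S, j p ∈ S
  u3 : ∀ p ∈ S, ν (j p) ≠ ν p
  u4 : ∀ p, fl p ∈ S → j p = fl p
  u5 : ∀ p, fl p ∉ S → j p = F.n (fl p)

variable {F : Fac G} {ρ σ : K} {x y : V}

theorem VC.extend {S : Set (V × Bool)} {ν : V × Bool → K} (h : VC F ρ σ S ν) {p : V × Bool}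
    (hp : p ∉ S) {c : K} (hc : c = ρ ∨ c = σ) (h1 : fl p ∈ S → ν (fl p) ≠ c)
    (h2 : F.n p ∈ S → ν (F.n p) ≠ c) : ∃ ν', VC F ρ σ (insert p (insert (F.M p) S)) ν' := by
  classical
  have hp' : F.M p ∉ S := fun e => hp (by simpa using h.v1 _ e)
  have n1 : fl p ≠ F.M p := pne (p := fl p) (F.ne p).symm
  have n2 : F.n p ≠ p := pne (p := F.n p) (F.ne p)
  have n3 : F.n p ≠ F.M p := fl_ne _
  refine ⟨fun q => if q ∈ S then ν q else c, ?_, ?_, ?_, ?_, ?_⟩
  · rintro q (rfl | rfl | hq)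
    · simp
    · simp
    · simp [h.v1 q hq]
  · rintro q (rfl | rfl | hq)
    · simp [hp, hp']
    · simp [hp, hp']
    · simp [hq, h.v1 q hq, h.v2 q hq]
  · rintro q (rfl | rfl | hq)
    · simpa [hp]
    · simpa [hp']
    · simpa [hq] using h.v3 q hq
  · intro q hq
    simp [(h.v4 q hq).1, (h.v4 q hq).2]
  · rintro q (rfl | rfl | hq) hq'
    · have : fl q ∈ S := by simpa [fl_ne, n1] using hq'
      simpa [hp, this] using h1 this
    · have : F.n p ∈ S := by simpa [n2, n3] using hq'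
      simpa [hp', this] using h2 this
    · rcases hq' with e | e | e
      · have e' : q = fl p := by rw [← e, fl_fl]
        subst e'
        simpa [hp, hq] using (h1 hq).symm
      · have e' : q = F.n p := by rw [← fl_M, ← e, fl_fl]
        subst e'
        simpa [hp', hq] using (h2 hq).symm
      · simpa [e, hq] using h.v5 q hq e

variable [Finite V]

theorem exists_units (F : Fac G) (hne : ρ ≠ σ) : ∃ S ν j, Units F ρ σ S ν j := by
  classical
  obtain ⟨S, ⟨ν, h⟩, hmax⟩ := Set.exists_max_image {S | ∃ ν, VC F ρ σ S ν} Set.ncard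
    (Set.toFinite _) ⟨{p | F.k p = ρ ∨ F.k p = σ}, F.k, fun p hp => by simpa using hp,
      fun p _ => F.k_M p, fun p hp => hp, fun p hp => ⟨hp, rfl⟩, fun p _ _ => (F.k_fl p).symm⟩
  have key : ∀ p, p ∉ S → fl p ∈ S ∧ F.n p ∈ S ∧ ν (F.n p) ≠ ν (fl p) := by
    intro p hp
    by_contra hc
    obtain ⟨c, h0, h1, h2⟩ : ∃ c, (c = ρ ∨ c = σ) ∧ (fl p ∈ S → ν (fl p) ≠ c) ∧
        (F.n p ∈ S → ν (F.n p) ≠ c) := by
      have a1 := h.v3 (fl p)
      have a2 := h.v3 (F.n p)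
      by_cases e : (fl p ∈ S → ν (fl p) ≠ ρ) ∧ (F.n p ∈ S → ν (F.n p) ≠ ρ)
      · exact ⟨ρ, Or.inl rfl, e⟩
      · exact ⟨σ, Or.inr rfl, by grind⟩
    exact (hmax _ (h.extend hp h0 h1 h2)).not_gt (Set.ncard_lt_ncard
      ⟨fun q hq => Or.inr (Or.inr hq), fun e => hp (e (Or.inl rfl))⟩ (Set.toFinite _))
  refine ⟨S, ν, fun p => if fl p ∈ S then fl p else F.n (fl p), h, fun p hp => (key p hp).1,
    fun p hp => ?_, fun p hp => ?_, fun p hp => if_pos hp, fun p hp => if_neg hp⟩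
  · split_ifs with e
    exacts [e, (key _ e).2.1]
  · split_ifs with e
    exacts [h.v5 p hp e, by simpa using (key _ e).2.2]

namespace Units

variable {S : Set (V × Bool)} {ν : V × Bool → K} {j : V × Bool → V × Bool}
  (U : Units F ρ σ S ν j) {p q : V × Bool}

include U

omit [Finite V] in
theorem jj (hp : p ∈ S) : j (j p) = p := by
  by_cases e : fl p ∈ S
  · rw [U.u4 p e, U.u4 _ (by simpa), fl_fl]
  · rw [U.u5 p e, U.u5 _ fun e' => e (by simpa using U.v1 _ e')]; simp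

omit [Finite V] in
theorem nu_ne (hp : p ∈ S) : ν p ≠ F.k (fl p) := fun e => by
  obtain ⟨a, b⟩ := U.v4 (fl p) (e ▸ U.v3 p hp)
  exact U.v5 p hp a (b.trans e.symm)

omit [Finite V] in
theorem nu_ne' (hp : p ∈ S) : ν p ≠ F.k (F.n p) := U.v2 p hp ▸ U.nu_ne (U.v1 p hp)

omit [Finite V] in
theorem R_j (hp : F.R x p.1) : F.R x (j p).1 := by
  by_cases e : fl p ∈ S
  · rw [U.u4 p e]; exact hp
  · rw [U.u5 p e]; exact R.step (p := fl p) hp

omit [Finite V] in
theorem dir_j (p : V × Bool) : F.Dir p (j (F.M p)) := by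
  by_cases e : fl (F.M p) ∈ S
  · rw [U.u4 _ e]; exact Dir_n p
  · rw [U.u5 _ e]; exact (Dir_n p).step

omit [Finite V] in
theorem n_ne (hp : p ∈ S) (hq : q ∈ S) (e : ν q = ν p) : F.n p ≠ q := by
  rintro rfl
  exact U.v5 _ (U.v1 p hp) hq (e.trans (U.v2 p hp).symm)

omit [Finite V] in
theorem twin (h : ¬F.Merge x y) (H : ∀ u v, F.R x u → F.R y v → G.c u v = ρ ∨ G.c u v = σ)
    {u : V} (hu : F.R x u) (hq : F.R y q.1) (e : q ∉ S) : G.c u (F.M q).1 = G.c u q.1 :=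
  (GCol.twin (nm_ne h hu hq) (nm_ne h hu hq.step) (F.ne q).symm
    (fun a => e (U.v4 q (by rw [← k_def, ← a]; exact H _ _ hu hq)).1)
    (fun a => e (U.v4 q (by rw [← k_def, ← a]; exact H _ _ hu hq.step)).1)).symm

omit [Finite V] in
theorem twin_j (h : ¬F.Merge x y) (H : ∀ u v, F.R x u → F.R y v → G.c u v = ρ ∨ G.c u v = σ)
    {u : V} (hu : F.R x u) (hq : F.R y q.1) : G.c u (j q).1 = G.c u q.1 := by
  by_cases e : fl q ∈ S
  · rw [U.u4 q e, fl_fst]
  · rw [U.u5 q e]; exact U.twin h H hu (q := fl q) hq e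

omit [Finite V] in
theorem nb_inj : Set.InjOn (fun p => j (F.M p)) S := fun a ha b hb e => by
  have := congrArg j e
  simp only [U.jj (U.v1 a ha), U.jj (U.v1 b hb)] at this
  exact F.M_inj this

omit [Finite V] in
theorem nu_nb (hp : p ∈ S) : ν (j (F.M p)) ≠ ν p := U.v2 p hp ▸ U.u3 _ (U.v1 p hp)

theorem flip (h : ¬F.Merge x y) (H : ∀ u v, F.R x u → F.R y v → G.c u v = ρ ∨ G.c u v = σ)
    (hp : p ∈ S) (hq : q ∈ S) (xp : F.R x p.1) (yq : F.R y q.1) (e : ν q = ν p) :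
    G.c (F.M p).1 (F.M q).1 ≠ G.c p.1 q.1 := by
  have h' : ¬F.Merge y x := fun e => h e.symm
  have H' : ∀ u v, F.R y u → F.R x v → G.c u v = ρ ∨ G.c u v = σ := fun u v a b => by
    rw [G.symm]; exact H _ _ b a
  have A : ∀ p ∈ S, ∀ q ∈ S, F.R x p.1 → F.R y q.1 → ν q = ν p → G.c p.1 q.1 = ν p →
      G.c (F.M p).1 (F.M q).1 ≠ ν p := fun p hp q hq xp yq e a b => by
    have := blocked h xp yq
    rw [a, b] at this
    rcases this with d | d | d | d
    exacts [U.nu_ne hp d, U.nu_ne hq (e.trans d), U.nu_ne' hp d, U.nu_ne' hq (e.trans d)]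
  have T : ∀ p q : V × Bool, F.R x p.1 → F.R y q.1 →
      G.c (j (F.M p)).1 (j (F.M q)).1 = G.c (F.M p).1 (F.M q).1 := fun p q xp yq => by
    rw [U.twin_j h H (U.R_j xp.step) yq.step, G.symm, U.twin_j h' H' yq.step xp.step, G.symm]
  by_cases a : G.c p.1 q.1 = ν p
  · rw [a]; exact A p hp q hq xp yq e a
  intro b
  refine a (fin_back (f := Prod.map (fun p => j (F.M p)) (fun p => j (F.M p)))
    (S := {z | z.1 ∈ S ∧ z.2 ∈ S ∧ F.R x z.1.1 ∧ F.R y z.2.1 ∧ ν z.2 = ν z.1})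
    (P := fun z => G.c z.1.1 z.2.1 = ν z.1) ?_ ?_ ?_ (x := (p, q)) ⟨hp, hq, xp, yq, e⟩ ?_)
  · rintro ⟨s, t⟩ ⟨a1, a2, a3, a4, a5⟩
    have b1 := U.u2 _ (U.v1 s a1)
    have b2 := U.u2 _ (U.v1 t a2)
    refine ⟨b1, b2, U.R_j a3.step, U.R_j a4.step, ?_⟩
    have := U.v3 _ a1
    have := U.v3 _ b1
    have := U.v3 _ b2
    have := U.nu_nb a1
    have := U.nu_nb a2
    simp only [Prod.map] at *
    grind
  · rintro ⟨s, t⟩ ⟨a1, a2, -⟩ ⟨s', t'⟩ ⟨b1, b2, -⟩ e
    exact Prod.ext (U.nb_inj a1 b1 (congrArg Prod.fst e)) (U.nb_inj a2 b2 (congrArg Prod.snd e))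
  · rintro ⟨s, t⟩ ⟨a1, a2, a3, a4, a5⟩ a6
    have := A s a1 t a2 a3 a4 a5 a6
    have := T s t a3 a4
    have := H _ _ a3.step a4.step
    have := U.v3 _ a1
    have := U.v3 _ (U.u2 _ (U.v1 s a1))
    have := U.nu_nb a1
    simp only [Prod.map] at *
    grind
  · have := T p q xp yq
    have := H _ _ xp yq
    have := U.v3 _ hp
    have := U.v3 _ (U.u2 _ (U.v1 p hp))
    have := U.nu_nb hp
    simp only [Prod.map] at *
    grind

theorem inv2 (h : ¬F.Merge x y) (H : ∀ u v, F.R x u → F.R y v → G.c u v = ρ ∨ G.c u v = σ)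
    (hp : p ∈ S) (hq : q ∈ S) (xp : F.R x p.1) (yq : F.R y q.1) :
    G.c p.1 (j (F.M (j (F.M q)))).1 = G.c p.1 q.1 := by
  have h' : ¬F.Merge y x := fun e => h e.symm
  have H' : ∀ u v, F.R y u → F.R x v → G.c u v = ρ ∨ G.c u v = σ := fun u v a b => by
    rw [G.symm]; exact H _ _ b a
  set f : V × Bool → V × Bool := fun p => j (F.M (j (F.M p))) with hf
  have f1 : ∀ p ∈ S, f p ∈ S := fun p hp => U.u2 _ (U.v1 _ (U.u2 _ (U.v1 p hp)))
  have f2 : ∀ p ∈ S, ν (f p) = ν p := fun p hp => by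
    have := U.v3 _ hp
    have := U.v3 _ (U.u2 _ (U.v1 p hp))
    have := U.v3 _ (f1 p hp)
    have := U.nu_nb hp
    have := U.nu_nb (U.u2 _ (U.v1 p hp))
    grind
  have f3 : ∀ p, F.Dir p (f p) := fun p => (U.dir_j p).trans (U.dir_j _)
  have f4 : Set.InjOn f S := fun a ha b hb e =>
    U.nb_inj ha hb (U.nb_inj (U.u2 _ (U.v1 a ha)) (U.u2 _ (U.v1 b hb)) e)
  have T : ∀ p q : V × Bool, F.R x p.1 → F.R y q.1 →
      G.c (j (F.M p)).1 (j (F.M q)).1 = G.c (F.M p).1 (F.M q).1 := fun p q xp yq => by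
    rw [U.twin_j h H (U.R_j xp.step) yq.step, G.symm, U.twin_j h' H' yq.step xp.step, G.symm]
  have f5 : ∀ p ∈ S, ∀ q ∈ S, F.R x p.1 → F.R y q.1 → ν q = ν p →
      G.c (f p).1 (f q).1 = G.c p.1 q.1 := fun p hp q hq xp yq e => by
    have b1 := U.u2 _ (U.v1 p hp)
    have b2 := U.u2 _ (U.v1 q hq)
    have b3 := U.R_j xp.step
    have b4 := U.R_j yq.step
    have := U.flip h H hp hq xp yq e
    have := U.flip h H b1 b2 b3 b4 (by
      have := U.v3 _ hp
      have := U.v3 _ b1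
      have := U.v3 _ b2
      have := U.nu_nb hp
      have := U.nu_nb hq
      grind)
    have := T p q xp yq
    have := T _ _ b3 b4
    have := H _ _ xp yq
    have := H _ _ xp.step yq.step
    have := H _ _ b3.step b4.step
    grind
  have A : ∀ p ∈ S, ∀ q ∈ S, F.R x p.1 → F.R y q.1 → ν q = ν p → G.c p.1 q.1 = ν p →
      G.c p.1 (f q).1 = ν p := fun p hp q hq xp yq e a => by
    by_contra hc
    have yr := yq.trans (f3 q).R
    have er := (f2 q hq).trans e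
    obtain ⟨b, hb, d, e', b1, b2⟩ : ∃ b ∈ S, F.Dir p b ∧ ν b = ν p ∧ G.c b.1 (f q).1 = ν p ∧
        G.c b.1 q.1 ≠ ν p := by
      by_contra hb
      push Not at hb
      refine hc (fin_back (f := f) (S := {b ∈ S | F.Dir p b ∧ ν b = ν p})
        (P := fun b => G.c b.1 (f q).1 = ν p)
        (fun b hb => ⟨f1 b hb.1, hb.2.1.trans (f3 b), (f2 b hb.1).trans hb.2.2⟩)
        (f4.mono fun b hb => hb.1) (fun b hb' a => ?_) (x := p) ⟨hp, Dir.refl p, rfl⟩ ?_)
      · rw [f5 b hb'.1 q hq (xp.trans hb'.2.1.R) yq (e.trans hb'.2.2.symm)]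
        exact hb b hb'.1 hb'.2.1 hb'.2.2 a
      · rw [f5 p hp q hq xp yq e, a]
    have xb := xp.trans d.R
    have c1 : G.c (F.M q).1 (F.M b).1 = ν p := by
      have := U.flip h H hb hq xb yq (e.trans e'.symm)
      have := H _ _ xb yq
      have := H _ _ xb.step yq.step
      have := U.v3 _ hp
      rw [G.symm]
      grind
    have c2 : G.c (F.M (f q)).1 (F.M p).1 = ν p := by
      have := U.flip h H hp (f1 q hq) xp yr er
      have := H _ _ xp yr
      have := H _ _ xp.step yr.step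
      have := U.v3 _ hp
      rw [G.symm]
      grind
    refine h ((ex4 p b q (f q) d (f3 q) (not_R h xp yq) (fun t => b2 (t ▸ a)) (U.n_ne hp hb e')
      (U.n_ne hb hp e'.symm) (fun t => hc (t ▸ a)) (U.n_ne (f1 q hq) hq (f2 q hq).symm)
      (a ▸ U.nu_ne hp) (by rw [a, ← e]; exact U.nu_ne hq)
      (Or.inl (by rw [c1, ← e]; exact U.nu_ne' hq)) (by rw [c1, ← e']; exact U.nu_ne' hb)
      (by rw [b1, ← e']; exact U.nu_ne hb) (Or.inl (by rw [b1, ← er]; exact U.nu_ne (f1 q hq)))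
      (by rw [c2, ← er]; exact U.nu_ne' (f1 q hq)) (c2 ▸ U.nu_ne' hp)
      fun t => absurd t (U.n_ne hq (f1 q hq) (f2 q hq))).of_R xp yq)
  have B : ∀ p ∈ S, F.R x p.1 → ν q = ν p → G.c p.1 (f q).1 = G.c p.1 q.1 := fun p hp xp e => by
    by_cases a : G.c p.1 q.1 = ν p
    · rw [a, A p hp q hq xp yq e a]
    · have : G.c p.1 (f q).1 ≠ ν p := fun b => a (fin_back (f := f)
        (S := {b ∈ S | F.R y b.1 ∧ ν b = ν p}) (P := fun b => G.c p.1 b.1 = ν p)
        (fun b hb => ⟨f1 b hb.1, hb.2.1.trans (f3 b).R, (f2 b hb.1).trans hb.2.2⟩)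
        (f4.mono fun b hb => hb.1) (fun b hb => A p hp b hb.1 xp hb.2.1 hb.2.2) ⟨hq, yq, e⟩ b)
      have := H _ _ xp yq
      have := H _ _ xp (yq.trans (f3 q).R)
      have := U.v3 _ hp
      grind
  by_cases e : ν q = ν p
  · exact B p hp xp e
  · have := B (j p) (U.u2 p hp) (U.R_j xp) (by
      have := U.v3 _ hp
      have := U.v3 _ hq
      have := U.v3 _ (U.u2 p hp)
      have := U.u3 p hp
      grind)
    rwa [G.symm, U.twin_j h' H' (yq.trans (f3 q).R) xp, G.symm (j p).1, U.twin_j h' H' yq xp,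
      G.symm, G.symm q.1] at this

theorem dom (h : ¬F.Merge x y) (H : ∀ u v, F.R x u → F.R y v → G.c u v = ρ ∨ G.c u v = σ) :
    F.Dom x y ∨ F.Dom y x := by
  have h' : ¬F.Merge y x := fun e => h e.symm
  have H' : ∀ u v, F.R y u → F.R x v → G.c u v = ρ ∨ G.c u v = σ := fun u v a b => by
    rw [G.symm]; exact H _ _ b a
  have ex : ∀ u : V, ∃ p ∈ S, p.1 = u := fun u => by
    by_cases e : (u, true) ∈ S
    exacts [⟨_, e, rfl⟩, ⟨_, U.u1 _ e, rfl⟩]
  have D : ∀ u, F.R x u → ∀ q ∈ S, F.R y q.1 → G.c u (F.M (j q)).1 = G.c u (F.M q).1 := by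
    intro u xu q hq yq
    obtain ⟨p, hp, rfl⟩ := ex u
    have := U.inv2 h H hp (U.v1 _ (U.u2 q hq)) xu (U.R_j yq).step
    rw [inv, U.jj hq, U.twin_j h H xu yq.step] at this
    exact this.symm
  have E : ∀ p ∈ S, ∀ q ∈ S, F.R x p.1 → F.R y q.1 →
      G.c (F.M p).1 (F.M q).1 ≠ G.c p.1 q.1 := fun p hp q hq xp yq => by
    by_cases e : ν q = ν p
    · exact U.flip h H hp hq xp yq e
    · have := U.flip h H hp (U.u2 q hq) xp (U.R_j yq) (by
        have := U.v3 _ hp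
        have := U.v3 _ hq
        have := U.v3 _ (U.u2 q hq)
        have := U.u3 q hq
        grind)
      rwa [D _ xp.step q hq yq, U.twin_j h H xp yq] at this
  obtain ⟨q0, hq0, rfl⟩ := ex y
  have P1 : ∀ u, F.R x u → (G.c u (F.M q0).1 = G.c u q0.1 ↔ G.c x (F.M q0).1 = G.c x q0.1) := by
    intro u hu
    refine (hu.ind (P := fun u => F.R x u ∧
      (G.c u (F.M q0).1 = G.c u q0.1 ↔ G.c x (F.M q0).1 = G.c x q0.1)) ⟨R.refl _, Iff.rfl⟩
      fun p hp => ⟨hp.1.step, Iff.trans ?_ hp.2⟩).2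
    by_cases e : p ∈ S
    · have := E p e q0 hq0 hp.1 (R.refl _)
      have := E p e _ (U.v1 _ hq0) hp.1 (R_M _)
      have := H _ _ hp.1 (R.refl _)
      have := H _ _ hp.1 (R_M _)
      have := H _ _ hp.1.step (R.refl _)
      have := H _ _ hp.1.step (R_M _)
      simp only [inv] at *
      grind
    · rw [G.symm, U.twin h' H' (R_M _) hp.1 e, G.symm (F.M p).1, U.twin h' H' (R.refl _) hp.1 e,
        G.symm, G.symm q0.1]
  have P2 : ∀ u, F.R x u → ∀ q ∈ S, F.R q0.1 q.1 →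
      (G.c u (F.M q).1 = G.c u q.1 ↔ G.c x (F.M q0).1 = G.c x q0.1) := by
    intro u hu q hq yq
    rw [← P1 u hu]
    have J : ∀ q ∈ S, F.R q0.1 q.1 → (G.c u (F.M (j q)).1 = G.c u (j q).1 ↔
        G.c u (F.M q).1 = G.c u q.1) := fun q hq yq => by
      rw [D u hu q hq yq, U.twin_j h H hu yq]
    refine (yq.ind (P := fun v => F.R q0.1 v ∧ ∀ q ∈ S, q.1 = v →
      (G.c u (F.M q).1 = G.c u q.1 ↔ G.c u (F.M q0).1 = G.c u q0.1)) ⟨R.refl _, fun q hq e => ?_⟩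
      fun s hs => ⟨hs.1.step, fun q hq e => ?_⟩).2 q hq rfl
    · rcases port_eq e with rfl | rfl
      · rfl
      · rw [← U.u4 _ hq, J _ hq0 (R.refl _)]
    · by_cases e' : s ∈ S
      · have := hs.2 s e' rfl
        rcases port_eq e with rfl | rfl
        · rw [inv, eq_comm, this]
        · rw [← U.u4 _ hq, J _ (U.v1 _ e') hs.1.step, inv, eq_comm, this]
      · rcases port_eq e with rfl | rfl
        · exact absurd (by simpa using U.v1 _ hq) e'
        · have := U.u5 (fl s) (by simpa)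
          rw [fl_fl] at this
          rw [fl_M, ← this, J _ (U.u1 _ e') hs.1, hs.2 _ (U.u1 _ e') rfl]
  by_cases e : G.c x (F.M q0).1 = G.c x q0.1
  · refine Or.inl fun u hu => ⟨G.c u q0.1, fun z hz => (hz.ind
      (P := fun z => F.R q0.1 z ∧ G.c u z = G.c u q0.1) ⟨R.refl _, rfl⟩ fun s hs =>
        ⟨hs.1.step, Eq.trans ?_ hs.2⟩).2⟩
    by_cases e' : s ∈ S
    exacts [(P2 u hu s e' hs.1).2 e, U.twin h H hu hs.1 e']
  · refine Or.inr fun v hv => ⟨G.c v x, fun z hz => (hz.ind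
      (P := fun z => F.R x z ∧ G.c v z = G.c v x) ⟨R.refl _, rfl⟩ fun s hs =>
        ⟨hs.1.step, Eq.trans ?_ hs.2⟩).2⟩
    by_cases e' : s ∈ S
    · obtain ⟨q, hq, rfl⟩ := ex v
      have := E s e' _ (U.v1 _ hq) hs.1 hv.step
      have := mt (P2 _ hs.1 q hq hv).1 e
      have := H _ _ hs.1 hv
      have := H _ _ hs.1 hv.step
      have := H _ _ hs.1.step hv
      rw [G.symm, G.symm q.1]
      simp only [inv] at *
      grind
    · exact U.twin h' H' hv hs.1 e'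

end Units

theorem two_dom (h : ¬F.Merge x y) (H : ∀ u v, F.R x u → F.R y v → G.c u v = ρ ∨ G.c u v = σ) :
    F.Dom x y ∨ F.Dom y x := by
  by_cases e : ρ = σ
  · exact Or.inl fun u hu => ⟨σ, fun z hz => by simpa [e] using H u z hu hz⟩
  · obtain ⟨S, ν, j, U⟩ := exists_units F e
    exact U.dom h H

end Fac

end Pool.Agent.Lib.MP_dd4ef3_lc
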