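import Pool.Agent.Lib.MP_dd4ef3_lc.H90Cross
import Pool.Agent.Lib.MP_dd4ef3_lc.H90Units

/-!
The two-cycle lemma, maximal factors and closed modules.
-/

namespace Pool.Agent.Lib.MP_dd4ef3_lc

variable {V K : Type} {G : GCol V K}

namespace Fac

variable {F : Fac G} {X : Set V} {x y : V}

theorem Dom.of_R {u v : V} (h : F.Dom u v) (hu : F.R x u) (hv : F.R y v) : F.Dom x y :=
  fun w hw => (h w (hu.symm.trans hw)).imp fun _ e z hz => e z (hv.symm.trans hz)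

theorem nm_of_R {u v : V} (h : ¬F.Merge x y) (hu : F.R x u) (hv : F.R y v) : ¬F.Merge u v :=
  fun e => h (e.of_R hu hv)

variable [Finite V]

theorem two_cycle (m : ℕ) : ∀ X : Set V, X.ncard = m → G.Mod X → ∀ (F : Fac G) (x y : V), x ∈ X →
    y ∈ X → ¬F.Merge x y →
      (∀ u, F.R x u → u ∈ X) ∧ (∀ v, F.R y v → v ∈ X) ∧ (F.Dom x y ∨ F.Dom y x) := by
  induction m using Nat.strong_induction_on with
  | _ m ih =>
  intro X hm hX F x y hx hy h
  obtain ⟨ρ, σ, hc⟩ := GCol.two_col (G := G) hx hy (nm_ne h (R.refl _) (R.refl _))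
  have small : ∀ (F : Fac G) (x y : V), ¬F.Merge x y → ¬F.Two X x y ρ σ →
      (∀ u, F.R x u → u ∈ X) ∧ (∀ v, F.R y v → v ∈ X) ∧ (F.Dom x y ∨ F.Dom y x) := by
    intro F x y h H
    simp only [Two, not_forall, not_or] at H
    obtain ⟨u, hu, v, hv, a1, a2, a3, a4⟩ := H
    obtain ⟨b1, b2, b3⟩ := ih _ (hm ▸ Set.ncard_lt_ncard (hc _ a3 a4 u hu) (Set.toFinite _)) _ rfl
      (GCol.comp_mod hX hu) F u v (GCol.mem_comp u)
      (GCol.comp_step hu (GCol.mem_comp u) hv (nm_ne h a1 a2) rfl) (nm_of_R h a1 a2)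
    exact ⟨fun w hw => GCol.comp_sub hu (b1 w (a1.symm.trans hw)),
      fun w hw => GCol.comp_sub hu (b2 w (a2.symm.trans hw)),
      b3.imp (fun e => e.of_R a1 a2) fun e => e.of_R a2 a1⟩
  have T : ∀ (n : ℕ) (F : Fac G) (p : V × Bool) (y : V), {z ∈ X | F.R p.1 z}.ncard < n →
      F.Ent X p → F.k p ≠ ρ → F.k p ≠ σ → y ∈ X → F.Merge p.1 y := by
    intro n
    induction n with
    | zero => intro _ _ _ e; exact absurd e (Nat.not_lt_zero _)
    | succ n ihn =>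
      intro F p y hn ep n1 n2 hy
      by_contra h
      have H : F.Two X p.1 y ρ σ := by
        by_contra H
        exact ep.1 ((small F _ _ h H).1 _ (R.refl _))
      obtain ⟨s, r, a1, a2, a3, a4, a5, a6, a7⟩ : ∃ s r : V × Bool, F.R p.1 s.1 ∧ F.Ent X s ∧
          F.k s ≠ ρ ∧ F.k s ≠ σ ∧ F.R y r.1 ∧ (F.M r).1 ∈ X ∧ F.Pat s r := by
        by_cases e : ∀ v, F.R y v → v ∈ X
        · obtain ⟨s, r, a1, a2, a3, a4, a5, a6⟩ := inside_pat hX h H (R.refl _) ep e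
          exact ⟨s, r, a1, a2, a3, a4, a5, e _ a5.step, a6⟩
        · push Not at e
          obtain ⟨v, b1, b2⟩ := e
          obtain ⟨q, b3, b4⟩ := exists_ent b1.symm b2 hy
          obtain ⟨r, b5⟩ := cross_pat hX h H (R.refl _) (b1.trans b3) ep b4 n1 n2
          exact ⟨p, r, R.refl _, ep, n1, n2, b5⟩
      obtain ⟨F', b1, b2, b3, b4⟩ := move hX h H a1 a5 a2 a6 a7 a3 a4
      refine b3 (ihn F' s _ ?_ b1 (b2 ▸ a3) (b2 ▸ a4) a6)
      have c1 := Set.ncard_lt_ncard b4 (Set.toFinite _)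
      have c2 : {z ∈ X | F.R s.1 z}.ncard ≤ {z ∈ X | F.R p.1 z}.ncard :=
        Set.ncard_le_ncard (fun z hz => ⟨hz.1, a1.trans hz.2⟩) (Set.toFinite _)
      omega
  have T' : ∀ x y : V, y ∈ X → ¬F.Merge x y → ∀ p : V × Bool, F.R x p.1 → F.Ent X p →
      F.k p = ρ ∨ F.k p = σ := fun x y hy h p hp ep => by
    by_contra e
    push Not at e
    exact nm_of_R h hp (R.refl y) (T _ F p y (Nat.lt_succ_self _) ep e.1 e.2 hy)
  have key : ∀ x y : V, x ∈ X → y ∈ X → ¬F.Merge x y → F.Two X x y ρ σ →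
      ∀ u, F.R x u → u ∈ X := by
    intro x y hx hy h H u hu
    by_contra hu'
    have h' : ¬F.Merge y x := fun e => h e.symm
    obtain ⟨p, hp, ep⟩ := exists_ent hu.symm hu' hx
    have hp := hu.trans hp
    by_cases e : ∀ v, F.R y v → v ∈ X
    · obtain ⟨s, r, a1, a2, a3, a4, -⟩ := inside_pat hX h H hp ep e
      exact (T' x y hy h s a1 a2).elim a3 a4
    · push Not at e
      obtain ⟨v, b1, b2⟩ := e
      obtain ⟨q, hq, eq⟩ := exists_ent b1.symm b2 hy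
      have hq := b1.trans hq
      rcases ent_cell hX h hp hq ep eq with d | d
      · exact cross_two hX h H hp hq ep eq d.symm (T' x y hy h) (T' y x hx h' q hq eq)
      · exact cross_two hX h' H.symm hq hp eq ep d.symm (T' y x hx h') (T' x y hy h p hp ep)
  by_cases H : F.Two X x y ρ σ
  · have a1 := key x y hx hy h H
    have a2 := key y x hy hx (fun e => h e.symm) H.symm
    exact ⟨a1, a2, two_dom h fun u v hu hv => H u (a1 u hu) v (a2 v hv) hu hv⟩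
  · exact small F x y h H

theorem mod_merge (hX : G.Mod X) (hx : x ∈ X) (hy : y ∈ X) {u : V} (hu : F.R x u) (hu' : u ∉ X) :
    F.Merge x y := by
  by_contra h
  exact hu' ((two_cycle _ X rfl hX F x y hx hy h).1 u hu)

theorem dom_or (h : ¬F.Merge x y) : F.Dom x y ∨ F.Dom y x :=
  (two_cycle _ Set.univ rfl (fun _ e => absurd trivial e) F x y trivial trivial h).2.2

/-- No two cycles can be joined. -/
def Max (F : Fac G) : Prop := ∀ x y, F.Merge x y → F.R x y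

theorem exists_max (F : Fac G) : ∃ F' : Fac G, Le F F' ∧ F'.Max := by
  obtain ⟨S, ⟨F', h1, rfl⟩, hmax⟩ := Set.exists_max_image
    {S : Set (V × V) | ∃ F' : Fac G, Le F F' ∧ S = {z | F'.R z.1 z.2}} Set.ncard
    (Set.toFinite _) ⟨_, F, fun _ _ e => e, rfl⟩
  refine ⟨F', h1, ?_⟩
  rintro x y ⟨F2, a1, a2⟩
  by_contra hc
  exact (hmax _ ⟨F2, fun u v e => a1 u v (h1 u v e), rfl⟩).not_gt (Set.ncard_lt_ncard
    ⟨fun z hz => a1 _ _ hz, fun e => hc (e (a := (x, y)) a2)⟩ (Set.toFinite _))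

theorem absorb (hX : G.Mod X) (hx : x ∈ X) {u : V} (hu : F.R x u) (hu' : u ∉ X) :
    ∃ F' : Fac G, Le F F' ∧ ∀ y ∈ X, F'.R x y := by
  obtain ⟨F', h1, h2⟩ := F.exists_max
  exact ⟨F', h1, fun y hy => h2 _ _ (mod_merge hX hx hy (h1 _ _ hu) hu')⟩

theorem Dom.io_col (h : ¬F.Merge x y) (hd : F.Dom x y) {ρ σ : K}
    (H : ∀ u v, F.R x u → F.R y v → G.c u v = ρ ∨ G.c u v = σ) :
    ∃ p : V × Bool, F.R x p.1 ∧ F.Io y p ∧ F.k p = ρ := by
  have t : ∀ p : V × Bool, F.R x p.1 → F.Io y p → F.k p = ρ ∨ F.k p = σ := fun p a b =>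
    b _ (R.refl _) ▸ H _ _ a (R.refl _)
  obtain ⟨p, h1, h2⟩ := hd.exists_io h
  rcases t p h1 h2 with e | e
  · exact ⟨p, h1, h2, e⟩
  have a1 := hd.out_n h h1 (Or.inl h2)
  rcases a1 with a | ⟨c, b1, b2, b3⟩
  · exact ⟨F.n p, h1.step, a, (t (F.n p) h1.step a).resolve_right (e ▸ F.k_n p)⟩
  have h3 : F.R x (F.n p).1 := h1.step
  rw [fl_n, k_M] at b2
  have b4 : c = ρ := by
    have := b1 _ (R.refl _) ▸ H _ _ h3 (R.refl _)
    have := b2.1
    grind
  have n : F.k (F.n p) ≠ ρ ∧ F.k (F.n p) ≠ σ := ⟨b4 ▸ b3.symm, e ▸ F.k_n p⟩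
  have tw := GCol.twin (G := G) (nm_ne h h3 (R.refl y)).symm (nm_ne h h3.step (R.refl y)).symm
    (F.ne _).symm (by
      have := H _ _ h3 (R.refl y)
      rw [k_def, G.symm]; grind) (by
      have := H _ _ h3.step (R.refl y)
      rw [k_def, G.symm]; grind)
  rw [G.symm, G.symm y, b1 _ (R.refl _), b4] at tw
  rcases hd.out_n h h3 (Or.inr ⟨c, b1, by simpa using b2, b3⟩) with a | ⟨d, c1, c2, c3⟩
  · exact ⟨F.n (F.n p), h3.step, a, (a _ (R.refl _)).symm.trans tw.symm⟩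
  · rw [fl_n, k_M] at c2
    have := c2.mem b2
    grind

theorem exists_closed (hF : F.Max) (h : ¬F.R x y) :
    ∃ T : Set V, G.Mod T ∧ T.Nonempty ∧ T ≠ Set.univ ∧ ∀ u ∈ T, ∀ v, F.R u v → v ∈ T := by
  have nm : ∀ u v, ¬F.R u v → ¬F.Merge u v := fun u v a b => a (hF u v b)
  obtain ⟨ρ, σ, hc⟩ := GCol.two_col (G := G) (Set.mem_univ x) (Set.mem_univ y)
    (ne_of_R h (R.refl _) (R.refl _))
  by_cases H : ∀ u v, ¬F.R u v → G.c u v = ρ ∨ G.c u v = σ
  swap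
  · push Not at H
    obtain ⟨u, v, a1, a2, a3⟩ := H
    have m := GCol.comp_mod (G := G) (γ := G.c u v) (fun _ e => absurd trivial e) (Set.mem_univ u)
    have hv := GCol.comp_step (G := G) (Set.mem_univ u) (GCol.mem_comp u) (Set.mem_univ v)
      (ne_of_R a1 (R.refl _) (R.refl _)) rfl
    refine ⟨_, m, ⟨u, GCol.mem_comp u⟩, (hc _ a2 a3 u trivial).ne, fun w hw z hz => ?_⟩
    by_contra e
    exact a1 ((hF _ _ (mod_merge m hw (GCol.mem_comp u) hz e)).symm.trans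
      (hF _ _ (mod_merge m hw hv hz e)))
  obtain ⟨b, -, hb⟩ := Set.exists_max_image (Set.univ : Set V)
    (fun b => {z | ¬F.R z b ∧ F.Dom z b}.ncard) (Set.toFinite _) ⟨x, trivial⟩
  refine ⟨{z | F.R b z}, fun v hv => ?_, ⟨b, R.refl b⟩, fun e => h ?_, fun u hu v hv => hu.trans hv⟩
  swap
  · have e' : ∀ z, F.R b z := fun z => by
      have : z ∈ {z | F.R b z} := e ▸ trivial
      exact this
    exact (e' x).symm.trans (e' y)
  have hv : ¬F.R v b := fun e => hv e.symm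
  suffices d : F.Dom v b by
    obtain ⟨c, d⟩ := d v (R.refl v)
    exact fun s hs t ht => (d s hs).trans (d t ht).symm
  by_contra d
  have d1 : F.Dom b v := (dom_or (nm _ _ hv)).resolve_left d
  obtain ⟨e, ⟨a1, a2⟩, a3⟩ : ∃ e, (¬F.R e b ∧ F.Dom e b) ∧ ¬(¬F.R e v ∧ F.Dom e v) := by
    by_contra hc
    refine (hb v trivial).not_gt (Set.ncard_lt_ncard ⟨fun e he => ?_, fun e => ?_⟩ (Set.toFinite _))
    · by_contra a
      exact hc ⟨e, he, a⟩
    · exact (e (a := b) ⟨fun a => hv a.symm, d1⟩).1 (R.refl b)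
  have a4 : ¬F.R e v := fun a => d (a2.of_R a.symm (R.refl _))
  have d2 : F.Dom v e := (dom_or (nm _ _ a4)).resolve_left fun a => a3 ⟨a4, a⟩
  have io : ∀ s t, ¬F.R s t → F.Dom s t → ∃ p : V × Bool, F.R s p.1 ∧ F.Io t p ∧ F.k p = ρ :=
    fun s t a d => d.io_col (nm _ _ a) (fun u w hu hw => H u w (not_R (nm _ _ a) hu hw))
  obtain ⟨p, p1, p2, p3⟩ := io b v (fun a => hv a.symm) d1
  obtain ⟨q, q1, q2, q3⟩ := io v e (fun a => a4 a.symm) d2
  obtain ⟨r, r1, r2, r3⟩ := io e b a1 a2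
  have c1 := p2 _ q1.step
  have c2 := q2 _ r1.step
  have c3 := r2 _ p1.step
  have n1 := not_R (nm _ _ hv) q1 p1
  refine n1 (hF _ _ (merge3 p q r (fun a => n1 a.symm) (fun a => not_R (nm _ _ a1) r1 p1 a.symm)
    (fun a => not_R (nm _ _ a4) r1 q1 a.symm) (c1 ▸ F.k_fl p) ?_ (c2 ▸ F.k_fl q) ?_
    (c3 ▸ F.k_fl r) ?_)).symm
  · rw [c1, p3, ← q3]; exact (F.k_n q).symm
  · rw [c2, q3, ← r3]; exact (F.k_n r).symm
  · rw [c3, r3, ← p3]; exact (F.k_n p).symm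

end Fac

end Pool.Agent.Lib.MP_dd4ef3_lc
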